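import Pool.Agent.H681.TS.Defs

set_option autoImplicit false

namespace Pool.Agent.H681.TS

open Finset Pool.Agent.Q237.LV
open scoped Classical

variable {q : ℕ} [Fact q.Prime]

theorem nu_val {n : ℕ} (h : (n : ZMod q) ≠ 0) : ((nu n : (ZMod q)ˣ) : ZMod q) = (n : ZMod q) := by
  unfold nu
  rw [dif_pos h, Units.val_mk0]

theorem nu_ne {n : ℕ} (h1 : 1 ≤ n) (h2 : n < q) : (n : ZMod q) ≠ 0 := by
  intro h
  rw [ZMod.natCast_eq_zero_iff] at h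
  have h3 := Nat.le_of_dvd (by omega) h
  omega

theorem Fw_nonneg (S : Finset (DirichletCharacter ℂ q)) (κ : (ZMod q)ˣ) : 0 ≤ Fw S κ := by
  unfold Fw
  positivity

theorem Fw_le_one (S : Finset (DirichletCharacter ℂ q)) (κ : (ZMod q)ˣ) : Fw S κ ≤ 1 := by
  unfold Fw
  have h1 : ‖∑ ψ ∈ S, ψ (κ : ZMod q)‖ ≤ (S.card : ℝ) := by
    refine (norm_sum_le _ _).trans ?_
    have h2 : ∀ ψ ∈ S, ‖ψ (κ : ZMod q)‖ ≤ (1 : ℝ) := fun ψ _ => DirichletCharacter.norm_le_one ψ _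
    refine (sum_le_sum h2).trans ?_
    simp
  have h3 : ‖∑ ψ ∈ S, ψ (κ : ZMod q)‖ ^ 2 ≤ (S.card : ℝ) ^ 2 :=
    pow_le_pow_left₀ (norm_nonneg _) h1 2
  exact div_le_one_of_le₀ h3 (by positivity)

theorem Fw_inv (S : Finset (DirichletCharacter ℂ q)) (κ : (ZMod q)ˣ) : Fw S κ⁻¹ = Fw S κ := by
  unfold Fw
  have h1 : ∑ ψ ∈ S, ψ ((κ⁻¹ : (ZMod q)ˣ) : ZMod q) =
      (starRingEnd ℂ) (∑ ψ ∈ S, ψ (κ : ZMod q)) := by
    rw [map_sum]
    refine sum_congr rfl fun ψ _ => ?_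
    rw [conj_apply, Units.val_inv_eq_inv_val]
  rw [h1, RCLike.norm_conj]

theorem A1_unit_sum (ψ : DirichletCharacter ℂ q) :
    ∑ g : (ZMod q)ˣ, ψ (g : ZMod q) = if ψ = 1 then (q.totient : ℂ) else 0 := by
  split_ifs with h
  · rw [h]
    simp [MulChar.one_apply_coe, ZMod.card_units_eq_totient]
  · obtain ⟨a, ha⟩ := MulChar.ne_one_iff.1 h
    refine eq_zero_of_mul_eq_self_left ha ?_
    rw [mul_sum]
    refine Fintype.sum_bijective _ (Group.mulLeft_bijective a) _ _ fun b => ?_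
    rw [← map_mul, Units.val_mul]

theorem A1_inv_apply (ψ : DirichletCharacter ℂ q) (g : (ZMod q)ˣ) :
    (ψ⁻¹ : DirichletCharacter ℂ q) (g : ZMod q) = ψ ((g : ZMod q)⁻¹) := by
  rw [MulChar.inv_apply_eq_inv', ← conj_apply]
  have h1 : ‖ψ (g : ZMod q)‖ = 1 := DirichletCharacter.unit_norm_eq_one ψ g
  exact Complex.inv_eq_conj h1

theorem sum_Fw {S : Finset (DirichletCharacter ℂ q)} (hS : S.Nonempty) :
    ∑ κ : (ZMod q)ˣ, Fw S κ = (q.totient : ℝ) / S.card := by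
  have hc : (S.card : ℝ) ≠ 0 := by
    have := card_pos.2 hS
    positivity
  have h1 : ∀ κ : (ZMod q)ˣ, ((‖∑ ψ ∈ S, ψ (κ : ZMod q)‖ ^ 2 : ℝ) : ℂ) =
      ∑ ψ ∈ S, ∑ ψ' ∈ S, (ψ * ψ'⁻¹) (κ : ZMod q) := by
    intro κ
    rw [← Complex.normSq_eq_norm_sq, Complex.normSq_eq_conj_mul_self, map_sum, sum_mul_sum,
      sum_comm]
    refine sum_congr rfl fun ψ _ => sum_congr rfl fun ψ' _ => ?_
    rw [MulChar.mul_apply, A1_inv_apply, conj_apply, mul_comm]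
  have h2 : ((∑ κ : (ZMod q)ˣ, ‖∑ ψ ∈ S, ψ (κ : ZMod q)‖ ^ 2 : ℝ) : ℂ) =
      (((q.totient : ℝ) * S.card : ℝ) : ℂ) := by
    rw [Complex.ofReal_sum, sum_congr rfl (fun κ _ => h1 κ), sum_comm]
    have h3 : ∀ ψ ∈ S, ∑ κ : (ZMod q)ˣ, ∑ ψ' ∈ S, (ψ * ψ'⁻¹) (κ : ZMod q) = (q.totient : ℂ) := by
      intro ψ hψ
      rw [sum_comm]
      have h4 : ∀ ψ' ∈ S, ∑ κ : (ZMod q)ˣ, (ψ * ψ'⁻¹) (κ : ZMod q) =
          if ψ' = ψ then (q.totient : ℂ) else 0 := by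
        intro ψ' _
        rw [A1_unit_sum]
        by_cases h : ψ' = ψ
        · rw [if_pos h, if_pos (by rw [h, mul_inv_cancel])]
        · rw [if_neg h, if_neg]
          intro h5
          exact h (mul_inv_eq_one.1 h5).symm
      rw [sum_congr rfl h4, sum_ite_eq' S ψ, if_pos hψ]
    rw [sum_congr rfl h3, sum_const, nsmul_eq_mul]
    push_cast
    ring
  have h5 : ∑ κ : (ZMod q)ˣ, ‖∑ ψ ∈ S, ψ (κ : ZMod q)‖ ^ 2 = (q.totient : ℝ) * S.card := by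
    exact_mod_cast h2
  unfold Fw
  rw [← sum_div, h5]
  field_simp

end Pool.Agent.H681.TS
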