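import Pool.Agent.H681.TS.A1

set_option autoImplicit false

namespace Pool.Agent.H681.TS

open Finset Pool.Agent.Q237.LV
open scoped Classical

variable {q : ℕ} [Fact q.Prime]

theorem A10_hf_bot : hf (⊥ : Subgroup (DirichletCharacter ℂ q)) = {1} := by
  ext ψ
  rw [mem_hf, mem_singleton, Subgroup.mem_bot]

theorem A10_kf_bot : kf (⊥ : Subgroup (DirichletCharacter ℂ q)) = univ := by
  ext κ
  refine ⟨fun _ => mem_univ κ, fun _ => ?_⟩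
  by_contra hne
  have h := sum_hf (⊥ : Subgroup (DirichletCharacter ℂ q)) κ
  rw [if_neg hne, A10_hf_bot, sum_singleton, MulChar.one_apply_coe] at h
  exact one_ne_zero h

/-- the expansion of the mollified, resonated value at a single character -/
theorem A10_expand {y Δ Y N : ℕ} {P : Finset ℕ} (hP : ∀ p ∈ P, p.Prime) (hN : N < q)
    (fp : ℕ → ℝ) (χ : DirichletCharacter ℂ q) :
    MM y Δ χ * LL Y χ * ((‖RR N P fp χ‖ ^ 2 : ℝ) : ℂ) =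
      ∑ κ : (ZMod q)ˣ, χ (κ : ZMod q) * ((TT y Δ Y N P fp κ : ℝ) : ℂ) := by
  have h := coset_sum (y := y) (Δ := Δ) (Y := Y) hP hN fp
    (⊥ : Subgroup (DirichletCharacter ℂ q)) χ
  rw [A10_hf_bot, A10_kf_bot, sum_singleton, card_singleton, Nat.cast_one, one_mul, mul_one] at h
  exact h

/-- the fluctuation of the sum over a translate of `S` -/
theorem fluctF {y Δ Y N : ℕ} {P : Finset ℕ} (hP : ∀ p ∈ P, p.Prime) (hN : N < q) (fp : ℕ → ℝ)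
    {S : Finset (DirichletCharacter ℂ q)} (hS : S.Nonempty) :
    ∑ χ : DirichletCharacter ℂ q,
      ‖∑ ψ ∈ S, MM y Δ (χ * ψ) * LL Y (χ * ψ) * ((‖RR N P fp (χ * ψ)‖ ^ 2 : ℝ) : ℂ) -
        ((S.card * TT y Δ Y N P fp (1 : (ZMod q)ˣ) : ℝ) : ℂ)‖ ^ 2 =
      (S.card : ℝ) ^ 2 * ((q.totient : ℝ) *
        ∑ κ ∈ (univ : Finset (ZMod q)ˣ).erase 1, Fw S κ * TT y Δ Y N P fp κ ^ 2) := by
  have hc : (0 : ℝ) < S.card := by exact_mod_cast card_pos.2 hS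
  have h1 : ∀ χ : DirichletCharacter ℂ q,
      ∑ ψ ∈ S, MM y Δ (χ * ψ) * LL Y (χ * ψ) * ((‖RR N P fp (χ * ψ)‖ ^ 2 : ℝ) : ℂ) -
        ((S.card * TT y Δ Y N P fp (1 : (ZMod q)ˣ) : ℝ) : ℂ) =
      ∑ κ ∈ (univ : Finset (ZMod q)ˣ).erase 1, χ (κ : ZMod q) *
        ((∑ ψ ∈ S, ψ (κ : ZMod q)) * ((TT y Δ Y N P fp κ : ℝ) : ℂ)) := by
    intro χ
    have e1 : ∀ ψ ∈ S, MM y Δ (χ * ψ) * LL Y (χ * ψ) * ((‖RR N P fp (χ * ψ)‖ ^ 2 : ℝ) : ℂ) =
        ∑ κ : (ZMod q)ˣ, χ (κ : ZMod q) * (ψ (κ : ZMod q) * ((TT y Δ Y N P fp κ : ℝ) : ℂ)) := by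
      intro ψ _
      rw [A10_expand hP hN fp (χ * ψ)]
      refine sum_congr rfl fun κ _ => ?_
      rw [MulChar.mul_apply, mul_assoc]
    rw [sum_congr rfl e1, sum_comm]
    have e2 : ∀ κ ∈ (univ : Finset (ZMod q)ˣ),
        ∑ ψ ∈ S, χ (κ : ZMod q) * (ψ (κ : ZMod q) * ((TT y Δ Y N P fp κ : ℝ) : ℂ)) =
        χ (κ : ZMod q) * ((∑ ψ ∈ S, ψ (κ : ZMod q)) * ((TT y Δ Y N P fp κ : ℝ) : ℂ)) := by
      intro κ _
      rw [← mul_sum, ← sum_mul]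
    rw [sum_congr rfl e2, ← add_sum_erase (univ : Finset (ZMod q)ˣ) _ (mem_univ 1)]
    have e3 : ∑ ψ ∈ S, ψ (((1 : (ZMod q)ˣ)) : ZMod q) = (S.card : ℂ) := by
      have e4 : ∀ ψ ∈ S, ψ (((1 : (ZMod q)ˣ)) : ZMod q) = (1 : ℂ) := by
        intro ψ _
        rw [Units.val_one, map_one]
      rw [sum_congr rfl e4, sum_const, nsmul_eq_mul, mul_one]
    rw [e3, Units.val_one, map_one, one_mul]
    push_cast
    ring
  simp_rw [h1]
  rw [parseval, mul_left_comm ((S.card : ℝ) ^ 2)]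
  refine congrArg (fun z : ℝ => (q.totient : ℝ) * z) ?_
  rw [mul_sum]
  refine sum_congr rfl fun κ _ => ?_
  rw [norm_mul, mul_pow, Complex.norm_real, Real.norm_eq_abs, sq_abs]
  unfold Fw
  field_simp

end Pool.Agent.H681.TS
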