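import Pool.Agent.H681.TS.A10

set_option autoImplicit false

namespace Pool.Agent.H681.TS

open Finset Pool.Agent.Q237.LV
open scoped Classical

variable {q : ℕ} [Fact q.Prime]

theorem A11_sum_univ (S : Finset (DirichletCharacter ℂ q)) (f : DirichletCharacter ℂ q → ℝ) :
    ∑ χ : DirichletCharacter ℂ q, ∑ ψ ∈ S, f (χ * ψ) =
      (S.card : ℝ) * ∑ χ : DirichletCharacter ℂ q, f χ := by
  rw [sum_comm]
  have h1 : ∀ ψ ∈ S, ∑ χ : DirichletCharacter ℂ q, f (χ * ψ) = ∑ χ, f χ := fun ψ _ =>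
    Fintype.sum_bijective (fun χ => χ * ψ) (Group.mulRight_bijective ψ) _ _ fun χ => rfl
  rw [sum_congr rfl h1, sum_const, nsmul_eq_mul]

theorem bad_countF {y Δ Y N : ℕ} {P : Finset ℕ} (hP : ∀ p ∈ P, p.Prime) (hy : ∀ p ∈ P, y ≤ p)
    (hq : Δ * N < q) (hΔ : 1 ≤ Δ) {fp : ℕ → ℝ} (hf0 : ∀ p ∈ P, 0 ≤ fp p)
    {S : Finset (DirichletCharacter ℂ q)} (hS : S.Nonempty) {t1 E2 W L0 : ℝ} (ht1 : 0 < t1)
    (hT1 : t1 ≤ TT y Δ Y N P fp (1 : (ZMod q)ˣ)) (hE2 : E2 = ∑ S ∈ SSt P N, ff fp S ^ 2)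
    (hE20 : 0 < E2) (hW : 0 < W) (hL00 : 0 ≤ L0)
    (hL0 : L0 * (W * (2 + Real.log Δ) * E2) ≤ t1 / 2) :
    ((badS S Y L0).card : ℝ) ≤ 4 * (q.totient : ℝ) *
        (∑ κ ∈ (univ : Finset (ZMod q)ˣ).erase 1, Fw S κ * TT y Δ Y N P fp κ ^ 2) / t1 ^ 2 +
      (q.totient : ℝ) / W +
      (if 4 * Real.sqrt Δ * Real.sqrt Y * (N * E2) ≤ (S.card : ℝ) * t1 / 4 then 0
        else (S.card : ℝ)) := by
  have hNq : N < q := by
    have : 1 * N ≤ Δ * N := Nat.mul_le_mul_right N hΔ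
    omega
  have hH0 : (0 : ℝ) < S.card := by exact_mod_cast hS.card_pos
  have hlog : 0 ≤ Real.log Δ := Real.log_natCast_nonneg Δ
  obtain ⟨F1, hF1⟩ : ∃ F1 : DirichletCharacter ℂ q → ℝ, F1 = fun χ =>
      ‖∑ ψ ∈ S, MM y Δ (χ * ψ) * LL Y (χ * ψ) * ((‖RR N P fp (χ * ψ)‖ ^ 2 : ℝ) : ℂ) -
        ((S.card * TT y Δ Y N P fp (1 : (ZMod q)ˣ) : ℝ) : ℂ)‖ ^ 2 := ⟨_, rfl⟩
  obtain ⟨G2, hG2⟩ : ∃ G2 : DirichletCharacter ℂ q → ℝ, G2 = fun χ =>
      ‖RR N P fp χ‖ ^ 2 + ‖MM y Δ χ‖ ^ 2 * ‖RR N P fp χ‖ ^ 2 := ⟨_, rfl⟩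
  obtain ⟨F2, hF2⟩ : ∃ F2 : DirichletCharacter ℂ q → ℝ, F2 = fun χ =>
      ∑ ψ ∈ S, G2 (χ * ψ) := ⟨_, rfl⟩
  have hG20 : ∀ χ, 0 ≤ G2 χ := by
    intro χ
    rw [hG2]
    positivity
  have s1 : ∑ χ : DirichletCharacter ℂ q, F1 χ = (S.card : ℝ) ^ 2 * ((q.totient : ℝ) *
        ∑ κ ∈ (univ : Finset (ZMod q)ˣ).erase 1, Fw S κ * TT y Δ Y N P fp κ ^ 2) := by
    rw [hF1]
    exact fluctF hP hNq fp hS
  have s2 : ∑ χ : DirichletCharacter ℂ q, F2 χ ≤ (S.card : ℝ) * ((q.totient : ℝ) *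
        ((2 + Real.log Δ) * E2)) := by
    rw [hF2]
    simp only
    rw [A11_sum_univ]
    refine mul_le_mul_of_nonneg_left ?_ hH0.le
    rw [hG2]
    simp only
    rw [sum_add_distrib, moment_R hP hNq, moment_MR hP hy hq, ← hE2, ← mul_add]
    refine mul_le_mul_of_nonneg_left ?_ (by positivity)
    have h1 := mul_le_mul_of_nonneg_right (sum_DS_le y Δ) hE20.le
    linarith
  -- the three exceptional sets
  obtain ⟨B1, hB1⟩ : ∃ B1 : Finset (DirichletCharacter ℂ q), B1 = univ.filter (fun χ =>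
      ((S.card : ℝ) * t1 / 2) ^ 2 ≤ F1 χ) := ⟨_, rfl⟩
  obtain ⟨B2, hB2⟩ : ∃ B2 : Finset (DirichletCharacter ℂ q), B2 = univ.filter (fun χ =>
      W * ((S.card : ℝ) * ((2 + Real.log Δ) * E2)) ≤ F2 χ) := ⟨_, rfl⟩
  obtain ⟨B3, hB3⟩ : ∃ B3 : Finset (DirichletCharacter ℂ q), B3 =
      if 4 * Real.sqrt Δ * Real.sqrt Y * (N * E2) ≤ (S.card : ℝ) * t1 / 4 then ∅
        else S.image (fun ψ => ψ⁻¹) := ⟨_, rfl⟩
  have c1 : (B1.card : ℝ) ≤ 4 * (q.totient : ℝ) *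
        (∑ κ ∈ (univ : Finset (ZMod q)ˣ).erase 1, Fw S κ * TT y Δ Y N P fp κ ^ 2) / t1 ^ 2 := by
    rw [hB1]
    refine (markov _ F1 (fun χ _ => by rw [hF1]; positivity) (by positivity)).trans ?_
    rw [s1]
    refine le_of_eq ?_
    field_simp
    ring
  have c2 : (B2.card : ℝ) ≤ (q.totient : ℝ) / W := by
    rw [hB2]
    refine (markov _ F2 (fun χ _ => by rw [hF2]; exact sum_nonneg fun ψ _ => hG20 _)
      (by positivity)).trans ?_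
    rw [div_le_iff₀ (by positivity)]
    refine s2.trans (le_of_eq ?_)
    field_simp
  have c3 : (B3.card : ℝ) ≤ if 4 * Real.sqrt Δ * Real.sqrt Y * (N * E2) ≤
      (S.card : ℝ) * t1 / 4 then 0 else (S.card : ℝ) := by
    rw [hB3]
    split_ifs
    · simp
    · exact_mod_cast card_image_le
  have hsub : badS S Y L0 ⊆ B1 ∪ B2 ∪ B3 := by
    intro χ hχ
    unfold badS at hχ
    rw [mem_filter] at hχ
    obtain ⟨-, hχ⟩ := hχ
    by_contra hcon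
    rw [mem_union, mem_union, not_or, not_or] at hcon
    obtain ⟨⟨n1, n2⟩, n3⟩ := hcon
    rw [hB1, mem_filter, not_and] at n1
    rw [hB2, mem_filter, not_and] at n2
    have n1' := not_le.1 (n1 (mem_univ _))
    have n2' := not_le.1 (n2 (mem_univ _))
    -- the contribution of the principal character
    obtain ⟨tr, htr⟩ : ∃ tr : ℝ, tr = ∑ ψ ∈ S.filter (fun ψ => χ * ψ = 1),
        ‖MM y Δ (χ * ψ)‖ * ‖LL Y (χ * ψ)‖ * ‖RR N P fp (χ * ψ)‖ ^ 2 := ⟨_, rfl⟩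
    have htr1 : tr ≤ (S.card : ℝ) * t1 / 4 := by
      have hcard : (S.filter (fun ψ => χ * ψ = 1)).card ≤ 1 := by
        rw [card_le_one]
        intro ψ hψ ψ' hψ'
        rw [mem_filter] at hψ hψ'
        exact mul_left_cancel (hψ.2.trans hψ'.2.symm)
      by_cases hsm : 4 * Real.sqrt Δ * Real.sqrt Y * (N * E2) ≤ (S.card : ℝ) * t1 / 4
      · refine le_trans ?_ hsm
        rw [htr]
        refine (sum_le_card_nsmul _ _ (4 * Real.sqrt Δ * Real.sqrt Y * (N * E2))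
          (fun ψ _ => ?_)).trans ?_
        · rw [hE2]
          exact triv_bound hP hf0 (χ * ψ)
        · rw [nsmul_eq_mul]
          have h1 : (((S.filter (fun ψ => χ * ψ = 1)).card : ℕ) : ℝ) ≤ 1 := by
            exact_mod_cast hcard
          exact mul_le_of_le_one_left (by positivity) h1
      · rw [hB3, if_neg hsm] at n3
        have h1 : S.filter (fun ψ => χ * ψ = 1) = ∅ := by
          rw [filter_eq_empty_iff]
          intro ψ hψ h2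
          have h3 : χ = ψ⁻¹ := eq_inv_of_mul_eq_one_left h2
          exact n3 (mem_image.2 ⟨ψ, hψ, h3.symm⟩)
        rw [htr, h1, sum_empty]
        positivity
    have h1 : ‖∑ ψ ∈ S, MM y Δ (χ * ψ) * LL Y (χ * ψ) *
        ((‖RR N P fp (χ * ψ)‖ ^ 2 : ℝ) : ℂ)‖ ≤ L0 * (F2 χ / 2) + tr := by
      refine (norm_sum_le _ _).trans ?_
      have h2 : ∀ ψ ∈ S, ‖MM y Δ (χ * ψ) * LL Y (χ * ψ) *
          ((‖RR N P fp (χ * ψ)‖ ^ 2 : ℝ) : ℂ)‖ =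
          ‖MM y Δ (χ * ψ)‖ * ‖LL Y (χ * ψ)‖ * ‖RR N P fp (χ * ψ)‖ ^ 2 := by
        intro ψ _
        rw [norm_mul, norm_mul, Complex.norm_real, Real.norm_eq_abs,
          abs_of_nonneg (by positivity : 0 ≤ ‖RR N P fp (χ * ψ)‖ ^ 2)]
      rw [sum_congr rfl h2, ← sum_filter_add_sum_filter_not S (fun ψ => χ * ψ = 1), ← htr,
        add_comm]
      refine add_le_add ?_ le_rfl
      have h3 : ∀ ψ ∈ S.filter (fun ψ => ¬ χ * ψ = 1),
          ‖MM y Δ (χ * ψ)‖ * ‖LL Y (χ * ψ)‖ * ‖RR N P fp (χ * ψ)‖ ^ 2 ≤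
          L0 * (G2 (χ * ψ) / 2) := by
        intro ψ hψ
        rw [mem_filter] at hψ
        have h4 := hχ ψ hψ.1 hψ.2
        have h5 : ‖MM y Δ (χ * ψ)‖ * ‖RR N P fp (χ * ψ)‖ ^ 2 ≤ G2 (χ * ψ) / 2 := by
          rw [hG2]
          simp only
          have h6 : ‖MM y Δ (χ * ψ)‖ ≤ (1 + ‖MM y Δ (χ * ψ)‖ ^ 2) / 2 := by
            nlinarith [sq_nonneg (‖MM y Δ (χ * ψ)‖ - 1)]
          have h7 : 0 ≤ ‖RR N P fp (χ * ψ)‖ ^ 2 := by positivity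
          nlinarith
        calc ‖MM y Δ (χ * ψ)‖ * ‖LL Y (χ * ψ)‖ * ‖RR N P fp (χ * ψ)‖ ^ 2
            = ‖LL Y (χ * ψ)‖ * (‖MM y Δ (χ * ψ)‖ * ‖RR N P fp (χ * ψ)‖ ^ 2) := by ring
          _ ≤ L0 * (G2 (χ * ψ) / 2) :=
              mul_le_mul h4 h5 (by positivity) hL00
      refine (sum_le_sum h3).trans ?_
      rw [← mul_sum]
      refine mul_le_mul_of_nonneg_left ?_ hL00
      rw [← sum_div, hF2]
      simp only
      refine div_le_div_of_nonneg_right ?_ (by norm_num)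
      exact sum_le_sum_of_subset_of_nonneg (filter_subset _ _) fun ψ _ _ => hG20 _
    have h2 : ‖∑ ψ ∈ S, MM y Δ (χ * ψ) * LL Y (χ * ψ) * ((‖RR N P fp (χ * ψ)‖ ^ 2 : ℝ) : ℂ) -
        ((S.card * TT y Δ Y N P fp (1 : (ZMod q)ˣ) : ℝ) : ℂ)‖ < (S.card : ℝ) * t1 / 2 := by
      rw [hF1] at n1'
      exact lt_of_pow_lt_pow_left₀ 2 (by positivity) n1'
    have h3 : (S.card : ℝ) * TT y Δ Y N P fp (1 : (ZMod q)ˣ) ≤
        ‖∑ ψ ∈ S, MM y Δ (χ * ψ) * LL Y (χ * ψ) * ((‖RR N P fp (χ * ψ)‖ ^ 2 : ℝ) : ℂ)‖ +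
        ‖∑ ψ ∈ S, MM y Δ (χ * ψ) * LL Y (χ * ψ) * ((‖RR N P fp (χ * ψ)‖ ^ 2 : ℝ) : ℂ) -
        ((S.card * TT y Δ Y N P fp (1 : (ZMod q)ˣ) : ℝ) : ℂ)‖ := by
      have h4 : ‖((S.card * TT y Δ Y N P fp (1 : (ZMod q)ˣ) : ℝ) : ℂ)‖ =
          (S.card : ℝ) * TT y Δ Y N P fp (1 : (ZMod q)ˣ) := by
        rw [Complex.norm_real, Real.norm_eq_abs, abs_of_nonneg]
        have := ht1.le.trans hT1
        positivity
      refine h4.symm.trans_le ?_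
      refine le_trans (le_of_eq ?_) (norm_sub_le _ _)
      rw [sub_sub_cancel]
    have h5 : (S.card : ℝ) * t1 ≤ (S.card : ℝ) * TT y Δ Y N P fp (1 : (ZMod q)ˣ) :=
      mul_le_mul_of_nonneg_left hT1 hH0.le
    have h6 : L0 * (F2 χ / 2) ≤ (S.card : ℝ) * t1 / 4 := by
      have h7 : L0 * F2 χ ≤ L0 * (W * ((S.card : ℝ) * ((2 + Real.log Δ) * E2))) :=
        mul_le_mul_of_nonneg_left n2'.le hL00
      have h8 : L0 * (W * ((S.card : ℝ) * ((2 + Real.log Δ) * E2))) =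
          (S.card : ℝ) * (L0 * (W * (2 + Real.log Δ) * E2)) := by
        rw [mul_left_comm W, mul_left_comm L0, mul_assoc W]
      have h9 : (S.card : ℝ) * (L0 * (W * (2 + Real.log Δ) * E2)) ≤
          (S.card : ℝ) * (t1 / 2) := mul_le_mul_of_nonneg_left hL0 hH0.le
      clear hL0 h3 h2 h1 htr1 htr n1' n2' n1 n2 c1 c2 c3 s1 s2
      linarith only [h7, h8, h9]
    linarith only [h1, h2, h3, h5, h6, htr1]
  have hcard : ((badS S Y L0).card : ℝ) ≤ B1.card + B2.card + B3.card := by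
    have h1 := card_le_card hsub
    have h2 := card_union_le (B1 ∪ B2) B3
    have h3 := card_union_le B1 B2
    have h4 : (badS S Y L0).card ≤ B1.card + B2.card + B3.card := by omega
    exact_mod_cast h4
  linarith

end Pool.Agent.H681.TS
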