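import Pool.Agent.H681.TS.A1

set_option autoImplicit false

namespace Pool.Agent.H681.TS

open Finset Pool.Agent.Q237.LV
open scoped Classical

variable {q : ℕ} [Fact q.Prime]

theorem A2_conj (ψ : DirichletCharacter ℂ q) (κ : (ZMod q)ˣ) :
    (starRingEnd ℂ) (ψ (κ : ZMod q)) = ψ⁻¹ (κ : ZMod q) :=
  MulChar.star_apply' ψ (κ : ZMod q)

theorem A2_expand (S : Finset (DirichletCharacter ℂ q)) (κ : (ZMod q)ˣ) :
    ((‖∑ ψ ∈ S, ψ (κ : ZMod q)‖ ^ 2 : ℝ) : ℂ) =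
      ∑ x ∈ S ×ˢ S, (x.1 * x.2⁻¹) (κ : ZMod q) := by
  rw [Complex.ofReal_pow, ← Complex.mul_conj', map_sum, sum_mul_sum, sum_product]
  refine sum_congr rfl fun ψ _ => sum_congr rfl fun ψ' _ => ?_
  rw [A2_conj, MulChar.mul_apply]

theorem A2_sum (S : Finset (DirichletCharacter ℂ q)) {ι : Type*} (I : Finset ι) (a : ι → ℝ)
    (u : ι → (ZMod q)ˣ) (c : (ZMod q)ˣ) :
    (((∑ i ∈ I, a i * Fw S (u i * c)) : ℝ) : ℂ) = (((S.card : ℝ) ^ 2)⁻¹ : ℝ) *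
      ∑ x ∈ S ×ˢ S, (x.1 * x.2⁻¹) (c : ZMod q) *
        ∑ i ∈ I, ((a i : ℝ) : ℂ) * (x.1 * x.2⁻¹) (u i : ZMod q) := by
  have h1 : ∀ i ∈ I, (((a i * Fw S (u i * c)) : ℝ) : ℂ) = (((S.card : ℝ) ^ 2)⁻¹ : ℝ) *
      ∑ x ∈ S ×ˢ S, (x.1 * x.2⁻¹) (c : ZMod q) *
        (((a i : ℝ) : ℂ) * (x.1 * x.2⁻¹) (u i : ZMod q)) := by
    intro i _
    unfold Fw
    rw [div_eq_mul_inv, Complex.ofReal_mul, Complex.ofReal_mul, A2_expand, mul_comm (∑ x ∈ S ×ˢ S, _) _,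
      mul_left_comm, mul_sum]
    congr 1
    refine sum_congr rfl fun x _ => ?_
    rw [Units.val_mul, map_mul]
    ring
  rw [Complex.ofReal_sum, sum_congr rfl h1, ← mul_sum, sum_comm]
  congr 1
  refine sum_congr rfl fun x _ => ?_
  rw [mul_sum]

theorem A2_shift (S : Finset (DirichletCharacter ℂ q)) (f : DirichletCharacter ℂ q → ℝ)
    (hf : ∀ χ, 0 ≤ f χ) :
    ∑ x ∈ S ×ˢ S, f (x.1 * x.2⁻¹) ≤ S.card * ∑ χ : DirichletCharacter ℂ q, f χ := by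
  rw [sum_product_right, ← nsmul_eq_mul, ← sum_const]
  refine sum_le_sum fun ψ' _ => ?_
  rw [← sum_image (s := S) (g := fun ψ => ψ * ψ'⁻¹) (f := f)
    (fun x _ y _ h => mul_right_cancel h)]
  exact sum_le_univ_sum_of_nonneg hf

/-- positive definiteness and Hölder's inequality -/
theorem moment {S : Finset (DirichletCharacter ℂ q)} (hS : S.Nonempty) {ι : Type*} (I : Finset ι) (a : ι → ℝ)
    (u : ι → (ZMod q)ˣ) (c : (ZMod q)ˣ) {n : ℕ} (hn : 1 ≤ n) :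
    (∑ i ∈ I, a i * Fw S (u i * c)) ^ (2 * n) ≤
      (∑ χ : DirichletCharacter ℂ q, ‖∑ i ∈ I, ((a i : ℝ) : ℂ) * χ (u i : ZMod q)‖ ^ (2 * n)) / S.card := by
  set A : DirichletCharacter ℂ q → ℝ :=
    fun χ => ‖∑ i ∈ I, ((a i : ℝ) : ℂ) * χ (u i : ZMod q)‖ with hA
  have hA0 : ∀ χ, 0 ≤ A χ := fun χ => norm_nonneg _
  have hc : (0 : ℝ) < S.card := by exact_mod_cast hS.card_pos
  have h1 : |∑ i ∈ I, a i * Fw S (u i * c)| ≤ ∑ x ∈ S ×ˢ S, ((S.card : ℝ) ^ 2)⁻¹ * A (x.1 * x.2⁻¹) := by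
    have e1 : |∑ i ∈ I, a i * Fw S (u i * c)| = ‖(((∑ i ∈ I, a i * Fw S (u i * c)) : ℝ) : ℂ)‖ := by
      rw [Complex.norm_real, Real.norm_eq_abs]
    rw [e1, A2_sum, norm_mul, Complex.norm_real, Real.norm_eq_abs,
      abs_of_nonneg (by positivity : (0 : ℝ) ≤ ((S.card : ℝ) ^ 2)⁻¹), ← mul_sum]
    refine mul_le_mul_of_nonneg_left ?_ (by positivity)
    refine (norm_sum_le _ _).trans (sum_le_sum fun x _ => ?_)
    rw [norm_mul]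
    exact mul_le_of_le_one_left (norm_nonneg _) (DirichletCharacter.norm_le_one _ _)
  have h2 : (∑ x ∈ S ×ˢ S, ((S.card : ℝ) ^ 2)⁻¹ * A (x.1 * x.2⁻¹)) ^ (2 * n) ≤
      ∑ x ∈ S ×ˢ S, ((S.card : ℝ) ^ 2)⁻¹ * A (x.1 * x.2⁻¹) ^ (2 * n) := by
    refine Real.pow_arith_mean_le_arith_mean_pow (S ×ˢ S) (fun _ => ((S.card : ℝ) ^ 2)⁻¹)
      (fun x => A (x.1 * x.2⁻¹)) (fun _ _ => by positivity) ?_ (fun _ _ => hA0 _) (2 * n)
    rw [sum_const, card_product, nsmul_eq_mul, Nat.cast_mul]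
    field_simp
  have h3 := A2_shift S (fun χ => A χ ^ (2 * n)) (fun χ => pow_nonneg (hA0 χ) _)
  have h4 : (∑ i ∈ I, a i * Fw S (u i * c)) ^ (2 * n) = |∑ i ∈ I, a i * Fw S (u i * c)| ^ (2 * n) := by
    rw [pow_mul, pow_mul, sq_abs]
  rw [h4]
  refine (pow_le_pow_left₀ (abs_nonneg _) h1 _).trans (h2.trans ?_)
  rw [← mul_sum]
  refine (mul_le_mul_of_nonneg_left h3 (by positivity)).trans (le_of_eq ?_)
  change ((S.card : ℝ) ^ 2)⁻¹ * (S.card * ∑ χ : DirichletCharacter ℂ q, A χ ^ (2 * n)) =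
    (∑ χ : DirichletCharacter ℂ q, A χ ^ (2 * n)) / S.card
  generalize (∑ χ : DirichletCharacter ℂ q, A χ ^ (2 * n)) = T
  field_simp

end Pool.Agent.H681.TS
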