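import Pool.Agent.H681.TS.A1

set_option autoImplicit false

namespace Pool.Agent.H681.TS

open Finset Pool.Agent.Q237.LV
open scoped Classical

variable {q : ℕ} [Fact q.Prime]

theorem A3_pow (I : Finset ℕ) (hI : ∀ n ∈ I, (n : ZMod q) ≠ 0) (a : ℕ → ℝ) (s : ℕ)
    (χ : DirichletCharacter ℂ q) :
    (∑ n ∈ I, ((a n : ℝ) : ℂ) * χ ((nu n : (ZMod q)ˣ) : ZMod q)) ^ s =
      ∑ κ : (ZMod q)ˣ, χ (κ : ZMod q) * ((∑ f ∈ (Fintype.piFinset fun _ : Fin s => I).filter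
        (fun f => ((∏ i, f i : ℕ) : ZMod q) = (κ : ZMod q)), ∏ i, a (f i) : ℝ) : ℂ) := by
  have h1 := prod_univ_sum (fun _ : Fin s => I)
    (fun _ n => ((a n : ℝ) : ℂ) * χ ((nu n : (ZMod q)ˣ) : ZMod q))
  rw [prod_const, card_univ, Fintype.card_fin] at h1
  rw [h1]
  have h2 : ∀ κ : (ZMod q)ˣ, χ (κ : ZMod q) *
      ((∑ f ∈ (Fintype.piFinset fun _ : Fin s => I).filter
        (fun f => ((∏ i, f i : ℕ) : ZMod q) = (κ : ZMod q)), ∏ i, a (f i) : ℝ) : ℂ) =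
      ∑ f ∈ (Fintype.piFinset fun _ : Fin s => I),
        if ((∏ i, f i : ℕ) : ZMod q) = (κ : ZMod q) then
          χ (κ : ZMod q) * ((∏ i, a (f i) : ℝ) : ℂ) else 0 := by
    intro κ
    rw [Complex.ofReal_sum, mul_sum, sum_filter]
  rw [sum_congr rfl fun κ _ => h2 κ, sum_comm]
  refine sum_congr rfl fun f hf => ?_
  rw [Fintype.mem_piFinset] at hf
  have h3 : ((∏ i, f i : ℕ) : ZMod q) = ((∏ i, nu (f i) : (ZMod q)ˣ) : ZMod q) := by
    rw [Nat.cast_prod, Units.coe_prod]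
    exact prod_congr rfl fun i _ => (nu_val (hI _ (hf i))).symm
  rw [sum_eq_single (∏ i, nu (f i) : (ZMod q)ˣ)]
  · rw [if_pos h3, Units.coe_prod, map_prod, Complex.ofReal_prod, ← prod_mul_distrib]
    exact prod_congr rfl fun i _ => mul_comm _ _
  · intro κ _ hκ
    rw [if_neg]
    intro h4
    exact hκ (Units.ext (h4.symm.trans h3))
  · intro h
    exact absurd (mem_univ _) h

/-- the high moments of a sum of characters -/
theorem pow_parseval (I : Finset ℕ) (hI : ∀ n ∈ I, (n : ZMod q) ≠ 0) (a : ℕ → ℝ) (s : ℕ) :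
    ∑ χ : DirichletCharacter ℂ q, ‖∑ n ∈ I, ((a n : ℝ) : ℂ) * χ ((nu n : (ZMod q)ˣ) : ZMod q)‖ ^ (2 * s) =
      (q.totient : ℝ) * ∑ κ : (ZMod q)ˣ, (∑ f ∈ (Fintype.piFinset fun _ : Fin s => I).filter
        (fun f => ((∏ i, f i : ℕ) : ZMod q) = (κ : ZMod q)), ∏ i, a (f i)) ^ 2 := by
  have h1 := parseval (q := q) univ (fun κ : (ZMod q)ˣ =>
    ((∑ f ∈ (Fintype.piFinset fun _ : Fin s => I).filter
        (fun f => ((∏ i, f i : ℕ) : ZMod q) = (κ : ZMod q)), ∏ i, a (f i) : ℝ) : ℂ))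
  have h2 : ∀ χ : DirichletCharacter ℂ q,
      ‖∑ n ∈ I, ((a n : ℝ) : ℂ) * χ ((nu n : (ZMod q)ˣ) : ZMod q)‖ ^ (2 * s) =
      ‖∑ κ : (ZMod q)ˣ, χ (κ : ZMod q) *
        ((∑ f ∈ (Fintype.piFinset fun _ : Fin s => I).filter
          (fun f => ((∏ i, f i : ℕ) : ZMod q) = (κ : ZMod q)), ∏ i, a (f i) : ℝ) : ℂ)‖ ^ 2 := by
    intro χ
    rw [← A3_pow I hI a s χ, norm_pow, ← pow_mul, mul_comm s 2]
  rw [sum_congr rfl fun χ _ => h2 χ, h1]
  congr 1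
  refine sum_congr rfl fun κ _ => ?_
  rw [Complex.norm_real, Real.norm_eq_abs, sq_abs]

end Pool.Agent.H681.TS
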