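import Pool.Agent.H681.TS.A2
import Pool.Agent.H681.TS.A3

set_option autoImplicit false

namespace Pool.Agent.H681.TS

open Finset Pool.Agent.Q237.LV
open scoped Classical

variable {q : ℕ} [Fact q.Prime]

/-- the fibres of the product -/
theorem A4_fib {T : Finset ℕ} {z y s w : ℕ} (hy : 2 ≤ y) (hs : 1 ≤ s)
    (h1 : ∀ u ∈ T, 1 ≤ u ∧ u ≤ z) (h2 : ∀ u ∈ T, ∀ p : ℕ, p.Prime → p ∣ u → y ≤ p)
    (hz : z ^ s ≤ q) (hw : q ≤ y ^ w) (κ : (ZMod q)ˣ) :
    ((Fintype.piFinset fun _ : Fin s => T).filter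
      (fun f => ((∏ i, f i : ℕ) : ZMod q) = (κ : ZMod q))).card ≤ s ^ w := by
  have hlt : ∀ f ∈ (Fintype.piFinset fun _ : Fin s => T).filter
      (fun f => ((∏ i, f i : ℕ) : ZMod q) = (κ : ZMod q)), ∏ i, f i < q := by
    intro f hf
    rw [mem_filter, Fintype.mem_piFinset] at hf
    have h4 : ∏ i, f i ≤ q := by
      calc ∏ i, f i ≤ ∏ _i : Fin s, z := prod_le_prod' fun i _ => (h1 _ (hf.1 i)).2
        _ = z ^ s := by rw [prod_const, card_univ, Fintype.card_fin]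
        _ ≤ q := hz
    refine lt_of_le_of_ne h4 ?_
    intro h5
    have h6 := hf.2
    rw [h5, ZMod.natCast_self] at h6
    exact κ.ne_zero h6.symm
  rcases ((Fintype.piFinset fun _ : Fin s => T).filter
      (fun f => ((∏ i, f i : ℕ) : ZMod q) = (κ : ZMod q))).eq_empty_or_nonempty with h0 | ⟨f0, hf0⟩
  · rw [h0, card_empty]
    exact Nat.zero_le _
  obtain ⟨m, hm⟩ : ∃ m : ℕ, m = ∏ i, f0 i := ⟨_, rfl⟩
  have hm1 : m < q := by
    rw [hm]
    exact hlt f0 hf0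
  have hf0' := hf0
  rw [mem_filter, Fintype.mem_piFinset] at hf0'
  have hm2 : m ≠ 0 := by
    rw [hm]
    refine prod_ne_zero_iff.2 fun i _ => ?_
    have := (h1 _ (hf0'.1 i)).1
    omega
  have hm3 : ∀ p : ℕ, p.Prime → p ∣ m → y ≤ p := by
    intro p hp hpd
    rw [hm] at hpd
    obtain ⟨i, -, hi⟩ := hp.prime.exists_mem_finset_dvd hpd
    exact h2 _ (hf0'.1 i) p hp hi
  have h4 : (Fintype.piFinset fun _ : Fin s => T).filter
      (fun f => ((∏ i, f i : ℕ) : ZMod q) = (κ : ZMod q)) ⊆ Nat.finMulAntidiag s m := by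
    intro f hf
    have hl := hlt f hf
    rw [mem_filter] at hf
    rw [Nat.mem_finMulAntidiag]
    refine ⟨?_, hm2⟩
    have h5 : ((∏ i, f i : ℕ) : ZMod q) = ((m : ℕ) : ZMod q) := by
      rw [hf.2, hm]
      exact hf0'.2.symm
    have h6 := (ZMod.natCast_eq_natCast_iff' _ _ q).1 h5
    rwa [Nat.mod_eq_of_lt hl, Nat.mod_eq_of_lt hm1] at h6
  refine (card_le_card h4).trans ((card_fact_le s m hm2).trans ?_)
  refine Nat.pow_le_pow_right (by omega) ?_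
  have h5 := pow_cardFactors_le hm2 hm3
  have h6 : y ^ (ArithmeticFunction.cardFactors m) < y ^ w :=
    lt_of_le_of_lt h5 (lt_of_lt_of_le hm1 hw)
  exact ((Nat.pow_lt_pow_iff_right (by omega)).1 h6).le

/-- the sum of the fibres -/
theorem A4_sum (T : Finset ℕ) (s : ℕ) :
    ∑ κ : (ZMod q)ˣ, ((Fintype.piFinset fun _ : Fin s => T).filter
      (fun f => ((∏ i, f i : ℕ) : ZMod q) = (κ : ZMod q))).card ≤ T.card ^ s := by
  have h1 : T.card ^ s = ∑ f ∈ (Fintype.piFinset fun _ : Fin s => T), 1 := by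
    rw [sum_const, smul_eq_mul, mul_one, Fintype.card_piFinset, prod_const, card_univ,
      Fintype.card_fin]
  rw [h1]
  have h2 : ∀ κ : (ZMod q)ˣ, ((Fintype.piFinset fun _ : Fin s => T).filter
      (fun f => ((∏ i, f i : ℕ) : ZMod q) = (κ : ZMod q))).card =
      ∑ f ∈ (Fintype.piFinset fun _ : Fin s => T),
        if ((∏ i, f i : ℕ) : ZMod q) = (κ : ZMod q) then 1 else 0 := fun κ => card_filter _ _
  rw [sum_congr rfl fun κ _ => h2 κ, sum_comm]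
  refine sum_le_sum fun f _ => ?_
  rw [← card_filter, card_le_one]
  intro κ hκ κ' hκ'
  rw [mem_filter] at hκ hκ'
  exact Units.ext (hκ.2.symm.trans hκ'.2)

/-- the counting hypothesis holds for sets of at least `q ^ (2 ε)` characters -/
theorem cntF_of {S : Finset (DirichletCharacter ℂ q)} {ε : ℝ} (hε : 0 < ε) (hε4 : ε ≤ 1 / 4)
    (hS : (q : ℝ) ^ (2 * ε) ≤ S.card) {y w Z : ℕ} (hy : 2 ≤ y)
    (hw : q ≤ y ^ w) (hlog : ((Nat.log 2 q : ℕ) : ℝ) ^ w ≤ (q : ℝ) ^ (ε / 8)) (hZ2 : 2 ≤ Z)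
    (hZ : (Z : ℝ) ≤ (q : ℝ) ^ (ε / 8)) :
    CntF (Fw S) y Z (1 - ε / 2) := by
  intro c S' h1 h2 z hz
  have hq : 1 < q := (Fact.out : q.Prime).one_lt
  have hq1 : (1 : ℝ) < q := by exact_mod_cast hq
  have hq0 : (0 : ℝ) < q := by linarith
  have hSpos : (0 : ℝ) < S.card := lt_of_lt_of_le (Real.rpow_pos_of_pos hq0 _) hS
  have hSne : S.Nonempty := by
    rw [← card_pos]
    exact_mod_cast hSpos
  obtain ⟨z', hz'⟩ : ∃ z' : ℕ, z' = min z Z := ⟨_, rfl⟩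
  have hz2 : 2 ≤ z' := by rw [hz']; exact le_min hz hZ2
  have hzZ : z' ≤ Z := by rw [hz']; exact min_le_right _ _
  have hzz : z' ≤ z := by rw [hz']; exact min_le_left _ _
  have hsub : S'.filter (fun u => u ≤ z) ⊆ S'.filter (fun u => u ≤ z') := by
    intro u hu
    rw [mem_filter] at hu ⊢
    refine ⟨hu.1, ?_⟩
    rw [hz']
    exact le_min hu.2 (h1 u hu.1).2
  obtain ⟨T, hT⟩ : ∃ T : Finset ℕ, T = S'.filter (fun u => u ≤ z') := ⟨_, rfl⟩
  obtain ⟨s, hs⟩ : ∃ s : ℕ, s = Nat.log z' q := ⟨_, rfl⟩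
  have z0 : (0 : ℝ) < z' := by
    have : 0 < z' := by omega
    exact_mod_cast this
  have z1 : (1 : ℝ) < z' := by
    have : 1 < z' := by omega
    exact_mod_cast this
  have hpow1 : z' ^ s ≤ q := by
    rw [hs]
    exact Nat.pow_log_le_self z' (by omega)
  have hpow2 : q < z' ^ (s + 1) := by
    rw [hs]
    exact Nat.lt_pow_succ_log_self (by omega) q
  have hzr : (z' : ℝ) ≤ (q : ℝ) ^ (ε / 8) := le_trans (by exact_mod_cast hzZ) hZ
  have hzq : z' < q := by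
    have h4 : (q : ℝ) ^ (ε / 8) < (q : ℝ) ^ (1 : ℝ) :=
      Real.rpow_lt_rpow_of_exponent_lt hq1 (by linarith)
    rw [Real.rpow_one] at h4
    exact_mod_cast lt_of_le_of_lt hzr h4
  have hs1 : 8 / ε < s + 1 := by
    have h4 : (q : ℝ) < (z' : ℝ) ^ (s + 1) := by exact_mod_cast hpow2
    have h5 : (z' : ℝ) ^ (s + 1) ≤ ((q : ℝ) ^ (ε / 8)) ^ (s + 1) :=
      pow_le_pow_left₀ z0.le hzr _
    have h6 : ((q : ℝ) ^ (ε / 8)) ^ (s + 1) = (q : ℝ) ^ (ε / 8 * (s + 1)) := by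
      rw [← Real.rpow_natCast, ← Real.rpow_mul hq0.le]
      push_cast
      rfl
    have h7 : (q : ℝ) ^ (1 : ℝ) < (q : ℝ) ^ (ε / 8 * (s + 1)) := by
      rw [Real.rpow_one]
      linarith
    have h8 : 1 < ε / 8 * (s + 1) := (Real.rpow_lt_rpow_left_iff hq1).1 h7
    rw [div_lt_iff₀ hε]
    linarith
  have hs2 : 8 / (3 * ε) ≤ s := by
    have h4 : 8 / (3 * ε) ≤ 8 / ε - 1 := by
      rw [div_le_iff₀ (by positivity)]
      have : 8 / ε * (3 * ε) = 24 := by field_simp; norm_num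
      nlinarith
    linarith
  have hs0 : 1 ≤ s := by
    have h4 : (0 : ℝ) < s := lt_of_lt_of_le (by positivity) hs2
    exact_mod_cast h4
  have hT1 : ∀ u ∈ T, 1 ≤ u ∧ u ≤ z' := by
    intro u hu
    rw [hT, mem_filter] at hu
    exact ⟨(h1 u hu.1).1, hu.2⟩
  have hT2 : ∀ u ∈ T, ∀ p : ℕ, p.Prime → p ∣ u → y ≤ p := by
    intro u hu
    rw [hT, mem_filter] at hu
    exact h2 u hu.1
  have hT3 : ∀ u ∈ T, (u : ZMod q) ≠ 0 := fun u hu =>
    nu_ne (hT1 u hu).1 (lt_of_le_of_lt (hT1 u hu).2 hzq)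
  have hTc : T.card ≤ z' := by
    have h4 : T ⊆ Icc 1 z' := fun u hu => mem_Icc.2 (hT1 u hu)
    refine (card_le_card h4).trans ?_
    rw [Nat.card_Icc]
    omega
  have hsl : s ≤ Nat.log 2 q := by
    rw [hs]
    exact Nat.log_anti_left (by norm_num) hz2
  have hsw : (s : ℝ) ^ w ≤ (q : ℝ) ^ (ε / 8) := by
    refine le_trans ?_ hlog
    exact pow_le_pow_left₀ (by positivity) (by exact_mod_cast hsl) _
  -- the moments
  have hmom := moment hSne T (fun _ => (1 : ℝ)) (fun n => nu n) c hs0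
  rw [pow_parseval T hT3 (fun _ => (1 : ℝ)) s] at hmom
  simp only [one_mul, prod_const_one, sum_const, nsmul_eq_mul, mul_one] at hmom
  have hB : ∑ κ : (ZMod q)ˣ, ((((Fintype.piFinset fun _ : Fin s => T).filter
      (fun f => ((∏ i, f i : ℕ) : ZMod q) = (κ : ZMod q))).card : ℕ) : ℝ) ^ 2 ≤
      (s : ℝ) ^ w * (z' : ℝ) ^ s := by
    calc ∑ κ : (ZMod q)ˣ, ((((Fintype.piFinset fun _ : Fin s => T).filter
          (fun f => ((∏ i, f i : ℕ) : ZMod q) = (κ : ZMod q))).card : ℕ) : ℝ) ^ 2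
        ≤ ∑ κ : (ZMod q)ˣ, (s : ℝ) ^ w * ((((Fintype.piFinset fun _ : Fin s => T).filter
          (fun f => ((∏ i, f i : ℕ) : ZMod q) = (κ : ZMod q))).card : ℕ) : ℝ) := by
          refine sum_le_sum fun κ _ => ?_
          rw [pow_two]
          refine mul_le_mul_of_nonneg_right ?_ (Nat.cast_nonneg _)
          exact_mod_cast A4_fib hy hs0 hT1 hT2 hpow1 hw κ
      _ = (s : ℝ) ^ w * ((∑ κ : (ZMod q)ˣ, ((Fintype.piFinset fun _ : Fin s => T).filter
          (fun f => ((∏ i, f i : ℕ) : ZMod q) = (κ : ZMod q))).card : ℕ) : ℝ) := by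
          rw [← mul_sum, Nat.cast_sum]
      _ ≤ (s : ℝ) ^ w * (z' : ℝ) ^ s := by
          refine mul_le_mul_of_nonneg_left ?_ (by positivity)
          have h4 := (A4_sum (q := q) T s).trans (Nat.pow_le_pow_left hTc s)
          exact_mod_cast h4
  have htot : ((q.totient : ℕ) : ℝ) ≤ q := by exact_mod_cast Nat.totient_le q
  have hmain : (∑ i ∈ T, Fw S (nu i * c)) ^ (2 * s) ≤
      (q : ℝ) ^ (1 - 15 * ε / 8) * (z' : ℝ) ^ s := by
    refine hmom.trans ?_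
    rw [div_le_iff₀ hSpos]
    calc ((q.totient : ℕ) : ℝ) * ∑ κ : (ZMod q)ˣ, ((((Fintype.piFinset fun _ : Fin s => T).filter
          (fun f => ((∏ i, f i : ℕ) : ZMod q) = (κ : ZMod q))).card : ℕ) : ℝ) ^ 2
        ≤ (q : ℝ) * ((s : ℝ) ^ w * (z' : ℝ) ^ s) :=
          mul_le_mul htot hB (sum_nonneg fun _ _ => sq_nonneg _) hq0.le
      _ ≤ (q : ℝ) * ((q : ℝ) ^ (ε / 8) * (z' : ℝ) ^ s) := by gcongr
      _ = ((q : ℝ) ^ (1 - 15 * ε / 8) * (z' : ℝ) ^ s) * (q : ℝ) ^ (2 * ε) := by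
          have h4 : (q : ℝ) * (q : ℝ) ^ (ε / 8) =
              (q : ℝ) ^ (1 - 15 * ε / 8) * (q : ℝ) ^ (2 * ε) := by
            rw [← Real.rpow_add hq0]
            nth_rewrite 1 [← Real.rpow_one (q : ℝ)]
            rw [← Real.rpow_add hq0]
            congr 1
            ring
          calc (q : ℝ) * ((q : ℝ) ^ (ε / 8) * (z' : ℝ) ^ s) =
              ((q : ℝ) * (q : ℝ) ^ (ε / 8)) * (z' : ℝ) ^ s := by ring
            _ = _ := by rw [h4]; ring
      _ ≤ ((q : ℝ) ^ (1 - 15 * ε / 8) * (z' : ℝ) ^ s) * S.card := by gcongr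
  have hfin : (q : ℝ) ^ (1 - 15 * ε / 8) * (z' : ℝ) ^ s ≤
      ((z' : ℝ) ^ (1 - ε / 2)) ^ (2 * s) := by
    have h6 : (q : ℝ) ≤ (z' : ℝ) ^ ((s : ℝ) + 1) := by
      have h7 : (q : ℝ) ≤ (z' : ℝ) ^ (s + 1) := by exact_mod_cast hpow2.le
      rw [← Real.rpow_natCast] at h7
      push_cast at h7
      exact h7
    calc (q : ℝ) ^ (1 - 15 * ε / 8) * (z' : ℝ) ^ s
        ≤ ((z' : ℝ) ^ ((s : ℝ) + 1)) ^ (1 - 15 * ε / 8) * (z' : ℝ) ^ s :=
          mul_le_mul_of_nonneg_right (Real.rpow_le_rpow hq0.le h6 (by linarith)) (by positivity)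
      _ = (z' : ℝ) ^ (((s : ℝ) + 1) * (1 - 15 * ε / 8) + s) := by
          rw [← Real.rpow_mul z0.le, ← Real.rpow_natCast, ← Real.rpow_add z0]
      _ ≤ (z' : ℝ) ^ ((1 - ε / 2) * ((2 * s : ℕ) : ℝ)) := by
          refine Real.rpow_le_rpow_of_exponent_le z1.le ?_
          have h7 : 1 ≤ s * (3 * ε / 8) := by
            rw [div_le_iff₀ (by positivity)] at hs2
            linarith
          push_cast
          nlinarith
      _ = ((z' : ℝ) ^ (1 - ε / 2)) ^ (2 * s) := by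
          rw [← Real.rpow_natCast, ← Real.rpow_mul z0.le]
  have h6 : ∑ i ∈ T, Fw S (nu i * c) ≤ (z' : ℝ) ^ (1 - ε / 2) :=
    le_of_pow_le_pow_left₀ (by omega) (by positivity) (hmain.trans hfin)
  calc ∑ u ∈ S'.filter (fun u => u ≤ z), Fw S (nu u * c)
      ≤ ∑ u ∈ T, Fw S (nu u * c) := by
        rw [hT]
        exact sum_le_sum_of_subset_of_nonneg hsub fun _ _ _ => Fw_nonneg S _
    _ ≤ (z' : ℝ) ^ (1 - ε / 2) := h6
    _ ≤ (z : ℝ) ^ (1 - ε / 2) := by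
        refine Real.rpow_le_rpow z0.le ?_ (by linarith)
        exact_mod_cast hzz

end Pool.Agent.H681.TS
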