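import Pool.Agent.H681.TS.A2
import Pool.Agent.H681.TS.A3

set_option autoImplicit false

namespace Pool.Agent.H681.TS

open Finset Pool.Agent.Q237.LV
open scoped Classical

variable {q : ℕ} [Fact q.Prime]

/-- the sum of the inverses over one residue class -/
theorem A5_class {s : ℕ} (hs : 1 ≤ s) (r : ZMod q) :
    ∑ m ∈ (Icc q (q ^ s)).filter (fun m : ℕ => (m : ZMod q) = r), (1 : ℝ) / m ≤
      (1 / q) * (1 + s * Real.log q) := by
  have hq0 : 0 < q := (Fact.out : q.Prime).pos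
  have hq0' : (0 : ℝ) < q := by exact_mod_cast hq0
  obtain ⟨T, hT⟩ : ∃ T : Finset ℕ, T = (Icc q (q ^ s)).filter (fun m : ℕ => (m : ZMod q) = r) :=
    ⟨_, rfl⟩
  rw [← hT]
  have h4 : ∀ m ∈ T, (1 : ℝ) / m ≤ 1 / (q * ((m / q : ℕ) : ℝ)) := by
    intro m hm
    rw [hT, mem_filter, mem_Icc] at hm
    have h5 : 1 ≤ m / q := (Nat.one_le_div_iff hq0).2 hm.1.1
    have h6 : q * (m / q) ≤ m := Nat.mul_div_le m q
    have h7 : (1 : ℝ) ≤ ((m / q : ℕ) : ℝ) := by exact_mod_cast h5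
    have h8 : (q : ℝ) * ((m / q : ℕ) : ℝ) ≤ m := by exact_mod_cast h6
    exact one_div_le_one_div_of_le (by positivity) h8
  have h5 : ∑ m ∈ T, (1 : ℝ) / (q * ((m / q : ℕ) : ℝ)) ≤
      ∑ x ∈ Icc 1 (q ^ (s - 1)), (1 : ℝ) / (q * (x : ℝ)) := by
    have h6 : ∑ m ∈ T, (1 : ℝ) / (q * ((m / q : ℕ) : ℝ)) =
        ∑ x ∈ T.image (fun m : ℕ => m / q), (1 : ℝ) / (q * (x : ℝ)) := by
      rw [sum_image]
      intro m hm m' hm' h
      rw [mem_coe, hT, mem_filter] at hm hm'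
      have h4 : m % q = m' % q := (ZMod.natCast_eq_natCast_iff' m m' q).1 (hm.2.trans hm'.2.symm)
      have h' : m / q = m' / q := h
      rw [← Nat.div_add_mod m q, ← Nat.div_add_mod m' q, h4, h']
    rw [h6]
    refine sum_le_sum_of_subset_of_nonneg ?_ fun x _ _ => by positivity
    intro x hx
    rw [mem_image] at hx
    obtain ⟨m, hm, rfl⟩ := hx
    rw [hT, mem_filter, mem_Icc] at hm
    rw [mem_Icc]
    refine ⟨(Nat.one_le_div_iff hq0).2 hm.1.1, ?_⟩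
    have h7 : q ^ s = q ^ (s - 1) * q := by
      rw [← pow_succ]
      congr 1
      omega
    calc m / q ≤ q ^ s / q := Nat.div_le_div_right hm.1.2
      _ = q ^ (s - 1) := by rw [h7, Nat.mul_div_cancel _ hq0]
  have h6 : ∑ x ∈ Icc 1 (q ^ (s - 1)), (1 : ℝ) / (q * (x : ℝ)) =
      (1 / q) * ∑ j ∈ Icc 1 (q ^ (s - 1)), ((j : ℝ))⁻¹ := by
    rw [mul_sum]
    refine sum_congr rfl fun j _ => ?_
    rw [one_div, mul_inv, one_div]
  have h7 : ∑ j ∈ Icc 1 (q ^ (s - 1)), ((j : ℝ))⁻¹ ≤ 1 + s * Real.log q := by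
    have h8 := harmonic_le_one_add_log (q ^ (s - 1))
    have h9 : ((harmonic (q ^ (s - 1)) : ℚ) : ℝ) = ∑ j ∈ Icc 1 (q ^ (s - 1)), ((j : ℝ))⁻¹ := by
      rw [harmonic_eq_sum_Icc]
      push_cast
      rfl
    rw [h9] at h8
    refine h8.trans ?_
    push_cast
    rw [Real.log_pow]
    have h10 : ((s - 1 : ℕ) : ℝ) ≤ s := by exact_mod_cast Nat.sub_le s 1
    have h11 : 0 ≤ Real.log q := Real.log_natCast_nonneg q
    nlinarith
  calc ∑ m ∈ T, (1 : ℝ) / m ≤ ∑ m ∈ T, (1 : ℝ) / (q * ((m / q : ℕ) : ℝ)) := sum_le_sum h4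
    _ ≤ _ := h5
    _ = _ := h6
    _ ≤ (1 / q) * (1 + s * Real.log q) := mul_le_mul_of_nonneg_left h7 (by positivity)

/-- the coefficient of one class -/
theorem A5_coef (T : Finset ℕ) {Δ s D : ℕ} (hs : 1 ≤ s)
    (h1 : ∀ a ∈ T, Δ ≤ a ∧ a < q) (hΔ : q ≤ Δ ^ s)
    (hD : ∀ m : ℕ, 1 ≤ m → m ≤ q ^ s → m.divisors.card ≤ D) (r : ZMod q) :
    ∑ f ∈ (Fintype.piFinset fun _ : Fin s => T).filter
        (fun f => ((∏ i, f i : ℕ) : ZMod q) = r), ∏ i, (1 / ((f i : ℕ) : ℝ)) ≤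
      (D : ℝ) ^ s * ((1 / q) * (1 + s * Real.log q)) := by
  have hq0 : 0 < q := (Fact.out : q.Prime).pos
  obtain ⟨I, hI⟩ : ∃ I : Finset ℕ, I = (Icc q (q ^ s)).filter (fun m : ℕ => (m : ZMod q) = r) :=
    ⟨_, rfl⟩
  obtain ⟨G, hG⟩ : ∃ G : Finset (Fin s → ℕ), G = (Fintype.piFinset fun _ : Fin s => T).filter
        (fun f => ((∏ i, f i : ℕ) : ZMod q) = r) := ⟨_, rfl⟩
  rw [← hG]
  have hmem : ∀ f ∈ G, ∏ i, f i ∈ I := by
    intro f hf
    rw [hG, mem_filter, Fintype.mem_piFinset] at hf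
    rw [hI, mem_filter, mem_Icc]
    refine ⟨⟨?_, ?_⟩, hf.2⟩
    · calc q ≤ Δ ^ s := hΔ
        _ = ∏ _i : Fin s, Δ := by rw [prod_const, card_univ, Fintype.card_fin]
        _ ≤ ∏ i, f i := prod_le_prod' fun i _ => (h1 _ (hf.1 i)).1
    · calc ∏ i, f i ≤ ∏ _i : Fin s, q := prod_le_prod' fun i _ => (h1 _ (hf.1 i)).2.le
        _ = q ^ s := by rw [prod_const, card_univ, Fintype.card_fin]
  have hfib : ∀ m ∈ I, (G.filter fun f => ∏ i, f i = m).card ≤ D ^ s := by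
    intro m hm
    rw [hI, mem_filter, mem_Icc] at hm
    have h2 : (G.filter fun f => ∏ i, f i = m) ⊆ Fintype.piFinset fun _ : Fin s => m.divisors := by
      intro f hf
      rw [mem_filter] at hf
      rw [Fintype.mem_piFinset]
      intro i
      rw [Nat.mem_divisors]
      refine ⟨?_, by omega⟩
      rw [← hf.2]
      exact dvd_prod_of_mem f (mem_univ i)
    refine (card_le_card h2).trans ?_
    rw [Fintype.card_piFinset, prod_const, card_univ, Fintype.card_fin]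
    exact Nat.pow_le_pow_left (hD m (by omega) hm.1.2) s
  have e0 : ∑ f ∈ G, ∏ i, (1 / ((f i : ℕ) : ℝ)) = ∑ f ∈ G, (1 : ℝ) / ((∏ i, f i : ℕ) : ℝ) := by
    refine sum_congr rfl fun f _ => ?_
    push_cast
    rw [prod_div_distrib, prod_const_one]
  have e2 : ∑ f ∈ G, (1 : ℝ) / ((∏ i, f i : ℕ) : ℝ) ≤ (D : ℝ) ^ s * ∑ m ∈ I, (1 : ℝ) / m := by
    rw [← sum_fiberwise_of_maps_to hmem, mul_sum]
    refine sum_le_sum fun m hm => ?_
    have h4 : ∀ f ∈ G.filter (fun f => ∏ i, f i = m),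
        (1 : ℝ) / ((∏ i, f i : ℕ) : ℝ) = 1 / m := by
      intro f hf
      rw [(mem_filter.1 hf).2]
    rw [sum_congr rfl h4, sum_const, nsmul_eq_mul]
    have h5 : (((G.filter fun f => ∏ i, f i = m).card : ℕ) : ℝ) ≤ (D : ℝ) ^ s := by
      exact_mod_cast hfib m hm
    exact mul_le_mul_of_nonneg_right h5 (by positivity)
  rw [e0]
  refine e2.trans (mul_le_mul_of_nonneg_left ?_ (by positivity))
  rw [hI]
  exact A5_class hs r

/-- the weighted sum of the inverses of the large integers -/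
theorem sum_largeF {S : Finset (DirichletCharacter ℂ q)} (hS : S.Nonempty) (c : (ZMod q)ˣ) (T : Finset ℕ)
    {Δ s D : ℕ} (hs : 1 ≤ s) (hΔ0 : 1 ≤ Δ) (h1 : ∀ a ∈ T, Δ ≤ a ∧ a < q) (hΔ : q ≤ Δ ^ s)
    (hD : ∀ m : ℕ, 1 ≤ m → m ≤ q ^ s → m.divisors.card ≤ D) :
    (∑ a ∈ T, (1 / (a : ℝ)) * Fw S (nu a * c)) ^ (2 * s) ≤
      ((D : ℝ) ^ s * (1 + s * Real.log q)) ^ 2 / S.card := by
  have hq0 : 0 < q := (Fact.out : q.Prime).pos
  have hq0' : (0 : ℝ) < q := by exact_mod_cast hq0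
  have hlog : 0 ≤ Real.log q := Real.log_natCast_nonneg q
  have hT : ∀ a ∈ T, (a : ZMod q) ≠ 0 := fun a ha =>
    nu_ne (hΔ0.trans (h1 a ha).1) (h1 a ha).2
  have m1 := moment hS T (fun a : ℕ => 1 / (a : ℝ)) (fun a => nu a) c hs
  have m2 := pow_parseval T hT (fun a : ℕ => 1 / (a : ℝ)) s
  refine m1.trans (div_le_div_of_nonneg_right ?_ (Nat.cast_nonneg _))
  rw [m2]
  obtain ⟨X, hX⟩ : ∃ X : ℝ, X = (D : ℝ) ^ s * (1 + s * Real.log q) := ⟨_, rfl⟩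
  rw [← hX]
  have hX0 : 0 ≤ X := by rw [hX]; positivity
  have hκ : ∀ κ : (ZMod q)ˣ, (∑ f ∈ (Fintype.piFinset fun _ : Fin s => T).filter
        (fun f => ((∏ i, f i : ℕ) : ZMod q) = (κ : ZMod q)), ∏ i, (1 / ((f i : ℕ) : ℝ))) ^ 2 ≤
      (X / q) ^ 2 := by
    intro κ
    refine pow_le_pow_left₀ (sum_nonneg fun f _ => prod_nonneg fun i _ => by positivity) ?_ 2
    refine (A5_coef T hs h1 hΔ hD (κ : ZMod q)).trans (le_of_eq ?_)
    rw [hX]
    ring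
  have hsum := sum_le_sum (fun (κ : (ZMod q)ˣ) (_ : κ ∈ univ) => hκ κ)
  rw [sum_const, card_univ, nsmul_eq_mul, ZMod.card_units_eq_totient] at hsum
  have htot : (q.totient : ℝ) ≤ q := by exact_mod_cast Nat.totient_le q
  have htot0 : (0 : ℝ) ≤ q.totient := Nat.cast_nonneg _
  refine (mul_le_mul_of_nonneg_left hsum htot0).trans ?_
  have e1 : (q.totient : ℝ) * (q.totient * (X / q) ^ 2) = ((q.totient : ℝ) / q) ^ 2 * X ^ 2 := by
    rw [div_pow, div_pow]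
    ring
  rw [e1]
  have h2 : ((q.totient : ℝ) / q) ^ 2 ≤ 1 :=
    pow_le_one₀ (by positivity) ((div_le_one hq0').2 htot)
  calc ((q.totient : ℝ) / q) ^ 2 * X ^ 2 ≤ 1 * X ^ 2 :=
        mul_le_mul_of_nonneg_right h2 (by positivity)
    _ = X ^ 2 := one_mul _

end Pool.Agent.H681.TS
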