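import Pool.Agent.H681.TS.A1

set_option autoImplicit false

namespace Pool.Agent.H681.TS

open Finset Pool.Agent.Q237.LV
open scoped Classical

/-- weighted sums over sets with small counting function -/
theorem A6_sum_sparse {θ α : ℝ} (hθ : θ < α) (h0 : 0 ≤ α) (g : ℕ → ℝ) (S : Finset ℕ)
    (hg : ∀ u ∈ S, 0 ≤ g u) (hS : ∀ u ∈ S, 1 ≤ u)
    (hc : ∀ j : ℕ, ∑ u ∈ S.filter (fun u => u ≤ 2 ^ (j + 1)), g u ≤ ((2 : ℝ) ^ (j + 1)) ^ θ) :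
    ∑ u ∈ S, g u * (u : ℝ) ^ (-α) ≤ 2 ^ θ / (1 - 2 ^ (θ - α)) := by
  obtain ⟨J, hJ⟩ : ∃ J : ℕ, ∀ u ∈ S, Nat.log 2 u < J := by
    refine ⟨S.sup (fun u => Nat.log 2 u) + 1, fun u hu => Nat.lt_succ_of_le ?_⟩
    exact le_sup (f := fun u => Nat.log 2 u) hu
  have hmaps : ∀ u ∈ S, Nat.log 2 u ∈ range J := fun u hu => mem_range.2 (hJ u hu)
  rw [← sum_fiberwise_of_maps_to hmaps]
  have h1 : ∀ j ∈ range J, ∑ u ∈ S.filter (fun u => Nat.log 2 u = j), g u * (u : ℝ) ^ (-α) ≤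
      2 ^ θ * ((2 : ℝ) ^ (θ - α)) ^ j := by
    intro j _
    have h2 : ∀ u ∈ S.filter (fun u => Nat.log 2 u = j),
        g u * (u : ℝ) ^ (-α) ≤ g u * ((2 : ℝ) ^ j) ^ (-α) := by
      intro u hu
      rw [mem_filter] at hu
      have h3 : 2 ^ j ≤ u := by
        rw [← hu.2]
        exact Nat.pow_log_le_self 2 (by have := hS u hu.1; omega)
      have h4 : ((2 : ℝ) ^ j) ≤ u := by exact_mod_cast h3
      exact mul_le_mul_of_nonneg_left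
        (Real.rpow_le_rpow_of_nonpos (by positivity) h4 (by linarith)) (hg u hu.1)
    refine (sum_le_sum h2).trans ?_
    rw [← sum_mul]
    have h3 : ∑ u ∈ S.filter (fun u => Nat.log 2 u = j), g u ≤ ((2 : ℝ) ^ (j + 1)) ^ θ := by
      refine le_trans ?_ (hc j)
      refine sum_le_sum_of_subset_of_nonneg ?_ ?_
      · intro u hu
        rw [mem_filter] at hu ⊢
        refine ⟨hu.1, ?_⟩
        rw [← hu.2]
        exact (Nat.lt_pow_succ_log_self (by norm_num) u).le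
      · intro u hu _
        rw [mem_filter] at hu
        exact hg u hu.1
    have h4 : ((2 : ℝ) ^ (j + 1)) ^ θ * ((2 : ℝ) ^ j) ^ (-α) = 2 ^ θ * ((2 : ℝ) ^ (θ - α)) ^ j := by
      rw [← Real.rpow_natCast 2 (j + 1), ← Real.rpow_natCast 2 j, ← Real.rpow_mul (by norm_num),
        ← Real.rpow_mul (by norm_num), ← Real.rpow_natCast (2 ^ (θ - α)) j,
        ← Real.rpow_mul (by norm_num), ← Real.rpow_add (by norm_num), ← Real.rpow_add (by norm_num)]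
      congr 1
      push_cast
      ring
    rw [← h4]
    exact mul_le_mul_of_nonneg_right h3 (by positivity)
  refine (sum_le_sum h1).trans ?_
  rw [← mul_sum]
  have hr : (2 : ℝ) ^ (θ - α) < 1 := Real.rpow_lt_one_of_one_lt_of_neg (by norm_num) (by linarith)
  have hr0 : (0 : ℝ) < (2 : ℝ) ^ (θ - α) := by positivity
  have h5 : ∑ j ∈ range J, ((2 : ℝ) ^ (θ - α)) ^ j ≤ (1 - 2 ^ (θ - α))⁻¹ := by
    rw [← tsum_geometric_of_lt_one hr0.le hr]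
    exact (summable_geometric_of_lt_one hr0.le hr).sum_le_tsum _ fun _ _ => by positivity
  rw [div_eq_mul_inv]
  exact mul_le_mul_of_nonneg_left h5 (by positivity)

/-- the elementary inequality for one pair -/
theorem A6_key {ε : ℝ} (hε : 0 < ε) {y u v : ℕ} (hy : 0 < y) (h1 : y ≤ u) (h2 : 1 ≤ v)
    (h3 : v ≤ u) :
    (u : ℝ) ^ (-(1 - ε / 16)) * (v : ℝ) ^ (-(1 - ε / 16)) ≤
      (y : ℝ) ^ (-(ε / 16)) * ((u : ℝ) ^ (-(1 - ε / 4)) * (v : ℝ) ^ (-(1 + ε / 16))) := by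
  have hy0 : (0 : ℝ) < y := by exact_mod_cast hy
  have u0 : (0 : ℝ) < u := by
    have : 0 < u := by omega
    exact_mod_cast this
  have v0 : (0 : ℝ) < v := by
    have : 0 < v := by omega
    exact_mod_cast this
  have e1 : (u : ℝ) ^ (-(1 - ε / 16)) =
      (u : ℝ) ^ (-(1 - ε / 4)) * ((u : ℝ) ^ (-(ε / 8)) * (u : ℝ) ^ (-(ε / 16))) := by
    rw [← Real.rpow_add u0, ← Real.rpow_add u0]
    congr 1
    ring
  have e2 : (u : ℝ) ^ (-(ε / 8)) ≤ (v : ℝ) ^ (-(ε / 8)) :=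
    Real.rpow_le_rpow_of_nonpos v0 (by exact_mod_cast h3) (by linarith)
  have e3 : (u : ℝ) ^ (-(ε / 16)) ≤ (y : ℝ) ^ (-(ε / 16)) :=
    Real.rpow_le_rpow_of_nonpos hy0 (by exact_mod_cast h1) (by linarith)
  have e4 : (v : ℝ) ^ (-(1 + ε / 16)) = (v : ℝ) ^ (-(ε / 8)) * (v : ℝ) ^ (-(1 - ε / 16)) := by
    rw [← Real.rpow_add v0]
    congr 1
    ring
  rw [e1, e4]
  calc (u : ℝ) ^ (-(1 - ε / 4)) * ((u : ℝ) ^ (-(ε / 8)) * (u : ℝ) ^ (-(ε / 16))) *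
        (v : ℝ) ^ (-(1 - ε / 16))
      ≤ (u : ℝ) ^ (-(1 - ε / 4)) * ((v : ℝ) ^ (-(ε / 8)) * (y : ℝ) ^ (-(ε / 16))) *
        (v : ℝ) ^ (-(1 - ε / 16)) := by gcongr
    _ = _ := by ring

/-- the sum over the pairs with a fixed second entry -/
theorem A6_fibre {ε : ℝ} (hε : 0 < ε) (hε1 : ε ≤ 1) {q : ℕ} [Fact q.Prime] {F : (ZMod q)ˣ → ℝ}
    {y Z : ℕ} (hF : ∀ κ, 0 ≤ F κ) (hcnt : CntF F y Z (1 - ε / 2)) (v : ℕ) :
    ∑ x ∈ ((P2 y Z).filter (fun x => x.2 ≤ x.1)).filter (fun x => x.2 = v),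
      F (nu x.1 * (nu v)⁻¹) * (x.1 : ℝ) ^ (-(1 - ε / 4)) ≤
      2 ^ (1 - ε / 2) / (1 - 2 ^ ((1 - ε / 2) - (1 - ε / 4))) := by
  have h4 : ∑ x ∈ ((P2 y Z).filter (fun x => x.2 ≤ x.1)).filter (fun x => x.2 = v),
      F (nu x.1 * (nu v)⁻¹) * (x.1 : ℝ) ^ (-(1 - ε / 4)) =
        ∑ u ∈ (((P2 y Z).filter (fun x => x.2 ≤ x.1)).filter
      (fun x => x.2 = v)).image Prod.fst, F (nu u * (nu v)⁻¹) * (u : ℝ) ^ (-(1 - ε / 4)) := by
    rw [sum_image]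
    intro x hx x' hx' h
    rw [mem_coe, mem_filter] at hx hx'
    exact Prod.ext h (hx.2.trans hx'.2.symm)
  rw [h4]
  have hT1 : ∀ u ∈ (((P2 y Z).filter (fun x => x.2 ≤ x.1)).filter
      (fun x => x.2 = v)).image Prod.fst, 1 ≤ u ∧ u ≤ Z := by
    intro u hu
    rw [mem_image] at hu
    obtain ⟨x, hx, rfl⟩ := hu
    rw [mem_filter, mem_filter, mem_P2] at hx
    exact hx.1.1.1.1
  have hT2 : ∀ u ∈ (((P2 y Z).filter (fun x => x.2 ≤ x.1)).filter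
      (fun x => x.2 = v)).image Prod.fst, ∀ p : ℕ, p.Prime → p ∣ u → y ≤ p := by
    intro u hu
    rw [mem_image] at hu
    obtain ⟨x, hx, rfl⟩ := hu
    rw [mem_filter, mem_filter, mem_P2] at hx
    exact hx.1.1.2.2.1
  refine A6_sum_sparse (by linarith) (by linarith) (fun u => F (nu u * (nu v)⁻¹)) _
    (fun u _ => hF _) (fun u hu => (hT1 u hu).1) fun j => ?_
  have h5 := hcnt (nu v)⁻¹ _ hT1 hT2 (2 ^ (j + 1)) (by
    calc 2 = 2 ^ 1 := by norm_num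
      _ ≤ 2 ^ (j + 1) := Nat.pow_le_pow_right (by norm_num) (by omega))
  push_cast at h5
  exact h5

theorem pair_sumF (ε : ℝ) (hε : 0 < ε) (hε1 : ε ≤ 1) : ∃ C : ℝ, 0 < C ∧
    ∀ (q : ℕ) [Fact q.Prime] (F : (ZMod q)ˣ → ℝ) (y Z : ℕ), (∀ κ, 0 ≤ F κ) → (∀ κ, F κ⁻¹ = F κ) →
      2 ≤ y → Z < q → CntF F y Z (1 - ε / 2) →
      ∑ x ∈ P2 y Z, F (nu x.1 * (nu x.2)⁻¹) *
        ((x.1 : ℝ) ^ (-(1 - ε / 16)) * (x.2 : ℝ) ^ (-(1 - ε / 16))) ≤ C * (y : ℝ) ^ (-(ε / 16)) := by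
  obtain ⟨Cs, hCs⟩ : ∃ Cs : ℝ, Cs = 2 ^ (1 - ε / 2) / (1 - 2 ^ ((1 - ε / 2) - (1 - ε / 4))) :=
    ⟨_, rfl⟩
  have hCs0 : 0 < Cs := by
    rw [hCs]
    have hr : (2 : ℝ) ^ ((1 - ε / 2) - (1 - ε / 4)) < 1 :=
      Real.rpow_lt_one_of_one_lt_of_neg (by norm_num) (by linarith)
    exact div_pos (by positivity) (by linarith)
  have hsm : Summable (fun n : ℕ => (n : ℝ) ^ (-(1 + ε / 16))) :=
    Real.summable_nat_rpow.mpr (by linarith)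
  obtain ⟨C2, hC2⟩ : ∃ C2 : ℝ, C2 = ∑' n : ℕ, (n : ℝ) ^ (-(1 + ε / 16)) := ⟨_, rfl⟩
  have hC20 : 0 ≤ C2 := by
    rw [hC2]
    exact tsum_nonneg fun n => by positivity
  have hpart : ∀ T : Finset ℕ, ∑ n ∈ T, (n : ℝ) ^ (-(1 + ε / 16)) ≤ C2 := by
    intro T
    rw [hC2]
    exact hsm.sum_le_tsum T fun n _ => by positivity
  refine ⟨2 * (Cs * C2) + 1, by positivity, ?_⟩
  intro q _ F y Z hF hFinv hy hZq hcnt
  have hypos : 0 < y := by omega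
  obtain ⟨f, hf⟩ : ∃ f : ℕ × ℕ → ℝ, f = fun x => F (nu x.1 * (nu x.2)⁻¹) *
    ((x.1 : ℝ) ^ (-(1 - ε / 16)) * (x.2 : ℝ) ^ (-(1 - ε / 16))) := ⟨_, rfl⟩
  have hfnn : ∀ x, 0 ≤ f x := by
    intro x
    rw [hf]
    exact mul_nonneg (hF _) (by positivity)
  have hfsw : ∀ x : ℕ × ℕ, f x.swap = f x := by
    intro x
    rw [hf]
    simp only [Prod.fst_swap, Prod.snd_swap]
    rw [← hFinv (nu x.2 * (nu x.1)⁻¹), mul_inv_rev, inv_inv,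
      mul_comm ((x.2 : ℝ) ^ (-(1 - ε / 16)))]
  have hsplit : ∑ x ∈ P2 y Z, f x ≤
      ∑ x ∈ (P2 y Z).filter (fun x => x.2 ≤ x.1), f x +
      ∑ x ∈ (P2 y Z).filter (fun x => x.1 ≤ x.2), f x := by
    rw [← sum_filter_add_sum_filter_not (P2 y Z) (fun x => x.2 ≤ x.1)]
    refine add_le_add le_rfl ?_
    refine sum_le_sum_of_subset_of_nonneg ?_ fun x _ _ => hfnn x
    intro x hx
    rw [mem_filter] at hx ⊢
    exact ⟨hx.1, by omega⟩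
  have hA : ∑ x ∈ (P2 y Z).filter (fun x => x.2 ≤ x.1), f x ≤
      (y : ℝ) ^ (-(ε / 16)) * (Cs * C2) := by
    have h1 : ∀ x ∈ (P2 y Z).filter (fun x => x.2 ≤ x.1), f x ≤
        (y : ℝ) ^ (-(ε / 16)) * (F (nu x.1 * (nu x.2)⁻¹) * (x.1 : ℝ) ^ (-(1 - ε / 4)) *
          (x.2 : ℝ) ^ (-(1 + ε / 16))) := by
      intro x hx
      rw [mem_filter, mem_P2] at hx
      obtain ⟨⟨⟨h1, h2⟩, h3, h4, h5⟩, h7⟩ := hx
      rw [hf]
      have hk := A6_key hε hypos (y := y) (u := x.1) (v := x.2) (by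
        refine rough_big h1.1 h4 ?_
        intro h8
        exact h3 ⟨h8, by omega⟩) h2.1 h7
      calc F (nu x.1 * (nu x.2)⁻¹) *
            ((x.1 : ℝ) ^ (-(1 - ε / 16)) * (x.2 : ℝ) ^ (-(1 - ε / 16)))
          ≤ F (nu x.1 * (nu x.2)⁻¹) * ((y : ℝ) ^ (-(ε / 16)) *
            ((x.1 : ℝ) ^ (-(1 - ε / 4)) * (x.2 : ℝ) ^ (-(1 + ε / 16)))) :=
            mul_le_mul_of_nonneg_left hk (hF _)
        _ = _ := by ring
    refine (sum_le_sum h1).trans ?_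
    rw [← mul_sum]
    refine mul_le_mul_of_nonneg_left ?_ (by positivity)
    have hmaps : ∀ x ∈ (P2 y Z).filter (fun x => x.2 ≤ x.1), x.2 ∈ Icc 1 Z := by
      intro x hx
      rw [mem_filter, mem_P2] at hx
      rw [mem_Icc]
      exact hx.1.1.2
    rw [← sum_fiberwise_of_maps_to hmaps]
    have h2 : ∀ v ∈ Icc 1 Z, ∑ x ∈ ((P2 y Z).filter (fun x => x.2 ≤ x.1)).filter
        (fun x => x.2 = v), F (nu x.1 * (nu x.2)⁻¹) * (x.1 : ℝ) ^ (-(1 - ε / 4)) *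
          (x.2 : ℝ) ^ (-(1 + ε / 16)) ≤ Cs * (v : ℝ) ^ (-(1 + ε / 16)) := by
      intro v _
      have h3 : ∀ x ∈ ((P2 y Z).filter (fun x => x.2 ≤ x.1)).filter (fun x => x.2 = v),
          F (nu x.1 * (nu x.2)⁻¹) * (x.1 : ℝ) ^ (-(1 - ε / 4)) * (x.2 : ℝ) ^ (-(1 + ε / 16)) =
          F (nu x.1 * (nu v)⁻¹) * (x.1 : ℝ) ^ (-(1 - ε / 4)) * (v : ℝ) ^ (-(1 + ε / 16)) := by
        intro x hx
        rw [(mem_filter.1 hx).2]
      rw [sum_congr rfl h3, ← sum_mul]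
      refine mul_le_mul_of_nonneg_right ?_ (by positivity)
      rw [hCs]
      exact A6_fibre hε hε1 hF hcnt v
    refine (sum_le_sum h2).trans ?_
    rw [← mul_sum]
    exact mul_le_mul_of_nonneg_left (hpart _) hCs0.le
  have hB : ∑ x ∈ (P2 y Z).filter (fun x => x.1 ≤ x.2), f x =
      ∑ x ∈ (P2 y Z).filter (fun x => x.2 ≤ x.1), f x := by
    refine sum_nbij' Prod.swap Prod.swap ?_ ?_ ?_ ?_ ?_
    · intro x hx
      rw [mem_filter, mem_P2] at hx ⊢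
      obtain ⟨⟨⟨h1, h2⟩, h3, h4, h5⟩, h7⟩ := hx
      exact ⟨⟨⟨h2, h1⟩, fun h => h3 ⟨h.2, h.1⟩, h5, h4⟩, h7⟩
    · intro x hx
      rw [mem_filter, mem_P2] at hx ⊢
      obtain ⟨⟨⟨h1, h2⟩, h3, h4, h5⟩, h7⟩ := hx
      exact ⟨⟨⟨h2, h1⟩, fun h => h3 ⟨h.2, h.1⟩, h5, h4⟩, h7⟩
    · intro x _
      exact Prod.swap_swap x
    · intro x _
      exact Prod.swap_swap x
    · intro x _
      exact (hfsw x).symm
  have hf' : ∑ x ∈ P2 y Z, F (nu x.1 * (nu x.2)⁻¹) *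
      ((x.1 : ℝ) ^ (-(1 - ε / 16)) * (x.2 : ℝ) ^ (-(1 - ε / 16))) = ∑ x ∈ P2 y Z, f x := by rw [hf]
  rw [hf']
  have hyp : 0 ≤ (y : ℝ) ^ (-(ε / 16)) := by positivity
  calc ∑ x ∈ P2 y Z, f x ≤ _ := hsplit
    _ ≤ (y : ℝ) ^ (-(ε / 16)) * (Cs * C2) + (y : ℝ) ^ (-(ε / 16)) * (Cs * C2) := by
        rw [hB]
        exact add_le_add hA hA
    _ ≤ (2 * (Cs * C2) + 1) * (y : ℝ) ^ (-(ε / 16)) := by linarith

end Pool.Agent.H681.TS
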