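import Pool.Agent.H681.TS.A1

set_option autoImplicit false

namespace Pool.Agent.H681.TS

open Finset Pool.Agent.Q237.LV
open scoped Classical

variable {q : ℕ} [Fact q.Prime]

theorem sum_Ts_sqF {P : Finset ℕ} (hP : ∀ p ∈ P, p.Prime) {fp : ℕ → ℝ}
    (hf : ∀ p ∈ P, 0 ≤ fp p) {β : ℝ} (hβ1 : β ≤ 1 / 2)
    (hfβ : ∀ p ∈ P, fp p ≤ (p : ℝ) ^ (-β)) {C : Finset ℕ} {SS : Finset (Finset ℕ)} {A N y : ℕ}
    (hC : ∀ c ∈ C, 1 ≤ c ∧ c ≤ A) (hSS : ∀ S ∈ SS, S ⊆ P ∧ nn S ≤ N) (hq : A * N * N < q)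
    (hy : ∀ p ∈ P, y ≤ p) (hCy : ∀ c ∈ C, ∀ p : ℕ, p.Prime → p ∣ c → y ≤ p) (hA : 1 ≤ A)
    (hN : 1 ≤ N) (F : (ZMod q)ˣ → ℝ) (hF : ∀ κ, 0 ≤ F κ) :
    ∑ κ ∈ (univ : Finset (ZMod q)ˣ).erase 1, F κ * Ts C SS fp κ ^ 2 ≤
      (DD P fp) ^ 2 * ∑ x ∈ P2 y (A * N), F (nu x.1 * (nu x.2)⁻¹) *
        ((x.1.divisors.card : ℝ) * ((x.1 : ℝ) ^ (-β) * (x.2 : ℝ) ^ (-β))) ^ 2 := by
  classical
  have hTnn : ∀ κ : (ZMod q)ˣ, 0 ≤ Ts C SS fp κ := by
    intro κ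
    unfold Ts
    refine sum_nonneg fun x hx => ?_
    unfold cls at hx
    rw [mem_filter, mem_product, mem_product] at hx
    have n1 : ∀ T : Finset ℕ, T ∈ SS → 0 ≤ ff fp T := fun T hT =>
      ff_nonneg fun p hp => hf p ((hSS T hT).1 hp)
    have a1 := n1 _ hx.1.2.1
    have a2 := n1 _ hx.1.2.2
    positivity
  have hANN : A * N ≤ A * N * N := Nat.le_mul_of_pos_right _ hN
  have hNAN : N ≤ A * N := Nat.le_mul_of_pos_left N hA
  obtain ⟨G, hG⟩ : ∃ G : ℕ × ℕ → ℝ, G = fun x => (DD P fp) ^ 2 *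
      ((x.1.divisors.card : ℝ) * ((x.1 : ℝ) ^ (-β) * (x.2 : ℝ) ^ (-β))) ^ 2 := ⟨_, rfl⟩
  have hGnn : ∀ x, 0 ≤ G x := by
    intro x
    rw [hG]
    positivity
  have hFG : ∀ x : ℕ × ℕ, 0 ≤ F (nu x.1 * (nu x.2)⁻¹) * G x := fun x => mul_nonneg (hF _) (hGnn x)
  have h1 : ∀ κ ∈ (univ : Finset (ZMod q)ˣ).erase 1, F κ * Ts C SS fp κ ^ 2 ≤
      ∑ x ∈ P2 y (A * N), if (κ : ZMod q) * (x.2 : ZMod q) = (x.1 : ZMod q) then
        F (nu x.1 * (nu x.2)⁻¹) * G x else 0 := by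
    intro κ hκ
    rcases Ts_bound hP hf hβ1 hfβ hC hSS hq κ (Finset.ne_of_mem_erase hκ) with h | h
    · rw [h]
      simp only [ne_eq, OfNat.ofNat_ne_zero, not_false_eq_true, zero_pow, mul_zero]
      refine sum_nonneg fun x _ => ?_
      split_ifs
      · exact hFG x
      · exact le_rfl
    · obtain ⟨U, V, hU, hV, hUA, hVN, hκUV, hne, hpU, hpV, hT⟩ := h
      have hmem : (U, V) ∈ P2 y (A * N) := by
        rw [mem_P2]
        refine ⟨⟨⟨hU, hUA⟩, hV, hVN.trans hNAN⟩, hne, ?_, ?_⟩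
        · intro p hp hd
          rcases hpU p hp hd with h | ⟨c, hc, h⟩
          · exact hy p h
          · exact hCy c hc p hp h
        · intro p hp hd
          exact hy p (hpV p hp hd)
      have h2 : (if (κ : ZMod q) * ((U, V).2 : ZMod q) = ((U, V).1 : ZMod q) then
          F (nu (U, V).1 * (nu (U, V).2)⁻¹) * G (U, V) else 0)
          ≤ ∑ x ∈ P2 y (A * N),
            if (κ : ZMod q) * (x.2 : ZMod q) = (x.1 : ZMod q) then
              F (nu x.1 * (nu x.2)⁻¹) * G x else 0 := by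
        refine single_le_sum (f := fun x : ℕ × ℕ =>
          if (κ : ZMod q) * (x.2 : ZMod q) = (x.1 : ZMod q) then
            F (nu x.1 * (nu x.2)⁻¹) * G x else 0) (fun x _ => ?_) hmem
        split_ifs
        · exact hFG x
        · exact le_rfl
      refine le_trans ?_ h2
      simp only
      have hUq : (U : ZMod q) ≠ 0 := nu_ne hU (by omega)
      have hVq : (V : ZMod q) ≠ 0 := nu_ne hV (by omega)
      have hκe : κ = nu U * (nu V)⁻¹ := by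
        rw [eq_mul_inv_iff_mul_eq]
        refine Units.ext ?_
        rw [Units.val_mul, nu_val hVq, nu_val hUq]
        exact hκUV
      rw [if_pos hκUV, ← hκe, hG]
      simp only
      rw [← mul_pow]
      exact mul_le_mul_of_nonneg_left (pow_le_pow_left₀ (hTnn κ) hT 2) (hF κ)
  refine (sum_le_sum h1).trans ?_
  rw [sum_comm, mul_sum]
  refine sum_le_sum fun x hx => ?_
  have h3 : ∑ κ ∈ (univ : Finset (ZMod q)ˣ).erase 1,
      (if (κ : ZMod q) * (x.2 : ZMod q) = (x.1 : ZMod q) then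
        F (nu x.1 * (nu x.2)⁻¹) * G x else 0) ≤ F (nu x.1 * (nu x.2)⁻¹) * G x := by
    rw [← sum_filter, sum_const, nsmul_eq_mul]
    have h4 : (((univ : Finset (ZMod q)ˣ).erase 1).filter (fun κ : (ZMod q)ˣ =>
        (κ : ZMod q) * (x.2 : ZMod q) = (x.1 : ZMod q))).card ≤ 1 := by
      rw [card_le_one]
      intro κ hκ κ' hκ'
      rw [mem_filter] at hκ hκ'
      rw [mem_P2] at hx
      have hx2 : (x.2 : ZMod q) ≠ 0 := nu_ne hx.1.2.1 (by omega)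
      exact Units.ext (mul_right_cancel₀ hx2 (hκ.2.trans hκ'.2.symm))
    have h5 : (((((univ : Finset (ZMod q)ˣ).erase 1).filter (fun κ : (ZMod q)ˣ =>
        (κ : ZMod q) * (x.2 : ZMod q) = (x.1 : ZMod q))).card : ℕ) : ℝ) ≤ 1 := by exact_mod_cast h4
    calc _ ≤ 1 * (F (nu x.1 * (nu x.2)⁻¹) * G x) := mul_le_mul_of_nonneg_right h5 (hFG x)
      _ = _ := one_mul _
  refine h3.trans (le_of_eq ?_)
  rw [hG]
  simp only
  ring

end Pool.Agent.H681.TS
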