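import Pool.Agent.H681.TS.A5

set_option autoImplicit false

namespace Pool.Agent.H681.TS

open Finset Pool.Agent.Q237.LV
open scoped Classical

variable {q : ℕ} [Fact q.Prime]

/-- the bound for one class -/
theorem A8_point (g : (ZMod q)ˣ) (Δ M : ℕ) (κ : (ZMod q)ˣ) :
    Vh Δ M (κ * g) ^ 2 ≤ 2 * (if Δ < ((κ * g : (ZMod q)ˣ) : ZMod q).val then
        (1 : ℝ) / ((((κ * g : (ZMod q)ˣ) : ZMod q).val : ℕ) : ℝ) else 0) +
      8 * M / (q : ℝ) ^ 2 := by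
  have hq0 : 0 < q := Nat.pos_of_ne_zero (NeZero.ne q)
  have hq0' : (0 : ℝ) < q := by exact_mod_cast hq0
  have h2 : Vh Δ M (κ * g) ≤ _ := sum_class_le (((κ * g : (ZMod q)ˣ) : ZMod q)) Δ M
  have h3 : 0 ≤ Vh Δ M (κ * g) := sum_nonneg fun c _ => hp_nonneg c
  have h4 := pow_le_pow_left₀ h3 h2 2
  refine h4.trans ?_
  have h5 : (2 * Real.sqrt M / q) ^ 2 = 4 * M / (q : ℝ) ^ 2 := by
    rw [div_pow, mul_pow, Real.sq_sqrt (by positivity)]
    norm_num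
  have h6 : (if Δ < ((κ * g : (ZMod q)ˣ) : ZMod q).val then
      hp ((κ * g : (ZMod q)ˣ) : ZMod q).val else 0) ^ 2 =
      (if Δ < ((κ * g : (ZMod q)ˣ) : ZMod q).val then
      (1 : ℝ) / ((((κ * g : (ZMod q)ˣ) : ZMod q).val : ℕ) : ℝ) else 0) := by
    split_ifs with h
    · exact hp_sq (by omega)
    · norm_num
  have h7 := add_sq_le (a := (if Δ < ((κ * g : (ZMod q)ˣ) : ZMod q).val then
      hp ((κ * g : (ZMod q)ˣ) : ZMod q).val else 0)) (b := 2 * Real.sqrt M / q)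
  rw [h5, h6] at h7
  refine h7.trans (le_of_eq ?_)
  ring

theorem sum_class_sqF {S : Finset (DirichletCharacter ℂ q)} (hS : S.Nonempty) (g : (ZMod q)ˣ)
    (Δ M s D : ℕ) (hs : 1 ≤ s) (hΔ0 : 1 ≤ Δ) (hΔ : q ≤ Δ ^ s)
    (hD : ∀ m : ℕ, 1 ≤ m → m ≤ q ^ s → m.divisors.card ≤ D) (K0 X : ℝ) (hX0 : 0 ≤ X)
    (hK1 : (q : ℝ) ≤ K0 * S.card) (hK2 : (q : ℝ) ≤ K0 * Real.sqrt S.card)
    (hX : (D : ℝ) ^ s * (K0 / q * (1 + s * Real.log q)) ≤ X ^ s) :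
    ∑ κ : (ZMod q)ˣ, Fw S κ * Vh Δ M (κ * g) ^ 2 ≤ 2 * X + 8 * K0 * M / (q : ℝ) ^ 2 := by
  have hq0 : 0 < q := Nat.pos_of_ne_zero (NeZero.ne q)
  have hq0' : (0 : ℝ) < q := by exact_mod_cast hq0
  have hq1 : (1 : ℝ) ≤ q := by exact_mod_cast hq0
  have hSc : (0 : ℝ) < S.card := by exact_mod_cast hS.card_pos
  have hK0 : 0 < K0 := by
    by_contra h
    push Not at h
    have := mul_nonpos_of_nonpos_of_nonneg h hSc.le
    linarith
  have hlog : 0 ≤ Real.log q := Real.log_nonneg hq1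
  -- the first sum
  obtain ⟨T, hT⟩ : ∃ T : Finset ℕ, T = ((univ : Finset (ZMod q)ˣ).filter (fun κ : (ZMod q)ˣ =>
      Δ < ((κ * g : (ZMod q)ˣ) : ZMod q).val)).image
      (fun κ => ((κ * g : (ZMod q)ˣ) : ZMod q).val) := ⟨_, rfl⟩
  have h2 : ∑ κ : (ZMod q)ˣ, Fw S κ * (if Δ < ((κ * g : (ZMod q)ˣ) : ZMod q).val then
        (1 : ℝ) / ((((κ * g : (ZMod q)ˣ) : ZMod q).val : ℕ) : ℝ) else 0) =
      ∑ a ∈ T, (1 / (a : ℝ)) * Fw S (nu a * g⁻¹) := by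
    rw [hT, sum_image]
    · rw [sum_filter]
      refine sum_congr rfl fun κ _ => ?_
      split_ifs with h
      · have h3 : ((((κ * g : (ZMod q)ˣ) : ZMod q).val : ℕ) : ZMod q) =
            ((κ * g : (ZMod q)ˣ) : ZMod q) := ZMod.natCast_zmod_val _
        have h4 : ((((κ * g : (ZMod q)ˣ) : ZMod q).val : ℕ) : ZMod q) ≠ 0 := by
          rw [h3]
          exact Units.ne_zero _
        have h5 : (nu (((κ * g : (ZMod q)ˣ) : ZMod q).val) : (ZMod q)ˣ) = κ * g := by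
          apply Units.ext
          rw [nu_val h4, h3]
        rw [h5, mul_inv_cancel_right]
        ring
      · rw [mul_zero]
    · intro κ _ κ' _ h
      have h3 := ZMod.val_injective q h
      exact mul_right_cancel (Units.ext h3)
  have h3 : (∑ a ∈ T, (1 / (a : ℝ)) * Fw S (nu a * g⁻¹)) ^ (2 * s) ≤
      ((D : ℝ) ^ s * (1 + s * Real.log q)) ^ 2 / S.card := by
    refine sum_largeF hS g⁻¹ T hs hΔ0 ?_ hΔ hD
    intro a ha
    rw [hT, mem_image] at ha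
    obtain ⟨κ, hκ, rfl⟩ := ha
    rw [mem_filter] at hκ
    exact ⟨hκ.2.le, ZMod.val_lt _⟩
  have h4 : ((D : ℝ) ^ s * (1 + s * Real.log q)) ^ 2 / S.card ≤ X ^ (2 * s) := by
    have e1 : (q : ℝ) ^ 2 ≤ K0 ^ 2 * S.card := by
      have := pow_le_pow_left₀ hq0'.le hK2 2
      rwa [mul_pow, Real.sq_sqrt hSc.le] at this
    have e2 : ((D : ℝ) ^ s * (1 + s * Real.log q)) ^ 2 / S.card ≤
        ((D : ℝ) ^ s * (K0 / q * (1 + s * Real.log q))) ^ 2 := by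
      rw [div_le_iff₀ hSc]
      have e3 : ((D : ℝ) ^ s * (K0 / q * (1 + s * Real.log q))) ^ 2 * S.card =
          ((D : ℝ) ^ s * (1 + s * Real.log q)) ^ 2 * ((K0 ^ 2 * S.card) / (q : ℝ) ^ 2) := by
        field_simp
      rw [e3]
      have e4 : 1 ≤ (K0 ^ 2 * S.card) / (q : ℝ) ^ 2 := by
        rw [le_div_iff₀ (by positivity), one_mul]
        exact e1
      have e5 := mul_le_mul_of_nonneg_left e4
        (sq_nonneg ((D : ℝ) ^ s * (1 + s * Real.log q)))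
      rwa [mul_one] at e5
    refine e2.trans ?_
    rw [mul_comm 2 s, pow_mul]
    exact pow_le_pow_left₀ (by positivity) hX 2
  have h5 : ∑ a ∈ T, (1 / (a : ℝ)) * Fw S (nu a * g⁻¹) ≤ X :=
    le_of_pow_le_pow_left₀ (by omega) hX0 (h3.trans h4)
  -- the second sum
  have h6 : ∑ κ : (ZMod q)ˣ, Fw S κ ≤ K0 := by
    rw [sum_Fw hS, div_le_iff₀ hSc]
    have : (q.totient : ℝ) ≤ q := by exact_mod_cast Nat.totient_le q
    linarith
  calc ∑ κ : (ZMod q)ˣ, Fw S κ * Vh Δ M (κ * g) ^ 2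
      ≤ ∑ κ : (ZMod q)ˣ, Fw S κ * (2 * (if Δ < ((κ * g : (ZMod q)ˣ) : ZMod q).val then
        (1 : ℝ) / ((((κ * g : (ZMod q)ˣ) : ZMod q).val : ℕ) : ℝ) else 0) +
        8 * M / (q : ℝ) ^ 2) :=
        sum_le_sum fun κ _ => mul_le_mul_of_nonneg_left (A8_point g Δ M κ) (Fw_nonneg S κ)
    _ = 2 * ∑ κ : (ZMod q)ˣ, Fw S κ * (if Δ < ((κ * g : (ZMod q)ˣ) : ZMod q).val then
        (1 : ℝ) / ((((κ * g : (ZMod q)ˣ) : ZMod q).val : ℕ) : ℝ) else 0) +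
        (∑ κ : (ZMod q)ˣ, Fw S κ) * (8 * M / (q : ℝ) ^ 2) := by
        rw [mul_sum, sum_mul, ← sum_add_distrib]
        exact sum_congr rfl fun κ _ => by ring
    _ ≤ 2 * X + K0 * (8 * M / (q : ℝ) ^ 2) := by
        rw [h2]
        exact add_le_add (by linarith) (mul_le_mul_of_nonneg_right h6 (by positivity))
    _ = _ := by ring

end Pool.Agent.H681.TS
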