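import Pool.Agent.H681.TS.A1

set_option autoImplicit false

namespace Pool.Agent.H681.TS

open Finset Pool.Agent.Q237.LV
open scoped Classical

variable {q : ℕ} [Fact q.Prime]

theorem sum_TB_sqF {y Δ Y N τ : ℕ} {P : Finset ℕ} (hP : ∀ p ∈ P, p.Prime) (hN : N < q)
    {fp : ℕ → ℝ}
    (hf : ∀ p ∈ P, 0 ≤ fp p) (hτ : ∀ c : ℕ, 1 ≤ c → c ≤ Δ * Y → c.divisors.card ≤ τ)
    (F : (ZMod q)ˣ → ℝ) (hF : ∀ κ, 0 ≤ F κ) {B : ℝ}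
    (hB : ∀ g : (ZMod q)ˣ, ∑ κ : (ZMod q)ˣ, F κ * Vh Δ (Δ * Y) (κ * g) ^ 2 ≤ B) :
    ∑ κ : (ZMod q)ˣ, F κ * TB y Δ Y N P fp κ ^ 2 ≤
      ((N : ℝ) * ∑ S ∈ SSt P N, ff fp S ^ 2) ^ 2 * ((τ : ℝ) ^ 2 * B) := by
  have n1 : ∀ S ∈ SSt P N, 0 ≤ ff fp S := fun S hS =>
    ff_nonneg fun p hp => hf p ((mem_SSt.1 hS).1 hp)
  obtain ⟨w, hw⟩ : ∃ w : Finset ℕ × Finset ℕ → ℝ, w = fun z => ff fp z.1 * ff fp z.2 := ⟨_, rfl⟩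
  have hw0 : ∀ z ∈ SSt P N ×ˢ SSt P N, 0 ≤ w z := by
    intro z hz
    rw [mem_product] at hz
    rw [hw]
    exact mul_nonneg (n1 _ hz.1) (n1 _ hz.2)
  obtain ⟨v, hv⟩ : ∃ v : (ZMod q)ˣ → Finset ℕ × Finset ℕ → ℝ, v = fun κ z =>
    ((τ : ℝ) * Vh Δ (Δ * Y) (κ * (un z.2 * (un z.1)⁻¹))) := ⟨_, rfl⟩
  have hsw : ∑ z ∈ SSt P N ×ˢ SSt P N, w z = (∑ S ∈ SSt P N, ff fp S) ^ 2 := by
    rw [hw, sq, sum_mul_sum, sum_product]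
  have h1 : ∀ κ : (ZMod q)ˣ, TB y Δ Y N P fp κ ^ 2 ≤
      (∑ z ∈ SSt P N ×ˢ SSt P N, w z) * ∑ z ∈ SSt P N ×ˢ SSt P N, w z * v κ z ^ 2 := by
    intro κ
    have h2 := TB_abs (y := y) (Y := Y) hP hN hf hτ κ
    have h3 : |TB y Δ Y N P fp κ| ≤ ∑ z ∈ SSt P N ×ˢ SSt P N, w z * v κ z := by
      rw [hw, hv]
      exact h2
    calc TB y Δ Y N P fp κ ^ 2 = |TB y Δ Y N P fp κ| ^ 2 := (sq_abs _).symm
      _ ≤ (∑ z ∈ SSt P N ×ˢ SSt P N, w z * v κ z) ^ 2 := pow_le_pow_left₀ (abs_nonneg _) h3 2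
      _ ≤ _ := by
          refine sum_sq_le_sum_mul_sum_of_sq_le_mul _ hw0 ?_ ?_
          · intro z hz
            exact mul_nonneg (hw0 z hz) (sq_nonneg _)
          · intro z _
            exact le_of_eq (by ring)
  have h1F : ∀ κ ∈ (univ : Finset (ZMod q)ˣ), F κ * TB y Δ Y N P fp κ ^ 2 ≤
      (∑ z ∈ SSt P N ×ˢ SSt P N, w z) * ∑ z ∈ SSt P N ×ˢ SSt P N, w z * (F κ * v κ z ^ 2) := by
    intro κ _
    refine (mul_le_mul_of_nonneg_left (h1 κ) (hF κ)).trans (le_of_eq ?_)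
    rw [mul_left_comm]
    congr 1
    rw [mul_sum]
    exact sum_congr rfl fun z _ => by ring
  refine (sum_le_sum h1F).trans ?_
  rw [← mul_sum, sum_comm]
  have h2 : ∀ z ∈ SSt P N ×ˢ SSt P N, ∑ κ : (ZMod q)ˣ, w z * (F κ * v κ z ^ 2) ≤
      w z * ((τ : ℝ) ^ 2 * B) := by
    intro z hz
    rw [← mul_sum]
    refine mul_le_mul_of_nonneg_left ?_ (hw0 z hz)
    have e : ∀ κ : (ZMod q)ˣ, F κ * v κ z ^ 2 =
        (τ : ℝ) ^ 2 * (F κ * Vh Δ (Δ * Y) (κ * (un z.2 * (un z.1)⁻¹)) ^ 2) := by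
      intro κ
      rw [hv]
      ring
    rw [sum_congr rfl (fun κ _ => e κ), ← mul_sum]
    exact mul_le_mul_of_nonneg_left (hB _) (by positivity)
  have h3 : 0 ≤ ∑ z ∈ SSt P N ×ˢ SSt P N, w z := sum_nonneg hw0
  have hB0 : 0 ≤ B := (sum_nonneg fun κ _ => mul_nonneg (hF κ) (sq_nonneg _)).trans (hB 1)
  calc (∑ z ∈ SSt P N ×ˢ SSt P N, w z) *
        ∑ z ∈ SSt P N ×ˢ SSt P N, ∑ κ : (ZMod q)ˣ, w z * (F κ * v κ z ^ 2)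
      ≤ (∑ z ∈ SSt P N ×ˢ SSt P N, w z) * ∑ z ∈ SSt P N ×ˢ SSt P N, w z * ((τ : ℝ) ^ 2 * B) :=
        mul_le_mul_of_nonneg_left (sum_le_sum h2) h3
    _ = (∑ z ∈ SSt P N ×ˢ SSt P N, w z) ^ 2 * ((τ : ℝ) ^ 2 * B) := by
        rw [← sum_mul]
        ring
    _ ≤ _ := by
        refine mul_le_mul_of_nonneg_right ?_ (by positivity)
        rw [hsw]
        exact pow_le_pow_left₀ (by positivity) (sum_ff_sq hP fp) 2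

end Pool.Agent.H681.TS
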