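import Pool.Agent.H681.TS.A4
import Pool.Agent.H681.TS.A6
import Pool.Agent.H681.TS.A7

/-!
# The small part
-/

set_option autoImplicit false

namespace Pool.Agent.H681.TS

open Finset Pool.Agent.Q237.LV
open scoped Classical

theorem Ts_totalF (ε : ℝ) (hε : 0 < ε) (hε4 : ε ≤ 1 / 4) : ∃ C : ℝ, 0 < C ∧
    ∀ (q : ℕ) [Fact q.Prime] (S : Finset (DirichletCharacter ℂ q)) (y Δ N w : ℕ) (P : Finset ℕ)
      (fp : ℕ → ℝ), (∀ p ∈ P, p.Prime) → (∀ p ∈ P, 0 ≤ fp p) →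
      (∀ p ∈ P, fp p ≤ (p : ℝ) ^ (-(1 / 2 - ε / 64))) → (∀ p ∈ P, y ≤ p) → 2 ≤ y →
      Δ * N * N < q → 1 ≤ Δ → 1 ≤ N → 2 ≤ Δ * N → ((Δ * N : ℕ) : ℝ) ≤ (q : ℝ) ^ (ε / 8) →
      (q : ℝ) ^ (2 * ε) ≤ S.card → q ≤ y ^ w →
      ((Nat.log 2 q : ℕ) : ℝ) ^ w ≤ (q : ℝ) ^ (ε / 8) →
      ∑ κ ∈ (univ : Finset (ZMod q)ˣ).erase 1, Fw S κ * Ts (RC y Δ) (SSt P N) fp κ ^ 2 ≤
        DD P fp ^ 2 * (C * (y : ℝ) ^ (-(ε / 16))) := by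
  obtain ⟨Cp, hCp0, hCp⟩ := pair_sumF ε hε (by linarith)
  obtain ⟨Cd, hCd0, hCd⟩ := Pool.Agent.Helper112.divisor_bound (ε / 64) (by positivity)
  refine ⟨Cd ^ 2 * Cp, by positivity, ?_⟩
  intro q _ S y Δ N w P fp hP hf0 hfβ hy hy2 hq hΔ hN hZ2 hZ hS hw hlog
  have hcnt := cntF_of (S := S) hε hε4 hS hy2 hw hlog hZ2 hZ
  have hZq : Δ * N < q := lt_of_le_of_lt (Nat.le_mul_of_pos_right _ hN) hq
  have h1 := sum_Ts_sqF (q := q) (C := RC y Δ) (SS := SSt P N) (A := Δ) (N := N) (y := y) hP hf0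
    (β := 1 / 2 - ε / 64) (by linarith) hfβ
    (fun c hc => by
      unfold RC at hc
      rw [mem_filter, mem_Icc] at hc
      exact hc.1)
    (fun S hS => mem_SSt.1 hS) hq hy
    (fun c hc => by
      unfold RC at hc
      rw [mem_filter] at hc
      exact hc.2) hΔ hN (Fw S) (Fw_nonneg S)
  refine h1.trans (mul_le_mul_of_nonneg_left ?_ (sq_nonneg _))
  have h2 := hCp q (Fw S) y (Δ * N) (Fw_nonneg S) (Fw_inv S) hy2 hZq hcnt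
  have h3 : ∀ x ∈ P2 y (Δ * N), Fw S (nu x.1 * (nu x.2)⁻¹) *
      ((x.1.divisors.card : ℝ) * ((x.1 : ℝ) ^ (-(1 / 2 - ε / 64)) *
        (x.2 : ℝ) ^ (-(1 / 2 - ε / 64)))) ^ 2 ≤
      Cd ^ 2 * (Fw S (nu x.1 * (nu x.2)⁻¹) *
        ((x.1 : ℝ) ^ (-(1 - ε / 16)) * (x.2 : ℝ) ^ (-(1 - ε / 16)))) := by
    intro x hx
    rw [mem_P2] at hx
    obtain ⟨⟨⟨a1, a2⟩, a3, a4⟩, -⟩ := hx
    have b1 : (1 : ℝ) ≤ x.1 := by exact_mod_cast a1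
    have b2 : (1 : ℝ) ≤ x.2 := by exact_mod_cast a3
    have b10 : (0 : ℝ) < x.1 := by linarith
    have b20 : (0 : ℝ) < x.2 := by linarith
    have c1 := hCd x.1 a1
    have e1 : ((x.1 : ℝ) ^ (-(1 / 2 - ε / 64))) ^ 2 = (x.1 : ℝ) ^ (-(1 - ε / 32)) := by
      rw [← Real.rpow_natCast, ← Real.rpow_mul b10.le]
      congr 1
      push_cast
      ring
    have e2 : ((x.2 : ℝ) ^ (-(1 / 2 - ε / 64))) ^ 2 = (x.2 : ℝ) ^ (-(1 - ε / 32)) := by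
      rw [← Real.rpow_natCast, ← Real.rpow_mul b20.le]
      congr 1
      push_cast
      ring
    have e3 : (((x.1 : ℝ) ^ (ε / 64))) ^ 2 = (x.1 : ℝ) ^ (ε / 32) := by
      rw [← Real.rpow_natCast, ← Real.rpow_mul b10.le]
      congr 1
      push_cast
      ring
    have e4 : (x.2 : ℝ) ^ (-(1 - ε / 32)) ≤ (x.2 : ℝ) ^ (-(1 - ε / 16)) :=
      Real.rpow_le_rpow_of_exponent_le b2 (by linarith)
    have e5 : (x.1 : ℝ) ^ (ε / 32) * (x.1 : ℝ) ^ (-(1 - ε / 32)) = (x.1 : ℝ) ^ (-(1 - ε / 16)) := by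
      rw [← Real.rpow_add b10]
      congr 1
      ring
    have c2 : ((x.1.divisors.card : ℝ)) ^ 2 ≤ (Cd * (x.1 : ℝ) ^ (ε / 64)) ^ 2 :=
      pow_le_pow_left₀ (by positivity) c1 2
    have key : ((x.1.divisors.card : ℝ) * ((x.1 : ℝ) ^ (-(1 / 2 - ε / 64)) *
        (x.2 : ℝ) ^ (-(1 / 2 - ε / 64)))) ^ 2 ≤
        Cd ^ 2 * ((x.1 : ℝ) ^ (-(1 - ε / 16)) * (x.2 : ℝ) ^ (-(1 - ε / 16))) := by
      rw [mul_pow, mul_pow, e1, e2]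
      rw [mul_pow, e3] at c2
      calc ((x.1.divisors.card : ℝ)) ^ 2 * ((x.1 : ℝ) ^ (-(1 - ε / 32)) * (x.2 : ℝ) ^ (-(1 - ε / 32)))
          ≤ (Cd ^ 2 * (x.1 : ℝ) ^ (ε / 32)) *
            ((x.1 : ℝ) ^ (-(1 - ε / 32)) * (x.2 : ℝ) ^ (-(1 - ε / 16))) := by gcongr
        _ = Cd ^ 2 * (((x.1 : ℝ) ^ (ε / 32) * (x.1 : ℝ) ^ (-(1 - ε / 32))) *
            (x.2 : ℝ) ^ (-(1 - ε / 16))) := by ring
        _ = _ := by rw [e5]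
    calc _ ≤ Fw S (nu x.1 * (nu x.2)⁻¹) *
          (Cd ^ 2 * ((x.1 : ℝ) ^ (-(1 - ε / 16)) * (x.2 : ℝ) ^ (-(1 - ε / 16)))) :=
          mul_le_mul_of_nonneg_left key (Fw_nonneg S _)
      _ = _ := by ring
  refine (sum_le_sum h3).trans ?_
  rw [← mul_sum, mul_assoc]
  exact mul_le_mul_of_nonneg_left h2 (by positivity)

end Pool.Agent.H681.TS
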