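import Pool.Agent.H681.TS.A8
import Pool.Agent.H681.TS.A9

/-!
# The large part and the parameters
-/

set_option autoImplicit false

namespace Pool.Agent.H681.TS

open Finset Filter Pool.Agent.Q237.LV
open scoped Classical

theorem TB_totalF {q : ℕ} [Fact q.Prime] {y Δ Y N D s : ℕ} {P : Finset ℕ} (hP : ∀ p ∈ P, p.Prime)
    (hN : N < q)
    {fp : ℕ → ℝ} (hf0 : ∀ p ∈ P, 0 ≤ fp p) {S : Finset (DirichletCharacter ℂ q)} (hS : S.Nonempty)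
    (hs : 1 ≤ s) (hΔ0 : 1 ≤ Δ) (hΔs : q ≤ Δ ^ s) (hD : ∀ m : ℕ, 1 ≤ m → m ≤ q ^ s → m.divisors.card ≤ D)
    (hYs : Δ * Y ≤ q ^ s) {K0 X : ℝ} (hX0 : 0 ≤ X)
    (hK1 : (q : ℝ) ≤ K0 * S.card) (hK2 : (q : ℝ) ≤ K0 * Real.sqrt S.card)
    (hX : (D : ℝ) ^ s * (K0 / q * (1 + s * Real.log q)) ≤ X ^ s) :
    ∑ κ : (ZMod q)ˣ, Fw S κ * TB y Δ Y N P fp κ ^ 2 ≤ (∑ S ∈ SSt P N, ff fp S ^ 2) ^ 2 *
      (((N : ℝ) * D) ^ 2 * (2 * X + 8 * K0 * (Δ * Y) / (q : ℝ) ^ 2)) := by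
  have h1 : ∀ g : (ZMod q)ˣ, ∑ κ : (ZMod q)ˣ, Fw S κ * Vh Δ (Δ * Y) (κ * g) ^ 2 ≤
      2 * X + 8 * K0 * (Δ * Y) / (q : ℝ) ^ 2 := by
    intro g
    have h2 := sum_class_sqF hS g Δ (Δ * Y) s D hs hΔ0 hΔs hD K0 X hX0 hK1 hK2 hX
    push_cast at h2
    exact h2
  have h2 := sum_TB_sqF (y := y) (Δ := Δ) (Y := Y) (τ := D) hP hN hf0
    (fun c hc1 hc2 => hD c hc1 (hc2.trans hYs)) (Fw S) (Fw_nonneg S) h1
  refine h2.trans (le_of_eq ?_)
  ring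

/-- the choice of the parameters depending on `q` only -/
theorem par1F (ε : ℝ) (hε : 0 < ε) (hε4 : ε ≤ 1 / 4) : ∃ a : ℝ, 0 < a ∧ a ≤ 1 / 4 ∧
    ∀ᶠ q : ℕ in atTop, ∀ [Fact q.Prime], ∃ Δ N Y : ℕ, 1 ≤ Δ ∧ 1 ≤ N ∧ N ≤ Δ ∧ Δ ≤ Y ∧
      Δ * N * N < q ∧ 2 ≤ Δ * N ∧ ((Δ * N : ℕ) : ℝ) ≤ (q : ℝ) ^ (ε / 8) ∧
      a * Real.log q ≤ Real.log N ∧ Real.log N ≤ Real.log q ∧ Real.log Δ ≤ Real.log q ∧
      64 * Real.sqrt Δ * Real.sqrt Y * N ≤ (q : ℝ) ^ (2 / 3 : ℝ) ∧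
      8 * Real.sqrt q * (1 + Real.log q) / Real.sqrt Y ≤ 1 ∧
      ∀ S : Finset (DirichletCharacter ℂ q), (q : ℝ) ^ (2 * ε) ≤ S.card →
        ∀ (y : ℕ) (P : Finset ℕ) (fp : ℕ → ℝ), (∀ p ∈ P, p.Prime) → (∀ p ∈ P, 0 ≤ fp p) →
        ∑ κ : (ZMod q)ˣ, Fw S κ * TB y Δ Y N P fp κ ^ 2 ≤
          (∑ S ∈ SSt P N, ff fp S ^ 2) ^ 2 * (q : ℝ) ^ (-a) := by
  obtain ⟨s, hs⟩ : ∃ s : ℕ, s = ⌈16 / ε⌉₊ := ⟨_, rfl⟩
  have hs16 : 16 / ε ≤ s := by rw [hs]; exact Nat.le_ceil _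
  have hs64 : (64 : ℝ) ≤ s := by
    refine le_trans ?_ hs16
    rw [le_div_iff₀ hε]
    linarith
  have hs0 : (0 : ℝ) < s := by linarith
  have hsn : 64 ≤ s := by exact_mod_cast hs64
  obtain ⟨δ, hδ⟩ : ∃ δ : ℝ, δ = 1 / s := ⟨_, rfl⟩
  have hδ0 : 0 < δ := by rw [hδ]; positivity
  have hsδ : s * δ = 1 := by rw [hδ]; field_simp
  have hδε : δ ≤ ε / 16 := by
    rw [hδ, div_le_iff₀ hs0]
    rw [div_le_iff₀ hε] at hs16
    linarith
  have hδ64 : δ ≤ 1 / 64 := by linarith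
  have hεδ : ε * δ ≤ ε / 64 := by nlinarith
  have hεδ0 : 0 < ε * δ := by positivity
  obtain ⟨C1, hC10, hC1⟩ := Pool.Agent.Helper112.divisor_bound (ε * δ ^ 2 / 16) (by positivity)
  refine ⟨ε * δ / 32, by positivity, by nlinarith, ?_⟩
  filter_upwards [eventually_ge_atTop 3, ev1 2 (ε / 32) (by positivity),
    ev1 2 (ε * δ / 32) (by positivity), ev2 (C1 ^ s * s) (7 * ε / 16) (by positivity) (by positivity),
    ev1 (18 * C1 ^ 2) (ε * δ / 8) (by positivity), ev2 12 (ε / 4) (by norm_num) (by positivity),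
    ev1 91 (1 / 20) (by norm_num), ev1 2 δ hδ0]
    with q h3 e2 e3 e4 e5 e7 e8 e9
  intro _
  have hq3 : (3 : ℝ) ≤ q := by exact_mod_cast h3
  have hq1 : (1 : ℝ) ≤ q := by linarith
  have hq0 : (0 : ℝ) < q := by linarith
  have hL0 : 0 ≤ Real.log q := Real.log_nonneg hq1
  have hmono : ∀ a b : ℝ, a ≤ b → (q : ℝ) ^ a ≤ (q : ℝ) ^ b := fun a b h =>
    Real.rpow_le_rpow_of_exponent_le hq1 h
  have hpos : ∀ a : ℝ, 0 < (q : ℝ) ^ a := fun a => Real.rpow_pos_of_pos hq0 a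
  have hmul : ∀ a b : ℝ, (q : ℝ) ^ a * (q : ℝ) ^ b = (q : ℝ) ^ (a + b) := fun a b =>
    (Real.rpow_add hq0 a b).symm
  have hnpow : ∀ (a : ℝ) (n : ℕ), ((q : ℝ) ^ a) ^ n = (q : ℝ) ^ (a * n) := fun a n => by
    rw [← Real.rpow_natCast, ← Real.rpow_mul hq0.le]
  obtain ⟨Δ, hΔ⟩ : ∃ Δ : ℕ, Δ = ⌈(q : ℝ) ^ δ⌉₊ := ⟨_, rfl⟩
  obtain ⟨N, hN⟩ : ∃ N : ℕ, N = ⌊(q : ℝ) ^ (ε * δ / 16)⌋₊ := ⟨_, rfl⟩
  obtain ⟨Y, hY⟩ : ∃ Y : ℕ, Y = ⌊(q : ℝ) ^ (1 + ε / 2)⌋₊ := ⟨_, rfl⟩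
  obtain ⟨D, hD⟩ : ∃ D : ℕ, D = ⌊C1 * (q : ℝ) ^ (ε * δ / 16)⌋₊ := ⟨_, rfl⟩
  -- sizes
  have hΔ1 : (q : ℝ) ^ δ ≤ Δ := by rw [hΔ]; exact Nat.le_ceil _
  have hΔ2 : (Δ : ℝ) ≤ 2 * (q : ℝ) ^ δ := by
    have h1 : (Δ : ℝ) < (q : ℝ) ^ δ + 1 := by rw [hΔ]; exact Nat.ceil_lt_add_one (hpos _).le
    linarith
  have hN1 : (N : ℝ) ≤ (q : ℝ) ^ (ε * δ / 16) := by rw [hN]; exact Nat.floor_le (hpos _).le
  have hN2 : (q : ℝ) ^ (ε * δ / 32) ≤ N := by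
    have h1 : (q : ℝ) ^ (ε * δ / 16) < N + 1 := by rw [hN]; exact Nat.lt_floor_add_one _
    have h2 : (q : ℝ) ^ (ε * δ / 16) = (q : ℝ) ^ (ε * δ / 32) * (q : ℝ) ^ (ε * δ / 32) := by
      rw [hmul]
      congr 1
      ring
    nlinarith
  have hN2' : (2 : ℝ) ≤ N := e3.trans hN2
  have hN0 : 2 ≤ N := by exact_mod_cast hN2'
  have hY1 : (Y : ℝ) ≤ (q : ℝ) ^ (1 + ε / 2) := by rw [hY]; exact Nat.floor_le (hpos _).le
  have hY2 : (q : ℝ) ^ (1 + ε / 2) / 2 ≤ Y := by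
    have h1 : (q : ℝ) ^ (1 + ε / 2) < Y + 1 := by rw [hY]; exact Nat.lt_floor_add_one _
    have h2 : (2 : ℝ) ≤ (q : ℝ) ^ (1 + ε / 2) := by
      refine le_trans ?_ (hmono 1 _ (by linarith))
      rw [Real.rpow_one]
      linarith
    linarith
  have hY0 : (0 : ℝ) < Y := lt_of_lt_of_le (by have := hpos (1 + ε / 2); positivity) hY2
  have hNΔ : N ≤ Δ := by
    have h1 : (N : ℝ) ≤ Δ := by
      refine hN1.trans (le_trans (hmono _ _ ?_) hΔ1)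
      nlinarith
    exact_mod_cast h1
  have hΔ0 : 2 ≤ Δ := hN0.trans hNΔ
  have hΔ0' : (0 : ℝ) < Δ := by
    have : 0 < Δ := by omega
    exact_mod_cast this
  have hΔY : Δ ≤ Y := by
    have h1 : (Δ : ℝ) ≤ Y := by
      refine hΔ2.trans (le_trans ?_ hY2)
      have h2 : 2 * (q : ℝ) ^ δ * 2 ≤ (q : ℝ) ^ (1 + ε / 2) := by
        have h3 : (q : ℝ) ^ (1 + ε / 2) = (q : ℝ) ^ δ * (q : ℝ) ^ (1 + ε / 2 - δ) := by
          rw [hmul]
          congr 1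
          ring
        have h4 : (4 : ℝ) ≤ (q : ℝ) ^ (1 + ε / 2 - δ) := by
          refine le_trans ?_ (hmono (1 / 20) _ (by linarith))
          linarith
        rw [h3]
        nlinarith [hpos δ]
      linarith
    exact_mod_cast h1
  have hΔs : q ≤ Δ ^ s := by
    have h1 : (q : ℝ) ≤ (Δ : ℝ) ^ s := by
      calc (q : ℝ) = ((q : ℝ) ^ δ) ^ s := by
            rw [hnpow, mul_comm, hsδ, Real.rpow_one]
        _ ≤ (Δ : ℝ) ^ s := pow_le_pow_left₀ (hpos _).le hΔ1 s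
    exact_mod_cast h1
  have hΔN : ((Δ * N : ℕ) : ℝ) ≤ 2 * (q : ℝ) ^ (δ + ε * δ / 16) := by
    push_cast
    rw [← hmul]
    calc (Δ : ℝ) * N ≤ (2 * (q : ℝ) ^ δ) * (q : ℝ) ^ (ε * δ / 16) := by gcongr
      _ = _ := by ring
  have hZ : ((Δ * N : ℕ) : ℝ) ≤ (q : ℝ) ^ (ε / 8) := by
    refine hΔN.trans ?_
    have h1 : (q : ℝ) ^ (ε / 8) = (q : ℝ) ^ (ε / 32) * (q : ℝ) ^ (3 * ε / 32) := by
      rw [hmul]
      congr 1
      ring
    rw [h1]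
    refine mul_le_mul e2 (hmono _ _ ?_) (hpos _).le (hpos _).le
    nlinarith
  have hNN : Δ * N * N < q := by
    have h1 : ((Δ * N * N : ℕ) : ℝ) < q := by
      push_cast
      push_cast at hZ
      calc (Δ : ℝ) * N * N ≤ (q : ℝ) ^ (ε / 8) * (q : ℝ) ^ (ε * δ / 16) := by gcongr
        _ = (q : ℝ) ^ (ε / 8 + ε * δ / 16) := hmul _ _
        _ < (q : ℝ) ^ (1 : ℝ) := by
            refine Real.rpow_lt_rpow_of_exponent_lt (by linarith) ?_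
            nlinarith
        _ = q := Real.rpow_one _
    exact_mod_cast h1
  have hYs : Δ * Y ≤ q ^ s := by
    have h1 : ((Δ * Y : ℕ) : ℝ) ≤ (q : ℝ) ^ (2 : ℕ) := by
      push_cast
      calc (Δ : ℝ) * Y ≤ (2 * (q : ℝ) ^ δ) * (q : ℝ) ^ (1 + ε / 2) := by gcongr
        _ = 2 * (q : ℝ) ^ (δ + (1 + ε / 2)) := by rw [← hmul δ]; ring
        _ ≤ (q : ℝ) ^ (1 / 20 : ℝ) * (q : ℝ) ^ (δ + (1 + ε / 2)) := by
            refine mul_le_mul_of_nonneg_right (by linarith) (hpos _).le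
        _ = (q : ℝ) ^ (1 / 20 + (δ + (1 + ε / 2))) := hmul _ _
        _ ≤ (q : ℝ) ^ (2 : ℝ) := hmono _ _ (by linarith)
        _ = (q : ℝ) ^ (2 : ℕ) := by norm_num
    have h2 : Δ * Y ≤ q ^ 2 := by exact_mod_cast h1
    exact h2.trans (Nat.pow_le_pow_right (by omega) (by omega))
  have hDb : ∀ m : ℕ, 1 ≤ m → m ≤ q ^ s → m.divisors.card ≤ D := by
    intro m hm1 hm2
    rw [hD]
    refine Nat.le_floor ((hC1 m hm1).trans ?_)
    refine mul_le_mul_of_nonneg_left ?_ hC10.le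
    have h1 : (m : ℝ) ≤ (q : ℝ) ^ s := by exact_mod_cast hm2
    calc (m : ℝ) ^ (ε * δ ^ 2 / 16) ≤ ((q : ℝ) ^ s) ^ (ε * δ ^ 2 / 16) :=
          Real.rpow_le_rpow (by positivity) h1 (by positivity)
      _ = (q : ℝ) ^ (ε * δ / 16) := by
          rw [← Real.rpow_natCast, ← Real.rpow_mul hq0.le]
          congr 1
          have : (s : ℝ) * (ε * δ ^ 2 / 16) = (s * δ) * (ε * δ / 16) := by ring
          rw [this, hsδ, one_mul]
  have hD1 : (D : ℝ) ≤ C1 * (q : ℝ) ^ (ε * δ / 16) := by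
    rw [hD]
    exact Nat.floor_le (by have := hpos (ε * δ / 16); positivity)
  have hlogN : ε * δ / 32 * Real.log q ≤ Real.log N := by
    rw [← Real.log_rpow hq0]
    exact Real.log_le_log (hpos _) hN2
  have hNq : (N : ℝ) ≤ q := by
    have h1 : N ≤ Δ * N * N := by
      calc N = 1 * 1 * N := by ring
        _ ≤ Δ * N * N := Nat.mul_le_mul_right N (Nat.mul_le_mul (by omega) (by omega))
    exact_mod_cast (h1.trans hNN.le)
  have hΔq : (Δ : ℝ) ≤ q := by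
    have h1 : Δ ≤ Δ * N * N := by
      calc Δ = Δ * 1 * 1 := by ring
        _ ≤ Δ * N * N := Nat.mul_le_mul (Nat.mul_le_mul_left Δ (by omega)) (by omega)
    exact_mod_cast (h1.trans hNN.le)
  refine ⟨Δ, N, Y, by omega, by omega, hNΔ, hΔY, hNN, ?_, hZ, hlogN, ?_, ?_, ?_, ?_, ?_⟩
  · nlinarith
  · exact Real.log_le_log (by linarith) hNq
  · exact Real.log_le_log hΔ0' hΔq
  · -- the principal character
    have h1 : Real.sqrt Δ * Real.sqrt Y = Real.sqrt (Δ * Y) := (Real.sqrt_mul hΔ0'.le _).symm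
    have h2 : (Δ : ℝ) * Y ≤ 2 * (q : ℝ) ^ (δ + (1 + ε / 2)) := by
      rw [← hmul δ]
      calc (Δ : ℝ) * Y ≤ (2 * (q : ℝ) ^ δ) * (q : ℝ) ^ (1 + ε / 2) := by gcongr
        _ = _ := by ring
    have h3 : Real.sqrt (Δ * Y) ≤ Real.sqrt 2 * (q : ℝ) ^ ((δ + (1 + ε / 2)) / 2) := by
      refine (Real.sqrt_le_sqrt h2).trans ?_
      rw [Real.sqrt_mul (by norm_num)]
      refine mul_le_mul_of_nonneg_left (le_of_eq ?_) (Real.sqrt_nonneg _)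
      rw [Real.sqrt_eq_rpow, ← Real.rpow_mul hq0.le]
      congr 1
      ring
    have h4 : Real.sqrt 2 ≤ 91 / 64 := by
      rw [Real.sqrt_le_left (by norm_num)]
      norm_num
    calc 64 * Real.sqrt Δ * Real.sqrt Y * N = 64 * (Real.sqrt Δ * Real.sqrt Y) * N := by ring
      _ ≤ 64 * (91 / 64 * (q : ℝ) ^ ((δ + (1 + ε / 2)) / 2)) * (q : ℝ) ^ (ε * δ / 16) := by
          rw [h1]
          gcongr
          exact h3.trans (mul_le_mul_of_nonneg_right h4 (hpos _).le)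
      _ = 91 * ((q : ℝ) ^ ((δ + (1 + ε / 2)) / 2) * (q : ℝ) ^ (ε * δ / 16)) := by ring
      _ ≤ (q : ℝ) ^ (1 / 20 : ℝ) * (q : ℝ) ^ ((δ + (1 + ε / 2)) / 2 + ε * δ / 16) := by
          rw [hmul]
          exact mul_le_mul_of_nonneg_right e8 (hpos _).le
      _ = (q : ℝ) ^ (1 / 20 + ((δ + (1 + ε / 2)) / 2 + ε * δ / 16)) := hmul _ _
      _ ≤ (q : ℝ) ^ (2 / 3 : ℝ) := hmono _ _ (by linarith)
  · -- the approximation
    rw [div_le_one (Real.sqrt_pos.2 hY0)]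
    have h1 : Real.sqrt ((q : ℝ) ^ (1 + ε / 2) / 2) ≤ Real.sqrt Y := Real.sqrt_le_sqrt hY2
    refine le_trans ?_ h1
    refine Real.le_sqrt_of_sq_le ?_
    have h2 : (8 * Real.sqrt q * (1 + Real.log q)) ^ 2 = 64 * q * (1 + Real.log q) ^ 2 := by
      rw [mul_pow, mul_pow, Real.sq_sqrt hq0.le]
      ring
    rw [h2]
    have h3 : (12 * (1 + Real.log q)) ^ 2 ≤ ((q : ℝ) ^ (ε / 4)) ^ 2 :=
      pow_le_pow_left₀ (by positivity) e7 2
    have h4 : ((q : ℝ) ^ (ε / 4)) ^ 2 = (q : ℝ) ^ (ε / 2) := by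
      rw [hnpow]
      congr 1
      push_cast
      ring
    rw [h4] at h3
    have h5 : (q : ℝ) ^ (1 + ε / 2) = q * (q : ℝ) ^ (ε / 2) := by
      rw [← hmul, Real.rpow_one]
    rw [h5]
    nlinarith
  · intro S hS y P fp hP hf0
    have hSne : S.Nonempty := by
      rw [nonempty_iff_ne_empty]
      rintro rfl
      rw [card_empty, Nat.cast_zero] at hS
      exact absurd hS (not_le.2 (hpos _))
    have hsq : (q : ℝ) ^ ε ≤ Real.sqrt S.card := by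
      refine Real.le_sqrt_of_sq_le ?_
      rw [hnpow]
      refine le_trans (le_of_eq ?_) hS
      congr 1
      push_cast
      ring
    have hq1ε : (q : ℝ) = (q : ℝ) ^ (1 - ε) * (q : ℝ) ^ ε := by
      rw [hmul, sub_add_cancel, Real.rpow_one]
    have hX := TB_totalF (y := y) (Δ := Δ) (Y := Y) (N := N) (D := D) (s := s) hP
      (lt_of_le_of_lt (by
        calc N = 1 * 1 * N := by ring
          _ ≤ Δ * N * N := Nat.mul_le_mul_right N (Nat.mul_le_mul (by omega) (by omega))) hNN) hf0 hSne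
      (by omega) (by omega) hΔs hDb hYs (K0 := (q : ℝ) ^ (1 - ε)) (X := (q : ℝ) ^ (-(ε * δ / 2)))
      (hpos _).le
      (by
        nth_rewrite 1 [hq1ε]
        refine mul_le_mul_of_nonneg_left ((hmono _ _ (by linarith)).trans hS) (hpos _).le)
      (by
        nth_rewrite 1 [hq1ε]
        exact mul_le_mul_of_nonneg_left hsq (hpos _).le) (by
        have h1 : (D : ℝ) ^ s ≤ C1 ^ s * (q : ℝ) ^ (ε / 16) := by
          calc (D : ℝ) ^ s ≤ (C1 * (q : ℝ) ^ (ε * δ / 16)) ^ s := pow_le_pow_left₀ (by positivity) hD1 s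
            _ = C1 ^ s * (q : ℝ) ^ (ε / 16) := by
                rw [mul_pow, hnpow]
                congr 2
                have : ε * δ / 16 * s = ε / 16 * (s * δ) := by ring
                rw [this, hsδ, mul_one]
        have h2 : (q : ℝ) ^ (1 - ε) / q ≤ (q : ℝ) ^ (-ε) := by
          rw [div_le_iff₀ hq0]
          refine le_of_eq ?_
          have : (q : ℝ) ^ (-ε) * q = (q : ℝ) ^ (-ε) * (q : ℝ) ^ (1 : ℝ) := by rw [Real.rpow_one]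
          rw [this, hmul]
          congr 1
          ring
        have h3 : C1 ^ s * (1 + s * Real.log q) ≤ (q : ℝ) ^ (7 * ε / 16) := by
          refine le_trans ?_ e4
          rw [mul_assoc]
          refine mul_le_mul_of_nonneg_left ?_ (by positivity)
          nlinarith
        have h4 : ((q : ℝ) ^ (-(ε * δ / 2))) ^ s = (q : ℝ) ^ (-(ε / 2)) := by
          rw [hnpow]
          congr 1
          have : -(ε * δ / 2) * s = -(ε / 2) * (s * δ) := by ring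
          rw [this, hsδ, mul_one]
        rw [h4]
        have h5 : (q : ℝ) ^ (-(ε / 2)) = (q : ℝ) ^ (ε / 16) * ((q : ℝ) ^ (-ε) *
            (q : ℝ) ^ (7 * ε / 16)) := by
          rw [hmul, hmul]
          congr 1
          ring
        rw [h5]
        have h6 : (0 : ℝ) ≤ 1 + s * Real.log q := by positivity
        calc (D : ℝ) ^ s * ((q : ℝ) ^ (1 - ε) / q * (1 + s * Real.log q))
            ≤ (C1 ^ s * (q : ℝ) ^ (ε / 16)) * ((q : ℝ) ^ (-ε) * (1 + s * Real.log q)) := by gcongr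
          _ = (q : ℝ) ^ (ε / 16) * ((q : ℝ) ^ (-ε) * (C1 ^ s * (1 + s * Real.log q))) := by ring
          _ ≤ _ := by
              refine mul_le_mul_of_nonneg_left ?_ (hpos _).le
              exact mul_le_mul_of_nonneg_left h3 (hpos _).le)
    refine hX.trans (mul_le_mul_of_nonneg_left ?_ (sq_nonneg _))
    have h1 : 8 * (q : ℝ) ^ (1 - ε) * (Δ * Y) / (q : ℝ) ^ 2 ≤ 16 * (q : ℝ) ^ (-(ε * δ / 2)) := by
      have h2 : (q : ℝ) ^ 2 = (q : ℝ) ^ (2 : ℝ) := by norm_num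
      rw [h2, div_le_iff₀ (hpos _), mul_assoc 16, hmul]
      calc 8 * (q : ℝ) ^ (1 - ε) * (Δ * Y)
          ≤ 8 * (q : ℝ) ^ (1 - ε) * ((2 * (q : ℝ) ^ δ) * (q : ℝ) ^ (1 + ε / 2)) := by gcongr
        _ = 16 * ((q : ℝ) ^ (1 - ε) * ((q : ℝ) ^ δ * (q : ℝ) ^ (1 + ε / 2))) := by ring
        _ = 16 * (q : ℝ) ^ (1 - ε + (δ + (1 + ε / 2))) := by rw [hmul, hmul]
        _ ≤ 16 * (q : ℝ) ^ (-(ε * δ / 2) + 2) := by
            refine mul_le_mul_of_nonneg_left (hmono _ _ ?_) (by norm_num)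
            nlinarith
    have h2 : ((N : ℝ) * D) ^ 2 ≤ C1 ^ 2 * (q : ℝ) ^ (ε * δ / 4) := by
      have h3 : (N : ℝ) * D ≤ C1 * (q : ℝ) ^ (ε * δ / 8) := by
        calc (N : ℝ) * D ≤ (q : ℝ) ^ (ε * δ / 16) * (C1 * (q : ℝ) ^ (ε * δ / 16)) := by gcongr
          _ = C1 * ((q : ℝ) ^ (ε * δ / 16) * (q : ℝ) ^ (ε * δ / 16)) := by ring
          _ = _ := by
              rw [hmul]
              congr 2
              ring
      calc ((N : ℝ) * D) ^ 2 ≤ (C1 * (q : ℝ) ^ (ε * δ / 8)) ^ 2 := pow_le_pow_left₀ (by positivity) h3 2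
        _ = _ := by
            rw [mul_pow, hnpow]
            congr 2
            push_cast
            ring
    calc ((N : ℝ) * D) ^ 2 * (2 * (q : ℝ) ^ (-(ε * δ / 2)) +
          8 * (q : ℝ) ^ (1 - ε) * (Δ * Y) / (q : ℝ) ^ 2)
        ≤ (C1 ^ 2 * (q : ℝ) ^ (ε * δ / 4)) * (2 * (q : ℝ) ^ (-(ε * δ / 2)) +
          16 * (q : ℝ) ^ (-(ε * δ / 2))) := by
          have := hpos (-(ε * δ / 2))
          gcongr
      _ = (18 * C1 ^ 2) * ((q : ℝ) ^ (ε * δ / 4) * (q : ℝ) ^ (-(ε * δ / 2))) := by ring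
      _ ≤ (q : ℝ) ^ (ε * δ / 8) * ((q : ℝ) ^ (ε * δ / 4) * (q : ℝ) ^ (-(ε * δ / 2))) := by
          refine mul_le_mul_of_nonneg_right e5 ?_
          have := hpos (ε * δ / 4)
          have := hpos (-(ε * δ / 2))
          positivity
      _ = (q : ℝ) ^ (ε * δ / 8 + (ε * δ / 4 + -(ε * δ / 2))) := by rw [hmul, hmul]
      _ ≤ (q : ℝ) ^ (-(ε * δ / 32)) := hmono _ _ (by nlinarith)

end Pool.Agent.H681.TS
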