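import Pool.Agent.H681.TS.A11

/-!
# The combination of the estimates
-/

set_option autoImplicit false

namespace Pool.Agent.H681.TS

open Finset Filter Pool.Agent.Q237.LV
open scoped Classical

section

variable {q : ℕ} [Fact q.Prime]

theorem Fw_one {S : Finset (DirichletCharacter ℂ q)} (hS : S.Nonempty) : Fw S (1 : (ZMod q)ˣ) = 1 := by
  unfold Fw
  have h1 : ∀ ψ ∈ S, ψ (((1 : (ZMod q)ˣ) : ZMod q)) = 1 := fun ψ _ => by rw [Units.val_one, map_one]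
  have h2 : (0 : ℝ) < S.card := by exact_mod_cast hS.card_pos
  rw [sum_congr rfl h1, sum_const, nsmul_eq_mul, mul_one, Complex.norm_natCast]
  field_simp

/-- the combination -/
theorem combineF {y Δ Y N : ℕ} {P : Finset ℕ} (hP : ∀ p ∈ P, p.Prime) (hy : ∀ p ∈ P, y ≤ p)
    (hq : Δ * N < q) (hΔ : 1 ≤ Δ) (hN : 1 ≤ N) (hNΔ : N ≤ Δ) (hΔY : Δ ≤ Y) {fp : ℕ → ℝ}
    (hf0 : ∀ p ∈ P, 0 ≤ fp p)
    {S : Finset (DirichletCharacter ℂ q)} (hS : S.Nonempty) {G V L0 σ ρ : ℝ} (hL00 : 0 ≤ L0)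
    (hDN : DD P fp / 2 ≤ DN N P fp)
    (hG : (∑ S ∈ SSt P N, ff fp S ^ 2) * Real.exp G ≤ DD P fp) (hG0 : 0 ≤ G)
    (hTs : ∑ κ ∈ (univ : Finset (ZMod q)ˣ).erase 1, Fw S κ * Ts (RC y Δ) (SSt P N) fp κ ^ 2 ≤
      DD P fp ^ 2 * σ)
    (hTB : ∑ κ : (ZMod q)ˣ, Fw S κ * TB y Δ Y N P fp κ ^ 2 ≤
      (∑ S ∈ SSt P N, ff fp S ^ 2) ^ 2 * ρ) (hρ0 : 0 ≤ ρ) (hρ1 : ρ ≤ 1 / 16)
    (hL0 : L0 * (Real.exp V * (2 + Real.log Δ)) ≤ Real.exp G / 8) :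
    ((badS S Y L0).card : ℝ) ≤ (q.totient : ℝ) * (128 * (σ + ρ) + Real.exp (-V)) +
      (if 64 * Real.sqrt Δ * Real.sqrt Y * N ≤ (S.card : ℝ) then 0
        else (S.card : ℝ)) := by
  have hempty : (∅ : Finset ℕ) ∈ SSt P N := by
    rw [mem_SSt]
    refine ⟨empty_subset _, ?_⟩
    unfold nn
    simpa using hN
  have hE20 : 0 < ∑ S ∈ SSt P N, ff fp S ^ 2 := by
    refine lt_of_lt_of_le one_pos ?_
    refine le_trans ?_ (single_le_sum (f := fun S => ff fp S ^ 2) (fun S _ => sq_nonneg _) hempty)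
    unfold ff
    simp
  have hE2D : ∑ S ∈ SSt P N, ff fp S ^ 2 ≤ DD P fp := by
    refine le_trans ?_ hG
    exact le_mul_of_one_le_right hE20.le (Real.one_le_exp hG0)
  have hD0 : 0 < DD P fp := lt_of_lt_of_le hE20 hE2D
  have hTB' : ∑ κ : (ZMod q)ˣ, Fw S κ * TB y Δ Y N P fp κ ^ 2 ≤ DD P fp ^ 2 * ρ := by
    refine hTB.trans ?_
    gcongr
  have h1 : DD P fp / 4 ≤ TT y Δ Y N P fp (1 : (ZMod q)ˣ) := by
    have h2 : TB y Δ Y N P fp (1 : (ZMod q)ˣ) ^ 2 ≤ DD P fp ^ 2 * ρ := by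
      refine le_trans ?_ hTB'
      refine le_trans (le_of_eq ?_) (single_le_sum (f := fun κ : (ZMod q)ˣ => Fw S κ * TB y Δ Y N P fp κ ^ 2)
        (fun κ _ => mul_nonneg (Fw_nonneg S κ) (sq_nonneg _)) (mem_univ (1 : (ZMod q)ˣ)))
      rw [Fw_one hS, one_mul]
    have h3 : |TB y Δ Y N P fp (1 : (ZMod q)ˣ)| ≤ DD P fp / 4 := by
      refine abs_le_of_sq_le_sq ?_ (by positivity)
      calc TB y Δ Y N P fp (1 : (ZMod q)ˣ) ^ 2 ≤ DD P fp ^ 2 * ρ := h2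
        _ ≤ DD P fp ^ 2 * (1 / 16) := by gcongr
        _ = (DD P fp / 4) ^ 2 := by ring
    have h4 := Ts_one (q := q) (y := y) (Δ := Δ) hP hy hf0 hNΔ
    rw [TT_split fp hΔY]
    have h5 := abs_le.1 h3
    linarith [h5.1]
  have h2 : L0 * (Real.exp V * (2 + Real.log Δ) * ∑ S ∈ SSt P N, ff fp S ^ 2) ≤
      DD P fp / 4 / 2 := by
    calc L0 * (Real.exp V * (2 + Real.log Δ) * ∑ S ∈ SSt P N, ff fp S ^ 2)
        = (L0 * (Real.exp V * (2 + Real.log Δ))) * ∑ S ∈ SSt P N, ff fp S ^ 2 := by ring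
      _ ≤ (Real.exp G / 8) * ∑ S ∈ SSt P N, ff fp S ^ 2 :=
          mul_le_mul_of_nonneg_right hL0 hE20.le
      _ = ((∑ S ∈ SSt P N, ff fp S ^ 2) * Real.exp G) / 8 := by ring
      _ ≤ DD P fp / 8 := by gcongr
      _ = _ := by ring
  have h3 := bad_countF hP hy hq hΔ hf0 hS (t1 := DD P fp / 4) (by positivity) h1 rfl hE20
    (Real.exp_pos V) hL00 h2
  refine h3.trans ?_
  have h4 : ∑ κ ∈ (univ : Finset (ZMod q)ˣ).erase 1, Fw S κ * TT y Δ Y N P fp κ ^ 2 ≤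
      2 * (DD P fp ^ 2 * (σ + ρ)) := by
    calc ∑ κ ∈ (univ : Finset (ZMod q)ˣ).erase 1, Fw S κ * TT y Δ Y N P fp κ ^ 2
        ≤ ∑ κ ∈ (univ : Finset (ZMod q)ˣ).erase 1, (2 * (Fw S κ * Ts (RC y Δ) (SSt P N) fp κ ^ 2) +
          2 * (Fw S κ * TB y Δ Y N P fp κ ^ 2)) := by
          refine sum_le_sum fun κ _ => ?_
          rw [TT_split fp hΔY]
          have h5 := add_sq_le (a := Ts (RC y Δ) (SSt P N) fp κ) (b := TB y Δ Y N P fp κ)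
          have h6 := mul_le_mul_of_nonneg_left h5 (Fw_nonneg S κ)
          linarith
      _ = 2 * (∑ κ ∈ (univ : Finset (ZMod q)ˣ).erase 1, Fw S κ * Ts (RC y Δ) (SSt P N) fp κ ^ 2 +
          ∑ κ ∈ (univ : Finset (ZMod q)ˣ).erase 1, Fw S κ * TB y Δ Y N P fp κ ^ 2) := by
          rw [sum_add_distrib, ← mul_sum, ← mul_sum]
          ring
      _ ≤ 2 * (DD P fp ^ 2 * σ + DD P fp ^ 2 * ρ) := by
          have h5 : ∑ κ ∈ (univ : Finset (ZMod q)ˣ).erase 1, Fw S κ * TB y Δ Y N P fp κ ^ 2 ≤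
              ∑ κ : (ZMod q)ˣ, Fw S κ * TB y Δ Y N P fp κ ^ 2 :=
            sum_le_sum_of_subset_of_nonneg (erase_subset _ _)
              fun κ _ _ => mul_nonneg (Fw_nonneg S κ) (sq_nonneg _)
          linarith
      _ = _ := by ring
  have h5 : 4 * (q.totient : ℝ) * (∑ κ ∈ (univ : Finset (ZMod q)ˣ).erase 1, Fw S κ * TT y Δ Y N P fp κ ^ 2) /
      (DD P fp / 4) ^ 2 ≤ (q.totient : ℝ) * (128 * (σ + ρ)) := by
    rw [div_le_iff₀ (by positivity)]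
    calc 4 * (q.totient : ℝ) * (∑ κ ∈ (univ : Finset (ZMod q)ˣ).erase 1, Fw S κ * TT y Δ Y N P fp κ ^ 2)
        ≤ 4 * (q.totient : ℝ) * (2 * (DD P fp ^ 2 * (σ + ρ))) := by gcongr
      _ = _ := by ring
  have h6 : (q.totient : ℝ) / Real.exp V = (q.totient : ℝ) * Real.exp (-V) := by
    rw [Real.exp_neg, div_eq_mul_inv]
  have h7 : (if 4 * Real.sqrt Δ * Real.sqrt Y * (N * ∑ S ∈ SSt P N, ff fp S ^ 2) ≤
      (S.card : ℝ) * (DD P fp / 4) / 4 then 0 else (S.card : ℝ)) ≤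
      (if 64 * Real.sqrt Δ * Real.sqrt Y * N ≤ (S.card : ℝ) then 0
        else (S.card : ℝ)) := by
    by_cases h : 64 * Real.sqrt Δ * Real.sqrt Y * N ≤ (S.card : ℝ)
    · rw [if_pos h, if_pos]
      calc 4 * Real.sqrt Δ * Real.sqrt Y * (N * ∑ S ∈ SSt P N, ff fp S ^ 2)
          = (64 * Real.sqrt Δ * Real.sqrt Y * N) * (∑ S ∈ SSt P N, ff fp S ^ 2) / 16 := by ring
        _ ≤ (S.card : ℝ) * (DD P fp) / 16 := by gcongr
        _ = _ := by ring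
    · rw [if_neg h]
      split_ifs
      · positivity
      · exact le_rfl
  rw [h6]
  linarith

end

end Pool.Agent.H681.TS
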