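import Pool.Agent.H681.TS.B4

/-!
# Many large values in almost all translates, for several sets at once
-/

set_option autoImplicit false

namespace Pool.Agent.H681.TS

open Finset Filter Pool.Agent.Q237.LV
open scoped Classical

section

variable {q : ℕ} [Fact q.Prime]

/-- the members `ψ` of `S` with a large central value at `χ ψ` -/
noncomputable def lrg (S : Finset (DirichletCharacter ℂ q)) (V : ℝ) (χ : DirichletCharacter ℂ q) :
    Finset (DirichletCharacter ℂ q) :=
  S.filter (fun ψ => χ * ψ ≠ 1 ∧ Real.exp V ≤ ‖(χ * ψ).LFunction (1 / 2)‖)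

/-- few large values: Markov's inequality over the parts of an equipartition -/
theorem few_le {S : Finset (DirichletCharacter ℂ q)} {V η : ℝ} {b K : ℕ} (hK : 1 ≤ K) (hb : K * b ≤ S.card)
    (hKS : K ≤ S.card)
    (h : ∀ t : Finset (DirichletCharacter ℂ q), b ≤ t.card → ((badV t V).card : ℝ) ≤ η) :
    (((univ : Finset (DirichletCharacter ℂ q)).filter
      (fun χ => ((lrg S V χ).card : ℝ) < K / 2)).card : ℝ) ≤ 2 * η := by
  obtain ⟨P, hP1, hP2⟩ := Finpartition.exists_equipartition_card_eq S (n := K) (by omega) hKS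
  have hpart : ∀ t ∈ P.parts, b ≤ t.card := by
    intro t ht
    refine le_trans ?_ (hP1.average_le_card_part ht)
    rw [hP2, Nat.le_div_iff_mul_le (by omega), mul_comm]
    exact hb
  -- the number of bad parts
  have hcount : ∀ χ : DirichletCharacter ℂ q,
      (K : ℝ) - ((P.parts.filter (fun t => χ ∈ badV t V)).card : ℝ) ≤ (lrg S V χ).card := by
    intro χ
    have h1 : (P.parts.filter (fun t => χ ∉ badV t V)).card ≤ (lrg S V χ).card := by
      have h2 : ∀ t ∈ P.parts.filter (fun t => χ ∉ badV t V), ∃ ψ ∈ t, ψ ∈ lrg S V χ := by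
        intro t ht
        rw [mem_filter] at ht
        have h3 := ht.2
        unfold badV at h3
        rw [mem_filter, not_and] at h3
        have h4 := h3 (mem_univ _)
        push Not at h4
        obtain ⟨ψ, h5, h6, h7⟩ := h4
        refine ⟨ψ, h5, ?_⟩
        unfold lrg
        rw [mem_filter]
        exact ⟨P.le ht.1 h5, h6, h7⟩
      choose! g hg1 hg2 using h2
      refine card_le_card_of_injOn g (fun t ht => hg2 t ht) ?_
      intro t ht t' ht' hgg
      rw [mem_coe] at ht ht'
      by_contra hne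
      have h3 := P.disjoint (mem_filter.1 ht).1 (mem_filter.1 ht').1 hne
      exact (disjoint_left.1 h3) (hg1 t ht) (hgg ▸ hg1 t' ht')
    have h2 : (P.parts.filter (fun t => χ ∈ badV t V)).card +
        (P.parts.filter (fun t => χ ∉ badV t V)).card = K := by
      rw [card_filter_add_card_filter_not, hP2]
    have h3 : ((P.parts.filter (fun t => χ ∈ badV t V)).card : ℝ) +
        ((P.parts.filter (fun t => χ ∉ badV t V)).card : ℝ) = K := by exact_mod_cast h2
    have h4 : ((P.parts.filter (fun t => χ ∉ badV t V)).card : ℝ) ≤ (lrg S V χ).card := by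
      exact_mod_cast h1
    linarith
  have hsum : ∑ χ : DirichletCharacter ℂ q, ((P.parts.filter (fun t => χ ∈ badV t V)).card : ℝ) ≤
      K * η := by
    have h1 : ∀ χ : DirichletCharacter ℂ q, ((P.parts.filter (fun t => χ ∈ badV t V)).card : ℝ) =
        ∑ t ∈ P.parts, if χ ∈ badV t V then (1 : ℝ) else 0 := by
      intro χ
      rw [← sum_filter, sum_const, nsmul_eq_mul, mul_one]
    rw [sum_congr rfl fun χ _ => h1 χ, sum_comm]
    calc ∑ t ∈ P.parts, ∑ χ : DirichletCharacter ℂ q, (if χ ∈ badV t V then (1 : ℝ) else 0)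
        ≤ ∑ t ∈ P.parts, η := by
          refine sum_le_sum fun t ht => ?_
          rw [← sum_filter, sum_const, nsmul_eq_mul, mul_one]
          refine le_trans (le_of_eq ?_) (h t (hpart t ht))
          congr 2
          ext χ
          simp
      _ = K * η := by rw [sum_const, nsmul_eq_mul, hP2]
  have hK0 : (0 : ℝ) < K := by exact_mod_cast hK
  have hsub : (univ : Finset (DirichletCharacter ℂ q)).filter (fun χ => ((lrg S V χ).card : ℝ) < K / 2) ⊆
      (univ : Finset (DirichletCharacter ℂ q)).filter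
        (fun χ => (K : ℝ) / 2 ≤ ((P.parts.filter (fun t => χ ∈ badV t V)).card : ℝ)) := by
    intro χ hχ
    rw [mem_filter] at hχ ⊢
    refine ⟨mem_univ _, ?_⟩
    have := hcount χ
    linarith [hχ.2]
  calc (((univ : Finset (DirichletCharacter ℂ q)).filter
      (fun χ => ((lrg S V χ).card : ℝ) < K / 2)).card : ℝ)
      ≤ (((univ : Finset (DirichletCharacter ℂ q)).filter
        (fun χ => (K : ℝ) / 2 ≤ ((P.parts.filter (fun t => χ ∈ badV t V)).card : ℝ))).card : ℝ) := by
        exact_mod_cast card_le_card hsub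
    _ ≤ (∑ χ : DirichletCharacter ℂ q, ((P.parts.filter (fun t => χ ∈ badV t V)).card : ℝ)) / (K / 2) :=
        markov _ _ (fun χ _ => Nat.cast_nonneg _) (by positivity)
    _ ≤ (K * η) / (K / 2) := by gcongr
    _ = 2 * η := by field_simp

end

/-- **The main theorem** -/
theorem main (δ : ℝ) (hδ : 0 < δ) : ∃ c : ℝ, 0 < c ∧ ∀ᶠ q : ℕ in atTop, ∀ [Fact q.Prime],
    ∀ V : ℝ, Real.log q ^ (1 / 3 : ℝ) ≤ V → V ≤ c * Real.sqrt (Real.log q / Real.log (Real.log q)) →
      ∀ F : Finset (Finset (DirichletCharacter ℂ q)), (∀ S ∈ F, (q : ℝ) ^ δ ≤ S.card) →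
        (F.card : ℝ) ≤ Real.exp (c * (Real.log q / V ^ 2)) →
        (((univ : Finset (DirichletCharacter ℂ q)).filter
          (fun χ => ∃ S ∈ F, ((lrg S V χ).card : ℝ) < (q : ℝ) ^ (-δ) * S.card)).card : ℝ) ≤
            Real.exp (-(c * (Real.log q / V ^ 2))) * q.totient := by
  obtain ⟨c₁, hc₁, hmain⟩ := main_smallF (min (δ / 4) (1 / 4)) (by positivity) (min_le_right _ _)
  refine ⟨min (c₁ / 4) (1 / 4), by positivity, ?_⟩
  filter_upwards [hmain, ev1 8 (δ / 2) (by positivity), ev4 1, ev3 1, eventually_ge_atTop 3]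
    with q hm hq8 hLL hL1 hq3
  intro _ V hV1 hV2 F hF hFc
  set c : ℝ := min (c₁ / 4) (1 / 4) with hc
  have hc0 : 0 < c := by rw [hc]; positivity
  have hcc : c ≤ c₁ / 4 := min_le_left _ _
  have hc4 : c ≤ 1 / 4 := min_le_right _ _
  have hq1 : (1 : ℝ) ≤ q := by
    have : 1 ≤ q := by omega
    exact_mod_cast this
  have hq0 : (0 : ℝ) < q := by linarith
  have hL0 : 0 < Real.log q := by linarith
  have hV0 : 0 < V := lt_of_lt_of_le (Real.rpow_pos_of_pos hL0 _) hV1
  have hφ0 : (0 : ℝ) ≤ q.totient := Nat.cast_nonneg _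
  obtain ⟨x, hx⟩ : ∃ x : ℝ, x = Real.log q / V ^ 2 := ⟨_, rfl⟩
  rw [← hx] at hFc ⊢
  have hsq0 : 0 ≤ Real.sqrt (Real.log q / Real.log (Real.log q)) := Real.sqrt_nonneg _
  have hxb : 16 ≤ x := by
    have h1 : V ^ 2 ≤ c ^ 2 * (Real.log q / Real.log (Real.log q)) := by
      calc V ^ 2 ≤ (c * Real.sqrt (Real.log q / Real.log (Real.log q))) ^ 2 :=
            pow_le_pow_left₀ hV0.le hV2 2
        _ = _ := by
            rw [mul_pow, Real.sq_sqrt (by positivity)]
    have h2 : c ^ 2 ≤ 1 / 16 := by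
      calc c ^ 2 ≤ (1 / 4) ^ 2 := pow_le_pow_left₀ hc0.le hc4 2
        _ = 1 / 16 := by norm_num
    have h3 : Real.log q / Real.log (Real.log q) ≤ Real.log q := div_le_self hL0.le hLL
    have h4 : V ^ 2 ≤ 1 / 16 * Real.log q :=
      h1.trans (mul_le_mul h2 h3 (by positivity) (by norm_num))
    rw [hx, le_div_iff₀ (by positivity)]
    linarith
  have hxc : Real.log (Real.log q) ≤ c ^ 2 * x := by
    have h1 : V ^ 2 ≤ c ^ 2 * (Real.log q / Real.log (Real.log q)) := by
      calc V ^ 2 ≤ (c * Real.sqrt (Real.log q / Real.log (Real.log q))) ^ 2 :=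
            pow_le_pow_left₀ hV0.le hV2 2
        _ = _ := by
            rw [mul_pow, Real.sq_sqrt (by positivity)]
    have hLL0 : 0 < Real.log (Real.log q) := by linarith
    rw [hx, ← mul_div_assoc, le_div_iff₀ (by positivity)]
    calc Real.log (Real.log q) * V ^ 2 ≤
        Real.log (Real.log q) * (c ^ 2 * (Real.log q / Real.log (Real.log q))) := by gcongr
      _ = c ^ 2 * Real.log q := by field_simp
  -- one set
  have hone : ∀ S ∈ F, (((univ : Finset (DirichletCharacter ℂ q)).filter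
      (fun χ => ((lrg S V χ).card : ℝ) < (q : ℝ) ^ (-δ) * S.card)).card : ℝ) ≤
      2 * (Real.exp (-(c₁ * x)) * q.totient) := by
    intro S hS
    have hSc := hF S hS
    obtain ⟨b, hb⟩ : ∃ b : ℕ, b = ⌈(q : ℝ) ^ (δ / 2)⌉₊ := ⟨_, rfl⟩
    have hb1 : (q : ℝ) ^ (δ / 2) ≤ b := by rw [hb]; exact Nat.le_ceil _
    have hb2 : (b : ℝ) ≤ 2 * (q : ℝ) ^ (δ / 2) := by
      have h1 : (b : ℝ) < (q : ℝ) ^ (δ / 2) + 1 := by
        rw [hb]
        exact Nat.ceil_lt_add_one (by positivity)
      linarith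
    have hb0 : (0 : ℝ) < b := by linarith
    have hb0' : 0 < b := by exact_mod_cast hb0
    have hδδ : (q : ℝ) ^ δ = (q : ℝ) ^ (δ / 2) * (q : ℝ) ^ (δ / 2) := by
      rw [← Real.rpow_add hq0]
      congr 1
      ring
    have hbS : (2 : ℝ) * b ≤ S.card := by
      refine le_trans ?_ hSc
      rw [hδδ]
      nlinarith
    have hbS' : 2 * b ≤ S.card := by exact_mod_cast hbS
    obtain ⟨K, hK⟩ : ∃ K : ℕ, K = S.card / b := ⟨_, rfl⟩
    have hK1 : 1 ≤ K := by
      rw [hK, Nat.one_le_div_iff hb0']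
      omega
    have hKb : K * b ≤ S.card := by
      rw [hK]
      exact Nat.div_mul_le_self _ _
    have hKS : K ≤ S.card := by
      rw [hK]
      exact Nat.div_le_self _ _
    have hK2 : (S.card : ℝ) < (K + 1) * b := by
      have h1 := Nat.lt_div_mul_add hb0' (a := S.card)
      have h2 : S.card < (K + 1) * b := by
        rw [hK, add_mul, one_mul]
        exact h1
      exact_mod_cast h2
    have hthr : (q : ℝ) ^ (-δ) * S.card ≤ K / 2 := by
      have h1 : (S.card : ℝ) ≤ 2 * (K * b) := by nlinarith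
      have h2 : (q : ℝ) ^ (-δ) * (q : ℝ) ^ δ = 1 := by
        rw [← Real.rpow_add hq0, neg_add_cancel, Real.rpow_zero]
      have h3 : 0 < (q : ℝ) ^ (-δ) := Real.rpow_pos_of_pos hq0 _
      have h4 : 8 * (q : ℝ) ^ (δ / 2) ≤ (q : ℝ) ^ δ := by
        rw [hδδ]
        exact mul_le_mul_of_nonneg_right hq8 (by positivity)
      have h5 : (q : ℝ) ^ (-δ) * (4 * b) ≤ 1 := by
        rw [← h2]
        refine mul_le_mul_of_nonneg_left ?_ h3.le
        linarith
      have hK0 : (0 : ℝ) ≤ K := Nat.cast_nonneg _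
      calc (q : ℝ) ^ (-δ) * S.card ≤ (q : ℝ) ^ (-δ) * (2 * (K * b)) :=
            mul_le_mul_of_nonneg_left h1 h3.le
        _ = ((q : ℝ) ^ (-δ) * (4 * b)) * (K / 2) := by ring
        _ ≤ 1 * (K / 2) := mul_le_mul_of_nonneg_right h5 (by positivity)
        _ = K / 2 := one_mul _
    refine le_trans ?_ (few_le (S := S) (V := V) (η := Real.exp (-(c₁ * x)) * q.totient) hK1 hKb hKS ?_)
    · have hsub : (univ : Finset (DirichletCharacter ℂ q)).filter
          (fun χ => ((lrg S V χ).card : ℝ) < (q : ℝ) ^ (-δ) * S.card) ⊆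
          (univ : Finset (DirichletCharacter ℂ q)).filter
          (fun χ => ((lrg S V χ).card : ℝ) < K / 2) := by
        intro χ hχ
        rw [mem_filter] at hχ ⊢
        exact ⟨hχ.1, lt_of_lt_of_le hχ.2 hthr⟩
      exact_mod_cast card_le_card hsub
    · intro t ht
      rw [hx]
      refine hm t ?_ V hV1 ?_
      · have h1 : (q : ℝ) ^ (2 * min (δ / 4) (1 / 4)) ≤ (q : ℝ) ^ (δ / 2) := by
          refine Real.rpow_le_rpow_of_exponent_le hq1 ?_
          have := min_le_left (δ / 4) (1 / 4)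
          linarith
        have h2 : (b : ℝ) ≤ t.card := by exact_mod_cast ht
        linarith
      · refine hV2.trans (mul_le_mul_of_nonneg_right ?_ hsq0)
        linarith
  -- all the sets
  have hunion : (univ : Finset (DirichletCharacter ℂ q)).filter
      (fun χ => ∃ S ∈ F, ((lrg S V χ).card : ℝ) < (q : ℝ) ^ (-δ) * S.card) ⊆
      F.biUnion (fun S => (univ : Finset (DirichletCharacter ℂ q)).filter
        (fun χ => ((lrg S V χ).card : ℝ) < (q : ℝ) ^ (-δ) * S.card)) := by
    intro χ hχ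
    rw [mem_filter] at hχ
    obtain ⟨-, S, hS, h1⟩ := hχ
    rw [mem_biUnion]
    exact ⟨S, hS, mem_filter.2 ⟨mem_univ _, h1⟩⟩
  have hcard : (((univ : Finset (DirichletCharacter ℂ q)).filter
      (fun χ => ∃ S ∈ F, ((lrg S V χ).card : ℝ) < (q : ℝ) ^ (-δ) * S.card)).card : ℝ) ≤
      F.card * (2 * (Real.exp (-(c₁ * x)) * q.totient)) := by
    calc _ ≤ ((F.biUnion (fun S => (univ : Finset (DirichletCharacter ℂ q)).filter
        (fun χ => ((lrg S V χ).card : ℝ) < (q : ℝ) ^ (-δ) * S.card))).card : ℝ) := by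
          exact_mod_cast card_le_card hunion
      _ ≤ ∑ S ∈ F, (((univ : Finset (DirichletCharacter ℂ q)).filter
        (fun χ => ((lrg S V χ).card : ℝ) < (q : ℝ) ^ (-δ) * S.card)).card : ℝ) := by
          exact_mod_cast card_biUnion_le
      _ ≤ ∑ S ∈ F, 2 * (Real.exp (-(c₁ * x)) * q.totient) := sum_le_sum hone
      _ = _ := by rw [sum_const, nsmul_eq_mul]
  refine hcard.trans ?_
  have h2 : (2 : ℝ) ≤ Real.exp (c * x) := by
    have hcx : 4 ≤ c * x * 4 := by
      -- `c x ≥ log log q / c ≥ 4 log log q`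
      have h3 : c * (c * x) ≥ 1 := by
        have : c ^ 2 * x = c * (c * x) := by ring
        rw [← this]
        linarith
      have h4 : 0 ≤ c * x := by positivity
      nlinarith
    have h3 : 1 ≤ c * x := by linarith
    have h4 : Real.exp 1 ≤ Real.exp (c * x) := Real.exp_le_exp.2 h3
    have h5 := Real.exp_one_gt_d9
    linarith
  have h3 : c * x * 4 ≤ c₁ * x := by
    have : 0 ≤ x := by linarith
    nlinarith
  calc (F.card : ℝ) * (2 * (Real.exp (-(c₁ * x)) * q.totient))
      ≤ Real.exp (c * x) * (Real.exp (c * x) * (Real.exp (-(c * x * 4)) * q.totient)) := by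
        gcongr
    _ = (Real.exp (c * x) * Real.exp (c * x) * Real.exp (-(c * x * 4))) * q.totient := by ring
    _ = Real.exp (c * x + c * x + -(c * x * 4)) * q.totient := by rw [← Real.exp_add, ← Real.exp_add]
    _ ≤ Real.exp (-(c * x)) * q.totient := by
        refine mul_le_mul_of_nonneg_right (Real.exp_le_exp.2 ?_) hφ0
        have : 0 ≤ c * x := by
          have : 0 ≤ x := by linarith
          positivity
        linarith

end Pool.Agent.H681.TS
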