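import Pool.Agent.H681.TS.C1

/-!
# Indexed families of characters
-/

set_option autoImplicit false

namespace Pool.Agent.H681.TS

open Finset Filter Pool.Agent.Q237.LV
open scoped Classical

/-- disjoint subsets on which `f` is injective -/
theorem exists_blocks {ι X : Type*} (A : Finset ι) (f : ι → X) {M b : ℕ}
    (hM : ∀ x, (A.filter (fun i => f i = x)).card ≤ M) (n : ℕ) (h : n * b + b * M ≤ A.card) :
    ∃ t : Fin n → Finset ι, (∀ j, t j ⊆ A ∧ (t j).card = b ∧ Set.InjOn f (t j)) ∧
      ∀ j j', j ≠ j' → Disjoint (t j) (t j') := by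
  rcases isEmpty_or_nonempty ι with he | hne
  · have hA : A = ∅ := eq_empty_of_isEmpty A
    rw [hA, card_empty] at h
    rcases Nat.eq_zero_or_pos n with hn | hn
    · subst hn
      exact ⟨fun j => j.elim0, fun j => j.elim0, fun j => j.elim0⟩
    · have hb : b = 0 := by
        have h1 : 1 * b ≤ n * b := Nat.mul_le_mul_right b hn
        omega
      subst hb
      exact ⟨fun _ => ∅, fun _ => ⟨empty_subset _, card_empty, by simp⟩, fun _ _ _ => disjoint_empty_left _⟩
  induction n with
  | zero => exact ⟨fun j => j.elim0, fun j => j.elim0, fun j => j.elim0⟩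
  | succ n ih =>
    obtain ⟨t, ht1, ht2⟩ := ih (by
      have : n * b ≤ (n + 1) * b := Nat.mul_le_mul_right b (by omega)
      omega)
    obtain ⟨R, hR⟩ : ∃ R : Finset ι, R = A \ univ.biUnion t := ⟨_, rfl⟩
    have hU : (univ.biUnion t).card ≤ n * b := by
      refine card_biUnion_le.trans ?_
      rw [sum_congr rfl fun j _ => (ht1 j).2.1, sum_const, card_univ, Fintype.card_fin, smul_eq_mul]
    have hRc : b + b * M ≤ R.card := by
      have h1 : A.card - (univ.biUnion t).card ≤ R.card := by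
        rw [hR]
        exact le_card_sdiff _ _
      have h2 : (n + 1) * b = n * b + b := by ring
      omega
    have himg : b ≤ (R.image f).card := by
      by_contra hcon
      have hcon' : (R.image f).card + 1 ≤ b := by omega
      have h1 : R.card ≤ M * (R.image f).card := by
        refine card_le_mul_card_image R M fun x _ => ?_
        refine le_trans (card_le_card ?_) (hM x)
        intro i hi
        rw [mem_filter] at hi ⊢
        rw [hR, Finset.mem_sdiff] at hi
        exact ⟨hi.1.1, hi.2⟩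
      have h2 : M * (R.image f).card ≤ M * b := Nat.mul_le_mul_left M (by omega)
      have h3 : M * b = b * M := mul_comm _ _
      omega
    obtain ⟨u, hu1, hu2⟩ := exists_subset_card_eq himg
    have hch : ∀ x ∈ u, ∃ i ∈ R, f i = x := fun x hx => by
      have := hu1 hx
      rwa [mem_image] at this
    choose! g hg1 hg2 using hch
    have hinj : Set.InjOn g (u : Set X) := by
      intro x hx x' hx' hxx
      rw [← hg2 x hx, ← hg2 x' hx', hxx]
    refine ⟨Fin.cons (u.image g) t, ?_, ?_⟩
    · intro j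
      refine Fin.cases ?_ (fun j => ?_) j
      · rw [Fin.cons_zero]
        refine ⟨?_, ?_, ?_⟩
        · intro i hi
          rw [mem_image] at hi
          obtain ⟨x, hx, rfl⟩ := hi
          have := hg1 x hx
          rw [hR, Finset.mem_sdiff] at this
          exact this.1
        · rw [card_image_of_injOn hinj, hu2]
        · intro i hi i' hi' hii
          rw [mem_coe, mem_image] at hi hi'
          obtain ⟨x, hx, rfl⟩ := hi
          obtain ⟨x', hx', rfl⟩ := hi'
          rw [hg2 x hx, hg2 x' hx'] at hii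
          rw [hii]
      · rw [Fin.cons_succ]
        exact ht1 j
    · have hdis : ∀ j : Fin n, Disjoint (u.image g) (t j) := by
        intro j
        rw [disjoint_left]
        intro i hi hj
        rw [mem_image] at hi
        obtain ⟨x, hx, rfl⟩ := hi
        have := hg1 x hx
        rw [hR, Finset.mem_sdiff] at this
        exact this.2 (mem_biUnion.2 ⟨j, mem_univ _, hj⟩)
      intro j j'
      refine Fin.cases ?_ (fun j => ?_) j
      · refine Fin.cases ?_ (fun j' => ?_) j'
        · intro h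
          exact absurd rfl h
        · intro _
          rw [Fin.cons_zero, Fin.cons_succ]
          exact hdis j'
      · refine Fin.cases ?_ (fun j' => ?_) j'
        · intro _
          rw [Fin.cons_zero, Fin.cons_succ]
          exact (hdis j).symm
        · intro h
          rw [Fin.cons_succ, Fin.cons_succ]
          exact ht2 j j' (fun h1 => h (by rw [h1]))

section

variable {q : ℕ} [Fact q.Prime]

/-- the indices with a large central value at `χ f(i)` -/
noncomputable def lrgI {ι : Type*} (A : Finset ι) (f : ι → DirichletCharacter ℂ q) (V : ℝ)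
    (χ : DirichletCharacter ℂ q) : Finset ι :=
  A.filter (fun i => χ * f i ≠ 1 ∧ Real.exp V ≤ ‖(χ * f i).LFunction (1 / 2)‖)

/-- few large values in an indexed family -/
theorem few_leI {ι : Type*} [Nonempty ι] {A : Finset ι} {f : ι → DirichletCharacter ℂ q} {V η : ℝ} {b K M : ℕ}
    (hK : 1 ≤ K) (hM : ∀ x, (A.filter (fun i => f i = x)).card ≤ M) (hb : K * b + b * M ≤ A.card)
    (h : ∀ t : Finset (DirichletCharacter ℂ q), b ≤ t.card → ((badV t V).card : ℝ) ≤ η) :
    (((univ : Finset (DirichletCharacter ℂ q)).filter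
      (fun χ => ((lrgI A f V χ).card : ℝ) < K / 2)).card : ℝ) ≤ 2 * η := by
  obtain ⟨t, ht1, ht2⟩ := exists_blocks A f (M := M) (fun x => by convert hM x) K hb
  have hcard : ∀ j, ((t j).image f).card = b := fun j => by
    rw [card_image_of_injOn (ht1 j).2.2, (ht1 j).2.1]
  have hcount : ∀ χ : DirichletCharacter ℂ q,
      (K : ℝ) - (((univ : Finset (Fin K)).filter (fun j => χ ∈ badV ((t j).image f) V)).card : ℝ) ≤
        (lrgI A f V χ).card := by
    intro χ
    have h1 : ((univ : Finset (Fin K)).filter (fun j => χ ∉ badV ((t j).image f) V)).card ≤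
        (lrgI A f V χ).card := by
      have h2 : ∀ j ∈ (univ : Finset (Fin K)).filter (fun j => χ ∉ badV ((t j).image f) V),
          ∃ i ∈ t j, i ∈ lrgI A f V χ := by
        intro j hj
        rw [mem_filter] at hj
        have h3 := hj.2
        unfold badV at h3
        rw [mem_filter, not_and] at h3
        have h4 := h3 (mem_univ _)
        push Not at h4
        obtain ⟨ψ, h5, h6, h7⟩ := h4
        rw [mem_image] at h5
        obtain ⟨i, hi, rfl⟩ := h5
        refine ⟨i, hi, ?_⟩
        unfold lrgI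
        rw [mem_filter]
        exact ⟨(ht1 j).1 hi, h6, h7⟩
      choose! g hg1 hg2 using h2
      refine card_le_card_of_injOn g (fun j hj => hg2 j hj) ?_
      intro j hj j' hj' hgg
      rw [mem_coe] at hj hj'
      by_contra hne
      exact (disjoint_left.1 (ht2 j j' hne)) (hg1 j hj) (hgg ▸ hg1 j' hj')
    have h2 : ((univ : Finset (Fin K)).filter (fun j => χ ∈ badV ((t j).image f) V)).card +
        ((univ : Finset (Fin K)).filter (fun j => χ ∉ badV ((t j).image f) V)).card = K := by
      rw [card_filter_add_card_filter_not, card_univ, Fintype.card_fin]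
    have h3 : (((univ : Finset (Fin K)).filter (fun j => χ ∈ badV ((t j).image f) V)).card : ℝ) +
        (((univ : Finset (Fin K)).filter (fun j => χ ∉ badV ((t j).image f) V)).card : ℝ) = K := by
      exact_mod_cast h2
    have h4 : (((univ : Finset (Fin K)).filter (fun j => χ ∉ badV ((t j).image f) V)).card : ℝ) ≤
        (lrgI A f V χ).card := by
      exact_mod_cast h1
    linarith
  have hsum : ∑ χ : DirichletCharacter ℂ q,
      (((univ : Finset (Fin K)).filter (fun j => χ ∈ badV ((t j).image f) V)).card : ℝ) ≤ K * η := by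
    have h1 : ∀ χ : DirichletCharacter ℂ q,
        (((univ : Finset (Fin K)).filter (fun j => χ ∈ badV ((t j).image f) V)).card : ℝ) =
        ∑ j : Fin K, if χ ∈ badV ((t j).image f) V then (1 : ℝ) else 0 := by
      intro χ
      rw [← sum_filter, sum_const, nsmul_eq_mul, mul_one]
    rw [sum_congr rfl fun χ _ => h1 χ, sum_comm]
    calc ∑ j : Fin K, ∑ χ : DirichletCharacter ℂ q, (if χ ∈ badV ((t j).image f) V then (1 : ℝ) else 0)
        ≤ ∑ _j : Fin K, η := by
          refine sum_le_sum fun j _ => ?_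
          rw [← sum_filter, sum_const, nsmul_eq_mul, mul_one]
          refine le_trans (le_of_eq ?_) (h ((t j).image f) (hcard j).ge)
          congr 2
          ext χ
          simp
      _ = K * η := by rw [sum_const, card_univ, Fintype.card_fin, nsmul_eq_mul]
  have hK0 : (0 : ℝ) < K := by exact_mod_cast hK
  have hsub : (univ : Finset (DirichletCharacter ℂ q)).filter (fun χ => ((lrgI A f V χ).card : ℝ) < K / 2) ⊆
      (univ : Finset (DirichletCharacter ℂ q)).filter (fun χ => (K : ℝ) / 2 ≤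
        (((univ : Finset (Fin K)).filter (fun j => χ ∈ badV ((t j).image f) V)).card : ℝ)) := by
    intro χ hχ
    rw [mem_filter] at hχ ⊢
    refine ⟨mem_univ _, ?_⟩
    have := hcount χ
    linarith [hχ.2]
  calc (((univ : Finset (DirichletCharacter ℂ q)).filter
      (fun χ => ((lrgI A f V χ).card : ℝ) < K / 2)).card : ℝ)
      ≤ (((univ : Finset (DirichletCharacter ℂ q)).filter (fun χ => (K : ℝ) / 2 ≤
        (((univ : Finset (Fin K)).filter (fun j => χ ∈ badV ((t j).image f) V)).card : ℝ))).card : ℝ) := by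
        exact_mod_cast card_le_card hsub
    _ ≤ (∑ χ : DirichletCharacter ℂ q,
        (((univ : Finset (Fin K)).filter (fun j => χ ∈ badV ((t j).image f) V)).card : ℝ)) / (K / 2) :=
        markov _ _ (fun χ _ => Nat.cast_nonneg _) (by positivity)
    _ ≤ (K * η) / (K / 2) := by gcongr
    _ = 2 * η := by field_simp

end

/-- facts on the parameters -/
theorem xge {q : ℕ} {c V : ℝ} (hc0 : 0 < c) (hc4 : c ≤ 1 / 4) (hL1 : 1 ≤ Real.log q)
    (hLL : 1 ≤ Real.log (Real.log q)) (hV1 : Real.log q ^ (1 / 3 : ℝ) ≤ V)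
    (hV2 : V ≤ c * Real.sqrt (Real.log q / Real.log (Real.log q))) :
    1 ≤ c * (Real.log q / V ^ 2) := by
  have hL0 : 0 < Real.log q := by linarith
  have hV0 : 0 < V := lt_of_lt_of_le (Real.rpow_pos_of_pos hL0 _) hV1
  have hLL0 : 0 < Real.log (Real.log q) := by linarith
  have h1 : V ^ 2 ≤ c ^ 2 * (Real.log q / Real.log (Real.log q)) := by
    calc V ^ 2 ≤ (c * Real.sqrt (Real.log q / Real.log (Real.log q))) ^ 2 :=
          pow_le_pow_left₀ hV0.le hV2 2
      _ = _ := by
          rw [mul_pow, Real.sq_sqrt (by positivity)]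
  have h2 : Real.log (Real.log q) ≤ c ^ 2 * (Real.log q / V ^ 2) := by
    rw [← mul_div_assoc, le_div_iff₀ (by positivity)]
    calc Real.log (Real.log q) * V ^ 2 ≤
        Real.log (Real.log q) * (c ^ 2 * (Real.log q / Real.log (Real.log q))) := by gcongr
      _ = c ^ 2 * Real.log q := by field_simp
  have h3 : c ^ 2 * (Real.log q / V ^ 2) = c * (c * (Real.log q / V ^ 2)) := by ring
  have h4 : 0 ≤ c * (Real.log q / V ^ 2) := by positivity
  nlinarith

/-- **One step**: an indexed family of characters -/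
theorem one_step (δ : ℝ) (hδ : 0 < δ) : ∃ c : ℝ, 0 < c ∧ c ≤ 1 / 4 ∧ ∀ᶠ q : ℕ in atTop,
    ∀ [Fact q.Prime], ∀ V : ℝ, Real.log q ^ (1 / 3 : ℝ) ≤ V →
      V ≤ c * Real.sqrt (Real.log q / Real.log (Real.log q)) →
      ∀ (ι : Type) (A : Finset ι) (f : ι → DirichletCharacter ℂ q),
        (∀ φ, ((A.filter (fun i => f i = φ)).card : ℝ) ≤ (q : ℝ) ^ (-δ) * A.card) →
        (((univ : Finset (DirichletCharacter ℂ q)).filter
          (fun χ => ((lrgI A f V χ).card : ℝ) < (q : ℝ) ^ (-δ) * A.card)).card : ℝ) ≤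
            Real.exp (-(c * (Real.log q / V ^ 2))) * q.totient := by
  obtain ⟨c₁, hc₁, hmain⟩ := main_smallF (min (δ / 4) (1 / 4)) (by positivity) (min_le_right _ _)
  refine ⟨min (c₁ / 4) (1 / 4), by positivity, min_le_right _ _, ?_⟩
  filter_upwards [hmain, ev1 16 (δ / 2) (by positivity), ev4 1, ev3 1, eventually_ge_atTop 3]
    with q hm hq8 hLL hL1 hq3
  intro _ V hV1 hV2 ι A f hf
  set c : ℝ := min (c₁ / 4) (1 / 4) with hc
  have hc0 : 0 < c := by rw [hc]; positivity
  have hcc : c ≤ c₁ / 4 := min_le_left _ _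
  have hc4 : c ≤ 1 / 4 := min_le_right _ _
  have hcx := xge hc0 hc4 hL1 hLL hV1 hV2
  have hq1 : (1 : ℝ) ≤ q := by
    have : 1 ≤ q := by omega
    exact_mod_cast this
  have hq0 : (0 : ℝ) < q := by linarith
  have hφ0 : (0 : ℝ) ≤ q.totient := Nat.cast_nonneg _
  have hsq0 : 0 ≤ Real.sqrt (Real.log q / Real.log (Real.log q)) := Real.sqrt_nonneg _
  obtain ⟨x, hx⟩ : ∃ x : ℝ, x = Real.log q / V ^ 2 := ⟨_, rfl⟩
  rw [← hx] at hcx ⊢
  rcases A.eq_empty_or_nonempty with hA | hA
  · have h0 : (univ : Finset (DirichletCharacter ℂ q)).filter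
        (fun χ => ((lrgI A f V χ).card : ℝ) < (q : ℝ) ^ (-δ) * A.card) = ∅ := by
      rw [filter_eq_empty_iff]
      intro χ _ h
      rw [hA, card_empty, Nat.cast_zero, mul_zero] at h
      exact absurd h (not_lt.2 (Nat.cast_nonneg _))
    rw [h0, card_empty, Nat.cast_zero]
    positivity
  -- the size of the fibres
  obtain ⟨M, hM⟩ : ∃ M : ℕ, M = ⌊(q : ℝ) ^ (-δ) * A.card⌋₊ := ⟨_, rfl⟩
  have hMf : ∀ φ, (A.filter (fun i => f i = φ)).card ≤ M := fun φ => by
    rw [hM]
    exact Nat.le_floor (hf φ)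
  have hMr : (M : ℝ) ≤ (q : ℝ) ^ (-δ) * A.card := by
    rw [hM]
    exact Nat.floor_le (by positivity)
  have hδδ : (q : ℝ) ^ δ = (q : ℝ) ^ (δ / 2) * (q : ℝ) ^ (δ / 2) := by
    rw [← Real.rpow_add hq0]
    congr 1
    ring
  have h2 : (q : ℝ) ^ (-δ) * (q : ℝ) ^ δ = 1 := by
    rw [← Real.rpow_add hq0, neg_add_cancel, Real.rpow_zero]
  have h3 : 0 < (q : ℝ) ^ (-δ) := Real.rpow_pos_of_pos hq0 _
  have hAc : (q : ℝ) ^ δ ≤ A.card := by
    obtain ⟨i, hi⟩ := hA
    have h4 : (1 : ℝ) ≤ ((A.filter (fun j => f j = f i)).card : ℝ) := by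
      have : 1 ≤ (A.filter (fun j => f j = f i)).card :=
        card_pos.2 ⟨i, mem_filter.2 ⟨hi, rfl⟩⟩
      exact_mod_cast this
    have h5 := h4.trans (hf (f i))
    calc (q : ℝ) ^ δ = (q : ℝ) ^ δ * 1 := by ring
      _ ≤ (q : ℝ) ^ δ * ((q : ℝ) ^ (-δ) * A.card) := by gcongr
      _ = ((q : ℝ) ^ (-δ) * (q : ℝ) ^ δ) * A.card := by ring
      _ = A.card := by rw [h2, one_mul]
  obtain ⟨b, hb⟩ : ∃ b : ℕ, b = ⌈(q : ℝ) ^ (δ / 2)⌉₊ := ⟨_, rfl⟩
  have hb1 : (q : ℝ) ^ (δ / 2) ≤ b := by rw [hb]; exact Nat.le_ceil _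
  have hb2 : (b : ℝ) ≤ 2 * (q : ℝ) ^ (δ / 2) := by
    have h1 : (b : ℝ) < (q : ℝ) ^ (δ / 2) + 1 := by
      rw [hb]
      exact Nat.ceil_lt_add_one (by positivity)
    linarith
  have hb0 : (0 : ℝ) < b := by linarith
  have hb0' : 0 < b := by exact_mod_cast hb0
  have hA0 : (0 : ℝ) < A.card := by exact_mod_cast hA.card_pos
  -- `8 b ≤ q ^ δ`
  have h8b : 8 * (b : ℝ) ≤ (q : ℝ) ^ δ := by
    rw [hδδ]
    nlinarith
  obtain ⟨K, hK⟩ : ∃ K : ℕ, K = (A.card - b * M) / b := ⟨_, rfl⟩
  have hbM : (b : ℝ) * M ≤ A.card / 8 := by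
    have h5 : (b : ℝ) ≤ (q : ℝ) ^ δ / 8 := by linarith
    calc (b : ℝ) * M ≤ ((q : ℝ) ^ δ / 8) * ((q : ℝ) ^ (-δ) * A.card) := by gcongr
      _ = ((q : ℝ) ^ (-δ) * (q : ℝ) ^ δ) * A.card / 8 := by ring
      _ = A.card / 8 := by rw [h2, one_mul]
  have hbM' : b * M ≤ A.card := by
    have h5 : ((b * M : ℕ) : ℝ) ≤ A.card := by
      push_cast
      linarith
    exact_mod_cast h5
  have hKb : K * b + b * M ≤ A.card := by
    have h5 : K * b ≤ A.card - b * M := by
      rw [hK]
      exact Nat.div_mul_le_self _ _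
    omega
  have hK2 : (A.card : ℝ) - b * M < (K + 1) * b := by
    have h5 := Nat.lt_div_mul_add hb0' (a := A.card - b * M)
    have h6 : A.card - b * M < (K + 1) * b := by
      rw [hK, add_mul, one_mul]
      exact h5
    have h7 : ((A.card - b * M : ℕ) : ℝ) < ((K + 1) * b : ℕ) := by exact_mod_cast h6
    rw [Nat.cast_sub hbM'] at h7
    push_cast at h7
    exact h7
  have hKA : (A.card : ℝ) / 2 ≤ K * b := by nlinarith
  have hK1 : 1 ≤ K := by
    by_contra hcon
    have h5 : K = 0 := by omega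
    rw [h5, Nat.cast_zero, zero_mul] at hKA
    linarith
  have hthr : (q : ℝ) ^ (-δ) * A.card ≤ K / 2 := by
    have hK0 : (0 : ℝ) ≤ K := Nat.cast_nonneg _
    have h5 : (q : ℝ) ^ (-δ) * (4 * b) ≤ 1 := by
      rw [← h2]
      refine mul_le_mul_of_nonneg_left ?_ h3.le
      linarith
    calc (q : ℝ) ^ (-δ) * A.card ≤ (q : ℝ) ^ (-δ) * (2 * (K * b)) :=
          mul_le_mul_of_nonneg_left (by linarith) h3.le
      _ = ((q : ℝ) ^ (-δ) * (4 * b)) * (K / 2) := by ring
      _ ≤ 1 * (K / 2) := mul_le_mul_of_nonneg_right h5 (by positivity)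
      _ = K / 2 := one_mul _
  have hne : Nonempty ι := ⟨hA.choose⟩
  have hfew := few_leI (A := A) (f := f) (V := V) (η := Real.exp (-(c₁ * x)) * q.totient) hK1 hMf hKb (by
    intro t ht
    rw [hx]
    refine hm t ?_ V hV1 ?_
    · have h5 : (q : ℝ) ^ (2 * min (δ / 4) (1 / 4)) ≤ (q : ℝ) ^ (δ / 2) := by
        refine Real.rpow_le_rpow_of_exponent_le hq1 ?_
        have := min_le_left (δ / 4) (1 / 4)
        linarith
      have h6 : (b : ℝ) ≤ t.card := by exact_mod_cast ht
      linarith
    · refine hV2.trans (mul_le_mul_of_nonneg_right ?_ hsq0)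
      linarith)
  have hsub : (univ : Finset (DirichletCharacter ℂ q)).filter
      (fun χ => ((lrgI A f V χ).card : ℝ) < (q : ℝ) ^ (-δ) * A.card) ⊆
      (univ : Finset (DirichletCharacter ℂ q)).filter (fun χ => ((lrgI A f V χ).card : ℝ) < K / 2) := by
    intro χ hχ
    rw [mem_filter] at hχ ⊢
    exact ⟨hχ.1, lt_of_lt_of_le hχ.2 hthr⟩
  have hx0 : 0 ≤ x := by
    by_contra hcon
    have : c * x < 0 := mul_neg_of_pos_of_neg hc0 (not_le.1 hcon)
    linarith
  have hexp2 : (2 : ℝ) ≤ Real.exp (c * x) := by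
    have h4 : Real.exp 1 ≤ Real.exp (c * x) := Real.exp_le_exp.2 hcx
    have h5 := Real.exp_one_gt_d9
    linarith
  have h4c : c * x * 4 ≤ c₁ * x := by nlinarith
  calc (((univ : Finset (DirichletCharacter ℂ q)).filter
      (fun χ => ((lrgI A f V χ).card : ℝ) < (q : ℝ) ^ (-δ) * A.card)).card : ℝ)
      ≤ (((univ : Finset (DirichletCharacter ℂ q)).filter
        (fun χ => ((lrgI A f V χ).card : ℝ) < K / 2)).card : ℝ) := by exact_mod_cast card_le_card hsub
    _ ≤ 2 * (Real.exp (-(c₁ * x)) * q.totient) := hfew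
    _ ≤ Real.exp (c * x) * (Real.exp (-(c * x * 4)) * q.totient) := by gcongr
    _ = Real.exp (c * x + -(c * x * 4)) * q.totient := by rw [← mul_assoc, ← Real.exp_add]
    _ ≤ Real.exp (-(c * x)) * q.totient := by
        refine mul_le_mul_of_nonneg_right (Real.exp_le_exp.2 ?_) hφ0
        linarith

end Pool.Agent.H681.TS
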