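import Pool.Agent.H681.TS.C2

/-!
# Simultaneous large values
-/

set_option autoImplicit false

namespace Pool.Agent.H681.TS

open Finset Filter Pool.Agent.Q237.LV
open scoped Classical

section

variable {q : ℕ} [Fact q.Prime]

/-- a nonprincipal character with a large central value -/
def Lg (V : ℝ) (φ : DirichletCharacter ℂ q) : Prop := φ ≠ 1 ∧ Real.exp V ≤ ‖φ.LFunction (1 / 2)‖

/-- the indices at which all the values are large -/
noncomputable def sim {ι : Type*} {k : ℕ} (A : Finset ι) (f : Fin k → ι → DirichletCharacter ℂ q) (V : ℝ)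
    (χ : Fin k → DirichletCharacter ℂ q) : Finset ι :=
  A.filter (fun i => ∀ j, Lg V (χ j * f j i))

theorem sim_cons {ι : Type*} {k : ℕ} (A : Finset ι) (f : Fin (k + 1) → ι → DirichletCharacter ℂ q) (V : ℝ)
    (a : DirichletCharacter ℂ q) (χ : Fin k → DirichletCharacter ℂ q) :
    sim A f V (Fin.cons a χ) = sim (lrgI A (f 0) V a) (fun j => f j.succ) V χ := by
  unfold sim lrgI
  ext i
  simp only [mem_filter, Fin.forall_fin_succ, Fin.cons_zero, Fin.cons_succ, Lg]
  tauto

theorem cardX : (Fintype.card (DirichletCharacter ℂ q) : ℝ) = q.totient := by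
  have h := DirichletCharacter.card_eq_totient_of_hasEnoughRootsOfUnity ℂ q
  rw [Nat.card_eq_fintype_card] at h
  exact_mod_cast h

end

theorem simul (k : ℕ) : ∀ δ : ℝ, 0 < δ → ∃ c : ℝ, 0 < c ∧ c ≤ 1 / 4 ∧ ∀ᶠ q : ℕ in atTop,
    ∀ [Fact q.Prime], ∀ V : ℝ, Real.log q ^ (1 / 3 : ℝ) ≤ V →
      V ≤ c * Real.sqrt (Real.log q / Real.log (Real.log q)) →
      ∀ (ι : Type) (A : Finset ι) (f : Fin k → ι → DirichletCharacter ℂ q),
        (∀ j φ, ((A.filter (fun i => f j i = φ)).card : ℝ) ≤ (q : ℝ) ^ (-δ) * A.card) →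
        (((univ : Finset (Fin k → DirichletCharacter ℂ q)).filter
          (fun χ => ((sim A f V χ).card : ℝ) < (q : ℝ) ^ (-δ) * A.card)).card : ℝ) ≤
            Real.exp (-(c * (Real.log q / V ^ 2))) * (q.totient : ℝ) ^ k := by
  induction k with
  | zero =>
    intro δ hδ
    refine ⟨1 / 4, by norm_num, le_rfl, ?_⟩
    filter_upwards [eventually_ge_atTop 3] with q hq3
    intro _ V _ _ ι A f _
    have hq1 : (1 : ℝ) ≤ q := by
      have : 1 ≤ q := by omega
      exact_mod_cast this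
    have h0 : (univ : Finset (Fin 0 → DirichletCharacter ℂ q)).filter
        (fun χ => ((sim A f V χ).card : ℝ) < (q : ℝ) ^ (-δ) * A.card) = ∅ := by
      rw [filter_eq_empty_iff]
      intro χ _ h
      have h1 : sim A f V χ = A := by
        unfold sim
        rw [filter_true_of_mem]
        intro i _ j
        exact j.elim0
      rw [h1] at h
      have h2 : (q : ℝ) ^ (-δ) ≤ 1 := Real.rpow_le_one_of_one_le_of_nonpos hq1 (by linarith)
      have h3 : (0 : ℝ) ≤ A.card := Nat.cast_nonneg _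
      nlinarith
    rw [h0, card_empty, Nat.cast_zero]
    positivity
  | succ k ih =>
    intro δ hδ
    obtain ⟨c₁, hc₁, hc₁4, h₁⟩ := one_step (δ / 4) (by positivity)
    obtain ⟨c₂, hc₂, hc₂4, h₂⟩ := ih (δ / 2) (by positivity)
    refine ⟨min c₁ c₂ / 2, by positivity, ?_, ?_⟩
    · have := min_le_left c₁ c₂
      linarith
    filter_upwards [h₁, h₂, ev4 1, ev3 1, eventually_ge_atTop 3] with q h₁ h₂ hLL hL1 hq3
    intro _ V hV1 hV2 ι A f hf
    obtain ⟨c, hc⟩ : ∃ c : ℝ, c = min c₁ c₂ / 2 := ⟨_, rfl⟩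
    rw [← hc] at hV2 ⊢
    have hc0 : 0 < c := by rw [hc]; positivity
    have hcc₁ : 2 * c ≤ c₁ := by
      rw [hc]
      have := min_le_left c₁ c₂
      linarith
    have hcc₂ : 2 * c ≤ c₂ := by
      rw [hc]
      have := min_le_right c₁ c₂
      linarith
    have hcx := xge hc0 (by linarith) hL1 hLL hV1 hV2
    have hq1 : (1 : ℝ) ≤ q := by
      have : 1 ≤ q := by omega
      exact_mod_cast this
    have hq0 : (0 : ℝ) < q := by linarith
    have hsq0 : 0 ≤ Real.sqrt (Real.log q / Real.log (Real.log q)) := Real.sqrt_nonneg _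
    have hA0 : (0 : ℝ) ≤ A.card := Nat.cast_nonneg _
    have hφ0 : (0 : ℝ) ≤ q.totient := Nat.cast_nonneg _
    have hmul : ∀ a b : ℝ, (q : ℝ) ^ a * (q : ℝ) ^ b = (q : ℝ) ^ (a + b) := fun a b =>
      (Real.rpow_add hq0 a b).symm
    have hmono : ∀ a b : ℝ, a ≤ b → (q : ℝ) ^ a ≤ (q : ℝ) ^ b := fun a b h =>
      Real.rpow_le_rpow_of_exponent_le hq1 h
    have hpos : ∀ a : ℝ, 0 < (q : ℝ) ^ a := fun a => Real.rpow_pos_of_pos hq0 a
    obtain ⟨x, hx⟩ : ∃ x : ℝ, x = Real.log q / V ^ 2 := ⟨_, rfl⟩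
    have hV0 : V ≤ c₁ * Real.sqrt (Real.log q / Real.log (Real.log q)) :=
      hV2.trans (mul_le_mul_of_nonneg_right (by linarith) hsq0)
    have hV0' : V ≤ c₂ * Real.sqrt (Real.log q / Real.log (Real.log q)) :=
      hV2.trans (mul_le_mul_of_nonneg_right (by linarith) hsq0)
    have hone := h₁ V hV1 hV0 ι A (f 0) (fun φ => (hf 0 φ).trans
      (mul_le_mul_of_nonneg_right (hmono _ _ (by linarith)) hA0))
    obtain ⟨E₁, hE₁⟩ : ∃ E₁ : Finset (DirichletCharacter ℂ q), E₁ = univ.filter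
      (fun χ => ((lrgI A (f 0) V χ).card : ℝ) < (q : ℝ) ^ (-(δ / 4)) * A.card) := ⟨_, rfl⟩
    rw [← hE₁, ← hx] at hone
    rw [← hx] at hcx ⊢
    -- the tuples
    obtain ⟨B, hB⟩ : ∃ B : (Fin (k + 1) → DirichletCharacter ℂ q) → ℝ, B = fun χ =>
      if ((sim A f V χ).card : ℝ) < (q : ℝ) ^ (-δ) * A.card then 1 else 0 := ⟨_, rfl⟩
    have hcard : (((univ : Finset (Fin (k + 1) → DirichletCharacter ℂ q)).filter
        (fun χ => ((sim A f V χ).card : ℝ) < (q : ℝ) ^ (-δ) * A.card)).card : ℝ) =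
        ∑ a : DirichletCharacter ℂ q, ∑ χ : Fin k → DirichletCharacter ℂ q, B (Fin.cons a χ) := by
      have e1 : (((univ : Finset (Fin (k + 1) → DirichletCharacter ℂ q)).filter
          (fun χ => ((sim A f V χ).card : ℝ) < (q : ℝ) ^ (-δ) * A.card)).card : ℝ) =
          ∑ χ : Fin (k + 1) → DirichletCharacter ℂ q, B χ := by
        rw [hB, ← sum_filter, sum_const, nsmul_eq_mul, mul_one]
      rw [e1, ← Fintype.sum_prod_type' (f := fun a χ => B (Fin.cons a χ))]
      exact (Fintype.sum_equiv (Fin.consEquiv (fun _ : Fin (k + 1) => DirichletCharacter ℂ q)) _ _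
        fun z => rfl).symm
    have hcX : ((univ : Finset (Fin k → DirichletCharacter ℂ q)).card : ℝ) = (q.totient : ℝ) ^ k := by
      rw [card_univ, Fintype.card_fun, Fintype.card_fin]
      push_cast
      rw [cardX]
    have hB1 : ∀ χ, B χ ≤ 1 := by
      intro χ
      rw [hB]
      simp only
      split_ifs
      · exact le_rfl
      · exact zero_le_one
    have hin1 : ∀ a ∈ E₁, ∑ χ : Fin k → DirichletCharacter ℂ q, B (Fin.cons a χ) ≤
        (q.totient : ℝ) ^ k := by
      intro a _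
      rw [← hcX]
      calc ∑ χ : Fin k → DirichletCharacter ℂ q, B (Fin.cons a χ) ≤
          ∑ _χ : Fin k → DirichletCharacter ℂ q, (1 : ℝ) := sum_le_sum fun χ _ => hB1 _
        _ = _ := by rw [sum_const, nsmul_eq_mul, mul_one]
    have hin2 : ∀ a ∉ E₁, ∑ χ : Fin k → DirichletCharacter ℂ q, B (Fin.cons a χ) ≤
        Real.exp (-(c₂ * x)) * (q.totient : ℝ) ^ k := by
      intro a ha
      rw [hE₁, mem_filter, not_and] at ha
      have ha' := not_lt.1 (ha (mem_univ _))
      have hA' : (A.card : ℝ) ≤ (q : ℝ) ^ (δ / 4) * (lrgI A (f 0) V a).card := by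
        calc (A.card : ℝ) = (q : ℝ) ^ (δ / 4) * ((q : ℝ) ^ (-(δ / 4)) * A.card) := by
              rw [← mul_assoc, hmul, add_neg_cancel, Real.rpow_zero, one_mul]
          _ ≤ _ := mul_le_mul_of_nonneg_left ha' (hpos _).le
      have h3 := h₂ V hV1 hV0' ι (lrgI A (f 0) V a) (fun j => f j.succ) (by
        intro j φ
        have h4 : (((lrgI A (f 0) V a).filter (fun i => f j.succ i = φ)).card : ℝ) ≤
            (A.filter (fun i => f j.succ i = φ)).card := by
          have : ((lrgI A (f 0) V a).filter (fun i => f j.succ i = φ)).card ≤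
              (A.filter (fun i => f j.succ i = φ)).card := by
            refine card_le_card fun i hi => ?_
            rw [mem_filter] at hi ⊢
            refine ⟨?_, hi.2⟩
            have h5 := hi.1
            unfold lrgI at h5
            exact (mem_filter.1 h5).1
          exact_mod_cast this
        refine h4.trans ((hf j.succ φ).trans ?_)
        have hl0 : (0 : ℝ) ≤ (lrgI A (f 0) V a).card := Nat.cast_nonneg _
        calc (q : ℝ) ^ (-δ) * A.card ≤ (q : ℝ) ^ (-δ) * ((q : ℝ) ^ (δ / 4) * (lrgI A (f 0) V a).card) :=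
              mul_le_mul_of_nonneg_left hA' (hpos _).le
          _ = (q : ℝ) ^ (-δ + δ / 4) * (lrgI A (f 0) V a).card := by rw [← mul_assoc, hmul]
          _ ≤ (q : ℝ) ^ (-(δ / 2)) * (lrgI A (f 0) V a).card :=
              mul_le_mul_of_nonneg_right (hmono _ _ (by linarith)) hl0)
      rw [← hx] at h3
      refine le_trans ?_ h3
      have h4 : ∑ χ : Fin k → DirichletCharacter ℂ q, B (Fin.cons a χ) ≤
          ∑ χ : Fin k → DirichletCharacter ℂ q,
            if ((sim (lrgI A (f 0) V a) (fun j => f j.succ) V χ).card : ℝ) <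
              (q : ℝ) ^ (-(δ / 2)) * (lrgI A (f 0) V a).card then (1 : ℝ) else 0 := by
        refine sum_le_sum fun χ _ => ?_
        rw [hB]
        simp only
        rw [sim_cons]
        by_cases h5 : ((sim (lrgI A (f 0) V a) (fun j => f j.succ) V χ).card : ℝ) <
            (q : ℝ) ^ (-(δ / 2)) * (lrgI A (f 0) V a).card
        · rw [if_pos h5]
          split_ifs
          · exact le_rfl
          · exact zero_le_one
        · rw [if_neg h5, if_neg]
          rw [not_lt] at h5 ⊢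
          refine le_trans ?_ h5
          calc (q : ℝ) ^ (-δ) * A.card ≤
              (q : ℝ) ^ (-δ) * ((q : ℝ) ^ (δ / 4) * (lrgI A (f 0) V a).card) :=
                mul_le_mul_of_nonneg_left hA' (hpos _).le
            _ = (q : ℝ) ^ (-δ + δ / 4) * (lrgI A (f 0) V a).card := by rw [← mul_assoc, hmul]
            _ ≤ (q : ℝ) ^ (-(δ / 2)) * (lrgI A (f 0) V a).card :=
                mul_le_mul_of_nonneg_right (hmono _ _ (by linarith)) (Nat.cast_nonneg _)
      refine h4.trans (le_of_eq ?_)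
      rw [← sum_filter, sum_const, nsmul_eq_mul, mul_one]
    have hexp2 : (2 : ℝ) ≤ Real.exp (c * x) := by
      have h4 : Real.exp 1 ≤ Real.exp (c * x) := Real.exp_le_exp.2 hcx
      have h5 := Real.exp_one_gt_d9
      linarith
    have hx0 : 0 ≤ x := by
      by_contra hcon
      have : c * x < 0 := mul_neg_of_pos_of_neg hc0 (not_le.1 hcon)
      linarith
    rw [hcard, ← sum_add_sum_compl E₁]
    have hs1 : ∑ a ∈ E₁, ∑ χ : Fin k → DirichletCharacter ℂ q, B (Fin.cons a χ) ≤
        (Real.exp (-(c₁ * x)) * q.totient) * (q.totient : ℝ) ^ k := by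
      refine (sum_le_sum hin1).trans ?_
      rw [sum_const, nsmul_eq_mul]
      exact mul_le_mul_of_nonneg_right hone (by positivity)
    have hs2 : ∑ a ∈ E₁ᶜ, ∑ χ : Fin k → DirichletCharacter ℂ q, B (Fin.cons a χ) ≤
        q.totient * (Real.exp (-(c₂ * x)) * (q.totient : ℝ) ^ k) := by
      refine (sum_le_sum fun a ha => hin2 a (mem_compl.1 ha)).trans ?_
      rw [sum_const, nsmul_eq_mul]
      refine mul_le_mul_of_nonneg_right ?_ (by positivity)
      rw [← cardX, ← card_univ]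
      exact_mod_cast card_le_card (subset_univ _)
    have he1 : Real.exp (-(c₁ * x)) ≤ Real.exp (-(2 * c * x)) := Real.exp_le_exp.2 (by nlinarith)
    have he2 : Real.exp (-(c₂ * x)) ≤ Real.exp (-(2 * c * x)) := Real.exp_le_exp.2 (by nlinarith)
    calc ∑ a ∈ E₁, ∑ χ : Fin k → DirichletCharacter ℂ q, B (Fin.cons a χ) +
          ∑ a ∈ E₁ᶜ, ∑ χ : Fin k → DirichletCharacter ℂ q, B (Fin.cons a χ)
        ≤ (Real.exp (-(c₁ * x)) * q.totient) * (q.totient : ℝ) ^ k +
          q.totient * (Real.exp (-(c₂ * x)) * (q.totient : ℝ) ^ k) := add_le_add hs1 hs2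
      _ = (Real.exp (-(c₁ * x)) + Real.exp (-(c₂ * x))) * (q.totient : ℝ) ^ (k + 1) := by ring
      _ ≤ (Real.exp (-(2 * c * x)) + Real.exp (-(2 * c * x))) * (q.totient : ℝ) ^ (k + 1) := by gcongr
      _ = 2 * Real.exp (-(2 * c * x)) * (q.totient : ℝ) ^ (k + 1) := by ring
      _ ≤ Real.exp (c * x) * Real.exp (-(2 * c * x)) * (q.totient : ℝ) ^ (k + 1) := by gcongr
      _ = Real.exp (-(c * x)) * (q.totient : ℝ) ^ (k + 1) := by
          rw [← Real.exp_add]
          congr 2
          ring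

/-- several families at once -/
theorem simul_many (k : ℕ) (δ : ℝ) (hδ : 0 < δ) : ∃ c : ℝ, 0 < c ∧ ∀ᶠ q : ℕ in atTop,
    ∀ [Fact q.Prime], ∀ V : ℝ, Real.log q ^ (1 / 3 : ℝ) ≤ V →
      V ≤ c * Real.sqrt (Real.log q / Real.log (Real.log q)) →
      ∀ (n : ℕ) (ι : Type) (A : Fin n → Finset ι) (f : Fin n → Fin k → ι → DirichletCharacter ℂ q),
        (n : ℝ) ≤ Real.exp (c * (Real.log q / V ^ 2)) →
        (∀ m j φ, (((A m).filter (fun i => f m j i = φ)).card : ℝ) ≤ (q : ℝ) ^ (-δ) * (A m).card) →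
        (((univ : Finset (Fin k → DirichletCharacter ℂ q)).filter
          (fun χ => ∃ m, ((sim (A m) (f m) V χ).card : ℝ) < (q : ℝ) ^ (-δ) * (A m).card)).card : ℝ) ≤
            Real.exp (-(c * (Real.log q / V ^ 2))) * (q.totient : ℝ) ^ k := by
  obtain ⟨c₁, hc₁, hc₁4, h₁⟩ := simul k δ hδ
  refine ⟨c₁ / 2, by positivity, ?_⟩
  filter_upwards [h₁] with q h₁
  intro _ V hV1 hV2 n ι A f hn hf
  have hsq0 : 0 ≤ Real.sqrt (Real.log q / Real.log (Real.log q)) := Real.sqrt_nonneg _
  have hV0 : V ≤ c₁ * Real.sqrt (Real.log q / Real.log (Real.log q)) :=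
    hV2.trans (mul_le_mul_of_nonneg_right (by linarith) hsq0)
  obtain ⟨x, hx⟩ : ∃ x : ℝ, x = Real.log q / V ^ 2 := ⟨_, rfl⟩
  have hone : ∀ m, (((univ : Finset (Fin k → DirichletCharacter ℂ q)).filter
      (fun χ => ((sim (A m) (f m) V χ).card : ℝ) < (q : ℝ) ^ (-δ) * (A m).card)).card : ℝ) ≤
      Real.exp (-(c₁ * x)) * (q.totient : ℝ) ^ k := by
    intro m
    have := h₁ V hV1 hV0 ι (A m) (f m) (hf m)
    rwa [← hx] at this
  rw [← hx] at hn ⊢
  have hunion : (univ : Finset (Fin k → DirichletCharacter ℂ q)).filter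
      (fun χ => ∃ m, ((sim (A m) (f m) V χ).card : ℝ) < (q : ℝ) ^ (-δ) * (A m).card) ⊆
      (univ : Finset (Fin n)).biUnion (fun m => (univ : Finset (Fin k → DirichletCharacter ℂ q)).filter
        (fun χ => ((sim (A m) (f m) V χ).card : ℝ) < (q : ℝ) ^ (-δ) * (A m).card)) := by
    intro χ hχ
    rw [mem_filter] at hχ
    obtain ⟨-, m, h1⟩ := hχ
    rw [mem_biUnion]
    exact ⟨m, mem_univ _, mem_filter.2 ⟨mem_univ _, h1⟩⟩
  calc _ ≤ (((univ : Finset (Fin n)).biUnion
        (fun m => (univ : Finset (Fin k → DirichletCharacter ℂ q)).filter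
        (fun χ => ((sim (A m) (f m) V χ).card : ℝ) < (q : ℝ) ^ (-δ) * (A m).card))).card : ℝ) := by
        exact_mod_cast card_le_card hunion
    _ ≤ ∑ m : Fin n, (((univ : Finset (Fin k → DirichletCharacter ℂ q)).filter
        (fun χ => ((sim (A m) (f m) V χ).card : ℝ) < (q : ℝ) ^ (-δ) * (A m).card)).card : ℝ) := by
        exact_mod_cast card_biUnion_le
    _ ≤ ∑ _m : Fin n, Real.exp (-(c₁ * x)) * (q.totient : ℝ) ^ k := sum_le_sum fun m _ => hone m
    _ = n * (Real.exp (-(c₁ * x)) * (q.totient : ℝ) ^ k) := by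
        rw [sum_const, card_univ, Fintype.card_fin, nsmul_eq_mul]
    _ ≤ Real.exp (c₁ / 2 * x) * (Real.exp (-(c₁ * x)) * (q.totient : ℝ) ^ k) := by gcongr
    _ = Real.exp (-(c₁ / 2 * x)) * (q.totient : ℝ) ^ k := by
        rw [← mul_assoc, ← Real.exp_add]
        congr 2
        ring

end Pool.Agent.H681.TS
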