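import Pool.Graph.R_pool_sql_team_seeded_3997aac3.Q237.LV.FinB

/-!
# Large central values in almost all translates of a set of characters: definitions
-/

set_option autoImplicit false

namespace Pool.Agent.H681.TS

open Finset Pool.Agent.Q237.LV
open scoped Classical

section

variable {q : ℕ} [Fact q.Prime]

/-- the residue class of a natural number, as a unit (`1` if `q ∣ n`) -/
noncomputable def nu (n : ℕ) : (ZMod q)ˣ := if h : (n : ZMod q) ≠ 0 then Units.mk0 _ h else 1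

/-- `|E_{ψ ∈ S} ψ(κ)|²` -/
noncomputable def Fw (S : Finset (DirichletCharacter ℂ q)) (κ : (ZMod q)ˣ) : ℝ :=
  ‖∑ ψ ∈ S, ψ (κ : ZMod q)‖ ^ 2 / (S.card : ℝ) ^ 2

/-- the counting hypothesis -/
def CntF (F : (ZMod q)ˣ → ℝ) (y Z : ℕ) (θ : ℝ) : Prop :=
  ∀ (c : (ZMod q)ˣ) (T : Finset ℕ), (∀ u ∈ T, 1 ≤ u ∧ u ≤ Z) →
    (∀ u ∈ T, ∀ p : ℕ, p.Prime → p ∣ u → y ≤ p) →
    ∀ z : ℕ, 2 ≤ z → ∑ u ∈ T.filter (fun u => u ≤ z), F (nu u * c) ≤ (z : ℝ) ^ θ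

/-- the exceptional characters for the truncated series -/
noncomputable def badS (S : Finset (DirichletCharacter ℂ q)) (Y : ℕ) (L0 : ℝ) :
    Finset (DirichletCharacter ℂ q) :=
  univ.filter (fun χ => ∀ ψ ∈ S, χ * ψ ≠ 1 → ‖LL Y (χ * ψ)‖ ≤ L0)

end

/-- the pairs of rough integers different from `(1, 1)` -/
noncomputable def P2 (y Z : ℕ) : Finset (ℕ × ℕ) :=
  (Icc 1 Z ×ˢ Icc 1 Z).filter (fun x => ¬ (x.1 = 1 ∧ x.2 = 1) ∧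
    (∀ p : ℕ, p.Prime → p ∣ x.1 → y ≤ p) ∧ (∀ p : ℕ, p.Prime → p ∣ x.2 → y ≤ p))

theorem mem_P2 {y Z : ℕ} {x : ℕ × ℕ} :
    x ∈ P2 y Z ↔ ((1 ≤ x.1 ∧ x.1 ≤ Z) ∧ 1 ≤ x.2 ∧ x.2 ≤ Z) ∧ ¬ (x.1 = 1 ∧ x.2 = 1) ∧
    (∀ p : ℕ, p.Prime → p ∣ x.1 → y ≤ p) ∧ (∀ p : ℕ, p.Prime → p ∣ x.2 → y ≤ p) := by
  unfold P2
  rw [mem_filter, mem_product, mem_Icc, mem_Icc]

end Pool.Agent.H681.TS
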